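import Pool.Agent.W910.WZ.Defs

set_option autoImplicit false

open Set Cardinal

namespace Pool.Agent.W910.WZ.A

open Pool.Agent.Helper647.FU (MA1 PFA)

/-- A1: the derivative is a function of the point and the value, up to countably many points -/
def S_A1 : Prop := OCA → ∀ X : Set (ℂ × ℂ), #X ≤ ℵ₁ → ∃ D : ℂ × ℂ → ℂ, ∀ g : ℂ → ℂ,
  Differentiable ℂ g → {z : ℂ | (z, g z) ∈ X ∧ deriv g z ≠ D (z, g z)}.Countable

/-- A2: few values at `aleph_1` points imply few functions -/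
def S_A2 : Prop := OCA → ∀ F : Set (ℂ → ℂ), (∀ f ∈ F, Differentiable ℂ f) →
  ∀ Z : Set ℂ, #Z = ℵ₁ → (∀ z ∈ Z, #((fun f : ℂ → ℂ => f z) '' F) ≤ ℵ₁) → #F ≤ ℵ₁

/-- A3: no Wetzel family if the continuum is `aleph_2` -/
def S_A3 : Prop := OCA → #ℝ = ℵ_ 2 → ¬ ∃ F : Set (ℂ → ℂ), IsWetzel F

/-- D1: `MA_{aleph_1}` implies that the continuum is at least `aleph_2` -/
def S_D1 : Prop := MA1 → ℵ_ 2 ≤ #ℝ

end Pool.Agent.W910.WZ.A
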