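import Pool.Agent.W910.WZ.Defs

set_option autoImplicit false

open Set Cardinal

/-!
# The poset for the open colouring axiom under PFA

`Y` is a second countable space of size `aleph_1` with basis `U m`; a box is a finitely supported
function `O`, the value `O k` being the index of the basic open set for the point with name `k`.
-/

namespace Pool.Agent.W910.WZ.B

open Pool.Agent.Helper647.FU (ClosedUnder Proper PFA)

/-- boxes: name to index of a basic open set -/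
abbrev Bx : Type := ℕ →₀ ℕ

/-- `O` on `s` and `O'` off `s` -/
noncomputable def comb (s : Finset ℕ) (O O' : Bx) : Bx :=
  O.filter (fun k => k ∈ s) + O'.filter (fun k => k ∉ s)

theorem comb_mem {s : Finset ℕ} {O O' : Bx} {k : ℕ} (h : k ∈ s) : comb s O O' k = O k := by
  simp [comb, h]

theorem comb_notMem {s : Finset ℕ} {O O' : Bx} {k : ℕ} (h : k ∉ s) : comb s O O' k = O' k := by
  simp [comb, h]

/-- renaming: the value at `k ∈ s` is the value of `O` at `π k` -/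
noncomputable def ren (s : Finset ℕ) (π : Bx) (O : Bx) : Bx :=
  Finsupp.onFinset s (fun k => if k ∈ s then O (π k) else 0) (by
    intro k hk
    by_contra h
    simp [h] at hk)

theorem ren_mem {s : Finset ℕ} {π O : Bx} {k : ℕ} (h : k ∈ s) : ren s π O k = O (π k) := by
  simp [ren, h]

section

variable {Y : Type} [TopologicalSpace Y]

/-- the data: a basis and two open symmetric relations covering all pairs of distinct points -/
structure Sett (U : ℕ → Set Y) (B : Bool → Set (Y × Y)) : Prop where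
  opn : ∀ m, IsOpen (U m)
  bas : ∀ V : Set Y, IsOpen V → ∀ y ∈ V, ∃ m, y ∈ U m ∧ U m ⊆ V
  bop : ∀ i, IsOpen (B i)
  sym : ∀ i x y, (x, y) ∈ B i → (y, x) ∈ B i
  cov : ∀ x y, x ≠ y → ∃ i, (x, y) ∈ B i

variable (U : ℕ → Set Y) (B : Bool → Set (Y × Y))

/-- two boxes are related -/
def Rel (s : Finset ℕ) (c : ℕ → Bool) (Q Q' : Bx) : Prop :=
  ∀ k ∈ s, ∀ y ∈ U (Q k), ∀ y' ∈ U (Q' k), (y, y') ∈ B (c k)

/-- `O` is a box around the points `l` with names in `s` -/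
def Ar (s : Finset ℕ) (l : ℕ → Y) (O : Bx) : Prop := ∀ k ∈ s, l k ∈ U (O k)

/-- the tuple `l` with colours `c` is allowed over `S` -/
def Allowed (S : Set (Set Bx)) (s : Finset ℕ) (l : ℕ → Y) (c : ℕ → Bool) : Prop :=
  ∀ b ∈ S, (∀ O, Ar U s l O → O ∈ b) → ∃ Q ∈ b, ∃ Q' ∈ b, Rel U B s c Q Q'

/-- the points all of whose basic neighbourhoods at name `k` give members of `b` -/
def sec (b : Set Bx) (k : ℕ) (O : Bx) : Set Y := {y | ∀ m, y ∈ U m → O.update k m ∈ b}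

/-- countable models -/
structure Mod (I : Set Y) (S : Set (Set Bx)) : Prop where
  cI : I.Countable
  cS : S.Countable
  inter : ∀ b ∈ S, ∀ b' ∈ S, b ∩ b' ∈ S
  two : ∀ b ∈ S, ∀ k, {O | ∃ y ∈ sec U b k O, ∃ y' ∈ sec U b k O, y ≠ y'} ∈ S
  single : ∀ b ∈ S, ∀ (k : ℕ) (O : Bx) (y : Y), sec U b k O = {y} → y ∈ I
  low : ∀ b ∈ S, ∀ (s : Finset ℕ) (l : ℕ → Y), (∀ k ∈ s, l k ∈ I) →
    {O | ∀ O1, Ar U s l O1 → comb s O1 O ∈ b} ∈ S
  pair : ∀ b ∈ S, ∀ (s : Finset ℕ) (O O' : Bx), {O1 | comb s O1 O ∈ b ∧ comb s O1 O' ∈ b} ∈ S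
  irr : ∀ b ∈ S, ∀ (s : Finset ℕ) (c : ℕ → Bool), {Q ∈ b | ∀ Q' ∈ b, ¬ Rel U B s c Q Q'} ∈ S
  ren : ∀ b ∈ S, ∀ (s : Finset ℕ) (π : Bx), {O | ren s π O ∈ b} ∈ S

/-- the colours of the points with names -/
noncomputable def col (H : Set Y) (l : ℕ → Y) (k : ℕ) : Bool := @decide (l k ∈ H) (Classical.dec _)

/-- blueprints: a countable set `I` of points, the set `H` of its points of colour `true`, and a
countable set `S` of promises -/
structure Bp where
  I : Set Y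
  H : Set Y
  S : Set (Set Bx)
  sub : H ⊆ I
  mod : Mod U B I S

variable {U B}

@[ext]
theorem Bp.ext {t t' : Bp U B} (h1 : t.I = t'.I) (h2 : t.H = t'.H) (h3 : t.S = t'.S) : t = t' := by
  cases t; cases t'
  simp only at h1 h2 h3
  subst h1 h2 h3
  rfl

/-- two blocks -/
theorem two_block {I I' : Set Y} {S S' : Set (Set Bx)} (hm : Mod U B I S) (hm' : Mod U B I' S')
    (hS : S ⊆ S') {s1 s2 : Finset ℕ} (hd : Disjoint s1 s2) {l : ℕ → Y} {c : ℕ → Bool}
    (hl : ∀ k ∈ s1, l k ∈ I') (h1 : Allowed U B S s1 l c) (h2 : Allowed U B S' s2 l c) :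
    Allowed U B S (s1 ∪ s2) l c := by
  intro b hb hall
  have h3 := hm'.low b (hS hb) s1 l hl
  obtain ⟨Q, hQ, Q', hQ', hR⟩ := h2 _ h3 (by
    intro O hO O1 hO1
    apply hall
    intro k hk
    by_cases hk1 : k ∈ s1
    · rw [comb_mem hk1]
      exact hO1 k hk1
    · rw [comb_notMem hk1]
      exact hO k ((Finset.mem_union.1 hk).resolve_left hk1))
  obtain ⟨R, hR1, R', hR2, hR3⟩ := h1 _ (hm.pair b hb s1 Q Q') (by
    intro O1 hO1
    exact ⟨hQ O1 hO1, hQ' O1 hO1⟩)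
  refine ⟨comb s1 R Q, hR1.1, comb s1 R' Q', hR2.2, ?_⟩
  intro k hk
  by_cases hk1 : k ∈ s1
  · rw [comb_mem hk1, comb_mem hk1]
    exact hR3 k hk1
  · rw [comb_notMem hk1, comb_notMem hk1]
    exact hR k ((Finset.mem_union.1 hk).resolve_left hk1)

/-- smaller tuples are allowed too -/
theorem Allowed.mono {S : Set (Set Bx)} {s s' : Finset ℕ} {l : ℕ → Y} {c : ℕ → Bool}
    (h : Allowed U B S s l c) (hs : s' ⊆ s) : Allowed U B S s' l c := by
  intro b hb hall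
  obtain ⟨Q, hQ, Q', hQ', hR⟩ := h b hb (fun O hO => hall O (fun k hk => hO k (hs hk)))
  exact ⟨Q, hQ, Q', hQ', fun k hk => hR k (hs hk)⟩

/-- only the colours of the names in `s` matter -/
theorem Allowed.congr {S : Set (Set Bx)} {s : Finset ℕ} {l : ℕ → Y} {c c' : ℕ → Bool}
    (h : Allowed U B S s l c) (hc : ∀ k ∈ s, c k = c' k) : Allowed U B S s l c' := by
  intro b hb hall
  obtain ⟨Q, hQ, Q', hQ', hR⟩ := h b hb hall
  exact ⟨Q, hQ, Q', hQ', fun k hk => by rw [← hc k hk]; exact hR k hk⟩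

theorem Allowed.anti {S S' : Set (Set Bx)} {s : Finset ℕ} {l : ℕ → Y} {c : ℕ → Bool}
    (h : Allowed U B S' s l c) (hS : S ⊆ S') : Allowed U B S s l c :=
  fun b hb hall => h b (hS hb) hall

omit [TopologicalSpace Y] in
theorem col_congr {H H' : Set Y} {l : ℕ → Y} {k : ℕ} (h : l k ∈ H ↔ l k ∈ H') :
    col H l k = col H' l k := by
  unfold col
  by_cases h1 : l k ∈ H
  · have h2 := h.1 h1
    simp [h1, h2]
  · have h2 : l k ∉ H' := fun h3 => h1 (h.2 h3)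
    simp [h1, h2]

/-- blueprints are ordered by: old colours are kept, new points are allowed over the old
promises -/
instance : PartialOrder (Bp U B) where
  le t' t := t.I ⊆ t'.I ∧ t.S ⊆ t'.S ∧ (∀ y ∈ t.I, y ∈ t'.H ↔ y ∈ t.H) ∧
    ∀ (s : Finset ℕ) (l : ℕ → Y), Set.InjOn l s → (∀ k ∈ s, l k ∈ t'.I ∧ l k ∉ t.I) →
      Allowed U B t.S s l (col t'.H l)
  le_refl t := by
    refine ⟨Subset.rfl, Subset.rfl, fun _ _ => Iff.rfl, ?_⟩
    intro s l _ hl
    have hs : s = ∅ := by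
      rw [Finset.eq_empty_iff_forall_notMem]
      intro k hk
      exact (hl k hk).2 (hl k hk).1
    subst hs
    intro b _ hall
    exact ⟨0, hall 0 (fun k hk => absurd hk (Finset.notMem_empty k)), 0,
      hall 0 (fun k hk => absurd hk (Finset.notMem_empty k)),
      fun k hk => absurd hk (Finset.notMem_empty k)⟩
  le_trans t2 t1 t0 h21 h10 := by
    classical
    refine ⟨h10.1.trans h21.1, h10.2.1.trans h21.2.1,
      fun y hy => (h21.2.2.1 y (h10.1 hy)).trans (h10.2.2.1 y hy), ?_⟩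
    intro s l hinj hl
    have hsplit : s = s.filter (fun k => l k ∈ t1.I) ∪ s.filter (fun k => l k ∉ t1.I) :=
      (Finset.filter_union_filter_not_eq _ s).symm
    rw [hsplit]
    refine two_block t0.mod t1.mod h10.2.1 (Finset.disjoint_filter_filter_not _ _ _) ?_ ?_ ?_
    · intro k hk
      exact (Finset.mem_filter.1 hk).2
    · refine (h10.2.2.2 (s.filter (fun k => l k ∈ t1.I)) l (hinj.mono (fun k hk => (Finset.mem_filter.1 (Finset.mem_coe.1 hk)).1)) ?_).congr ?_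
      · intro k hk
        exact ⟨(Finset.mem_filter.1 hk).2, (hl k (Finset.mem_filter.1 hk).1).2⟩
      · intro k hk
        exact col_congr (h21.2.2.1 _ (Finset.mem_filter.1 hk).2).symm
    · refine h21.2.2.2 (s.filter (fun k => l k ∉ t1.I)) l (hinj.mono (fun k hk => (Finset.mem_filter.1 (Finset.mem_coe.1 hk)).1)) ?_
      intro k hk
      exact ⟨(hl k (Finset.mem_filter.1 hk).1).1, (Finset.mem_filter.1 hk).2⟩
  le_antisymm t t' h h' := by
    have hI : t.I = t'.I := Subset.antisymm h'.1 h.1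
    refine Bp.ext hI ?_ (Subset.antisymm h'.2.1 h.2.1)
    ext y
    constructor
    · intro hy
      exact (h.2.2.1 y (hI ▸ t.sub hy)).1 hy
    · intro hy
      exact (h'.2.2.1 y (hI ▸ t'.sub hy)).1 hy

theorem Bp.le_def {t' t : Bp U B} : t' ≤ t ↔ t.I ⊆ t'.I ∧ t.S ⊆ t'.S ∧
    (∀ y ∈ t.I, y ∈ t'.H ↔ y ∈ t.H) ∧
    ∀ (s : Finset ℕ) (l : ℕ → Y), Set.InjOn l s → (∀ k ∈ s, l k ∈ t'.I ∧ l k ∉ t.I) →
      Allowed U B t.S s l (col t'.H l) := Iff.rfl

/-- the finite part: a partial function into the naturals with homogeneous fibres -/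
structure Val (t : Bp U B) (w : Finset (Y × ℕ)) : Prop where
  dom : ∀ q ∈ w, q.1 ∈ t.I
  fn : ∀ q ∈ w, ∀ q' ∈ w, q.1 = q'.1 → q.2 = q'.2
  hom : ∀ q ∈ w, ∀ q' ∈ w, q.2 = q'.2 → q.1 ≠ q'.1 → (q.1 ∈ t.H ↔ q'.1 ∈ t.H) ∧
    (q.1, q'.1) ∈ B (@decide (q.1 ∈ t.H) (Classical.dec _))

end

/-- the poset -/
structure Pr {Y : Type} [TopologicalSpace Y] (U : ℕ → Set Y) (B : Bool → Set (Y × Y)) where
  t : Bp U B
  w : Finset (Y × ℕ)
  val : Val t w

instance {Y : Type} [TopologicalSpace Y] (U : ℕ → Set Y) (B : Bool → Set (Y × Y)) :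
    PartialOrder (Pr U B) where
  le q p := q.t ≤ p.t ∧ p.w ⊆ q.w
  le_refl p := ⟨le_rfl, Finset.Subset.refl _⟩
  le_trans _ _ _ h h' := ⟨h.1.trans h'.1, h'.2.trans h.2⟩
  le_antisymm p q h h' := by
    have h1 := le_antisymm h.1 h'.1
    have h2 := Finset.Subset.antisymm h'.2 h.2
    cases p; cases q
    simp only at h1 h2
    subst h1 h2
    rfl

/-- B1: one new point -/
def S_B1 : Prop := ∀ (Y : Type) [TopologicalSpace Y] (U : ℕ → Set Y) (B : Bool → Set (Y × Y)),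
  Sett U B → ∀ (I : Set Y) (S : Set (Set Bx)), Mod U B I S →
    ∀ (s : Finset ℕ) (l : ℕ → Y) (c : ℕ → Bool), Allowed U B S s l c → ∀ k, k ∉ s → l k ∉ I →
      ∃ b : Bool, Allowed U B S (insert k s) l (Function.update c k b)

/-- B2: renaming -/
def S_B2 : Prop := ∀ (Y : Type) [TopologicalSpace Y] (U : ℕ → Set Y) (B : Bool → Set (Y × Y))
  (I : Set Y) (S : Set (Set Bx)), Mod U B I S →
    ∀ (s s' : Finset ℕ) (l l' : ℕ → Y) (c c' : ℕ → Bool) (π : ℕ → ℕ),
      (∀ k ∈ s, π k ∈ s' ∧ l k = l' (π k) ∧ c k = c' (π k)) →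
      Allowed U B S s' l' c' → Allowed U B S s l c

/-- B3: blueprints can be extended to every larger model -/
def S_B3 : Prop := ∀ (Y : Type) [TopologicalSpace Y] (U : ℕ → Set Y) (B : Bool → Set (Y × Y)),
  Sett U B → ∀ (t : Bp U B) (I : Set Y) (S : Set (Set Bx)), Mod U B I S → t.I ⊆ I → t.S ⊆ S →
    ∃ t' : Bp U B, t' ≤ t ∧ t'.I = I ∧ t'.S = S

/-- B4: there are many models -/
def S_B4 : Prop := ∀ (Y : Type) [TopologicalSpace Y] (U : ℕ → Set Y) (B : Bool → Set (Y × Y)),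
  Sett U B → ∀ (I0 : Set Y) (S0 : Set (Set Bx)), I0.Countable → S0.Countable →
    ∃ (I : Set Y) (S : Set (Set Bx)), I0 ⊆ I ∧ S0 ⊆ S ∧ Mod U B I S

/-- B5: limits of blueprints -/
def S_B5 : Prop := ∀ (Y : Type) [TopologicalSpace Y] (U : ℕ → Set Y) (B : Bool → Set (Y × Y))
  (t : ℕ → Bp U B), (∀ n, t (n + 1) ≤ t n) →
    ∃ t' : Bp U B, (∀ n, t' ≤ t n) ∧ t'.I = ⋃ n, (t n).I ∧ t'.S = ⋃ n, (t n).S

/-- the type of a condition below `t`: it lies in `D`, its finite part consists of `w` and of the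
points `l k` for `k ∈ s` with values `v k`, colours `c k`, in the boxes `O0` and `O` -/
def Typ {Y : Type} [TopologicalSpace Y] {U : ℕ → Set Y} {B : Bool → Set (Y × Y)}
    (D : Set (Pr U B)) (w : Finset (Y × ℕ)) (s : Finset ℕ) (c v O0 : Bx) (O : Bx) (t : Bp U B)
    (r : Pr U B) : Prop :=
  r ∈ D ∧ r.t ≤ t ∧ ∃ l : ℕ → Y, Set.InjOn l s ∧
    (∀ q, q ∈ r.w ↔ q ∈ w ∨ ∃ k ∈ s, q = (l k, v k)) ∧
    ∀ k ∈ s, l k ∈ U (O0 k) ∧ l k ∈ U (O k) ∧ (l k ∈ r.t.H ↔ c k = 1)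

/-- B6: deciding a family of boxes -/
def S_B6 : Prop := ∀ (Y : Type) [TopologicalSpace Y] (U : ℕ → Set Y) (B : Bool → Set (Y × Y)),
  Sett U B → ∀ (D : Set (Pr U B)) (w : Finset (Y × ℕ)) (s : Finset ℕ) (c v O0 : Bx) (t : Bp U B),
    ∃ (t' : Bp U B) (b : Set Bx) (g : Bx → Pr U B), t' ≤ t ∧ b ∈ t'.S ∧
      (∀ O ∈ b, Typ D w s c v O0 O t (g O) ∧ t' ≤ (g O).t) ∧
      ∀ O, O ∉ b → ∀ r : Pr U B, ¬ Typ D w s c v O0 O t' r

/-- B7: the poset is proper -/
def S_B7 : Prop := ∀ (Y : Type) [TopologicalSpace Y] [Nonempty Y] (U : ℕ → Set Y)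
  (B : Bool → Set (Y × Y)),
  Sett U B → Proper (Pr U B)

/-- B8: points can be added -/
def S_B8 : Prop := ∀ (Y : Type) [TopologicalSpace Y] (U : ℕ → Set Y) (B : Bool → Set (Y × Y)),
  Sett U B → ∀ (p : Pr U B) (y : Y), ∃ q : Pr U B, q ≤ p ∧ ∃ n, (y, n) ∈ q.w

/-- B9: conclusion -/
def S_B9 : Prop := PFA → OCA

end Pool.Agent.W910.WZ.B
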