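import Pool.Agent.W910.WZ.Defs

set_option autoImplicit false

open Set Cardinal

/-!
# The poset for `2 ^ aleph_0 <= aleph_2` under PFA (after Moore)

`I` plays `omega_1`, `W` plays `omega_2`.
-/

namespace Pool.Agent.W910.WZ.C

open Pool.Agent.Helper647.FU (ClosedUnder Proper PFA)

/-- `I` is like `omega_1` and `W` is like `omega_2` -/
structure Ind (I W : Type) [LinearOrder I] [LinearOrder W] : Prop where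
  wfI : WellFoundedLT I
  wfW : WellFoundedLT W
  cI : ∀ i : I, (Iio i).Countable
  bI : ∀ C : Set I, C.Countable → ∃ b, ∀ c ∈ C, c < b
  kI : #I = ℵ₁
  cW : ∀ w : W, #(Iio w) ≤ ℵ₁
  bW : ∀ C : Set W, #C ≤ ℵ₁ → ∃ b, ∀ c ∈ C, c < b
  kW : #W = ℵ_ 2

section

variable {I W : Type} [LinearOrder I] [LinearOrder W]

/-- the countable sets used in conditions -/
def Nice (e : W → I → W) (x : Set (I ⊕ W)) : Prop :=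
  x.Countable ∧ (∀ i, Sum.inl i ∈ x → ∀ j, j < i → Sum.inl j ∈ x) ∧
    ∀ w i, Sum.inr w ∈ x → Sum.inl i ∈ x → Sum.inr (e w i) ∈ x

/-- `l1 x` is a ladder in the first part of `x` -/
def Lad1 (l1 : Set (I ⊕ W) → ℕ → I) : Prop :=
  ∀ x : Set (I ⊕ W), x.Countable → (∃ i, Sum.inl i ∈ x) →
    (∀ i, Sum.inl i ∈ x → ∃ j, i < j ∧ Sum.inl j ∈ x) →
    (∀ k, Sum.inl (l1 x k) ∈ x) ∧ ∀ i, Sum.inl i ∈ x → ∃ k, i < l1 x k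

/-- `l2 x` is a ladder in the second part of `x` -/
def Lad2 (l2 : Set (I ⊕ W) → ℕ → W) : Prop :=
  ∀ x : Set (I ⊕ W), x.Countable → (∃ i, Sum.inr i ∈ x) →
    (∀ i, Sum.inr i ∈ x → ∃ j, i < j ∧ Sum.inr j ∈ x) →
    (∀ k, Sum.inr (l2 x k) ∈ x) ∧ ∀ i, Sum.inr i ∈ x → ∃ k, i < l2 x k

/-- first ladder point of `x` above `y` -/
noncomputable def c1 (l1 : Set (I ⊕ W) → ℕ → I) (y x : Set (I ⊕ W)) : ℕ :=
  sInf {k | ∀ i, Sum.inl i ∈ y → i < l1 x k}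

noncomputable def c2 (l2 : Set (I ⊕ W) → ℕ → W) (y x : Set (I ⊕ W)) : ℕ :=
  sInf {k | ∀ i, Sum.inr i ∈ y → i < l2 x k}

/-- `y` codes the bit `b` in `x` -/
def Sig (l1 : Set (I ⊕ W) → ℕ → I) (l2 : Set (I ⊕ W) → ℕ → W) (b : Bool)
    (x y : Set (I ⊕ W)) : Prop :=
  (∃ k, ∀ i, Sum.inl i ∈ y → i < l1 x k) ∧ (∃ k, ∀ i, Sum.inr i ∈ y → i < l2 x k) ∧
    (c1 l1 y x < c2 l2 y x ↔ b = true)

/-- a condition: a countable closed chain of countable sets -/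
structure IsCd (e : W → I → W) (l1 : Set (I ⊕ W) → ℕ → I) (l2 : Set (I ⊕ W) → ℕ → W)
    (bit : Set (I ⊕ W) → Bool) (X : Set (Set (I ⊕ W))) : Prop where
  ne : X.Nonempty
  cnt : X.Countable
  nice : ∀ x ∈ X, Nice e x
  chain : ∀ x ∈ X, ∀ y ∈ X, x ⊆ y ∨ y ⊆ x
  cl : ∀ Y ⊆ X, Y.Nonempty → ⋃₀ Y ∈ X
  lim : ∀ x ∈ X, (∀ y ∈ X, x ⊆ y) ∨
    ∃ y0 ∈ X, y0 ⊂ x ∧ ∀ y ∈ X, y0 ⊂ y → y ⊂ x → Sig l1 l2 (bit x) x y

/-- the poset -/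
def Cd (e : W → I → W) (l1 : Set (I ⊕ W) → ℕ → I) (l2 : Set (I ⊕ W) → ℕ → W)
    (bit : Set (I ⊕ W) → Bool) : Type :=
  {X : Set (Set (I ⊕ W)) // IsCd e l1 l2 bit X}

/-- end extension -/
instance (e : W → I → W) (l1 : Set (I ⊕ W) → ℕ → I) (l2 : Set (I ⊕ W) → ℕ → W)
    (bit : Set (I ⊕ W) → Bool) : PartialOrder (Cd e l1 l2 bit) where
  le q p := p.1 ⊆ q.1 ∧ ∀ y ∈ q.1, y ∉ p.1 → ∀ x ∈ p.1, x ⊆ y
  le_refl p := ⟨Subset.rfl, fun y hy h => absurd hy h⟩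
  le_trans a b c hab hbc := ⟨hbc.1.trans hab.1, fun y hy hyc x hx => by
    by_cases hyb : y ∈ b.1
    · exact hbc.2 y hyb hyc x hx
    · exact hab.2 y hy hyb x (hbc.1 hx)⟩
  le_antisymm a b hab hba := Subtype.ext (Subset.antisymm hba.1 hab.1)

/-- the sets obtained from a filter -/
structure Filtr (e : W → I → W) (l1 : Set (I ⊕ W) → ℕ → I) (l2 : Set (I ⊕ W) → ℕ → W)
    (bit : Set (I ⊕ W) → Bool) (X : Set (Set (I ⊕ W))) : Prop where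
  nice : ∀ x ∈ X, Nice e x
  chain : ∀ x ∈ X, ∀ y ∈ X, x ⊆ y ∨ y ⊆ x
  cl : ∀ Y ⊆ X, Y.Nonempty → Y.Countable → ⋃₀ Y ∈ X
  lim : ∀ x ∈ X, (∀ y ∈ X, x ⊆ y) ∨
    ∃ y0 ∈ X, y0 ⊂ x ∧ ∀ y ∈ X, y0 ⊂ y → y ⊂ x → Sig l1 l2 (bit x) x y
  cof : ∀ i : I, ∃ x ∈ X, Sum.inl i ∈ x

end

/-- C1: pigeonhole, many second coordinates with bounded first part -/
def S_C1 : Prop := ∀ (I W : Type) [LinearOrder I] [LinearOrder W], Ind I W →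
  ∀ F : List (I ⊕ W) → Set (I ⊕ W), (∀ l, (F l).Countable) →
    ∃ γ : I, ∀ β : W, ∃ y : Set (I ⊕ W), y.Countable ∧ ClosedUnder F y ∧
      (∀ i, Sum.inl i ∈ y → i < γ) ∧ ∃ β', β ≤ β' ∧ Sum.inr β' ∈ y

/-- C1': pigeonhole, many first coordinates with bounded second part -/
def S_C1' : Prop := ∀ (I W : Type) [LinearOrder I] [LinearOrder W], Ind I W →
  ∀ F : List (I ⊕ W) → Set (I ⊕ W), (∀ l, (F l).Countable) →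
    ∃ δ : W, ∀ ζ : I, ∃ y : Set (I ⊕ W), y.Countable ∧ ClosedUnder F y ∧
      (∀ i, Sum.inr i ∈ y → i < δ) ∧ ∃ ζ', ζ ≤ ζ' ∧ Sum.inl ζ' ∈ y

/-- C2: in a closed set `x` every bit is coded by a closed subset -/
def S_C2 : Prop := ∀ (I W : Type) [LinearOrder I] [LinearOrder W]
  (l1 : Set (I ⊕ W) → ℕ → I) (l2 : Set (I ⊕ W) → ℕ → W), Lad1 l1 → Lad2 l2 →
  ∀ (F : List (I ⊕ W) → Set (I ⊕ W)) (x : Set (I ⊕ W)), x.Countable →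
    (∀ i, Sum.inl i ∈ x → ∃ j, i < j ∧ Sum.inl j ∈ x) →
    (∀ i, Sum.inr i ∈ x → ∃ j, i < j ∧ Sum.inr j ∈ x) →
    ∀ (γ : I) (δ : W), Sum.inl γ ∈ x → Sum.inr δ ∈ x →
    (∀ β, Sum.inr β ∈ x → ∃ y ⊆ x, ClosedUnder F y ∧ (∀ i, Sum.inl i ∈ y → i < γ) ∧
      (∃ β', β ≤ β' ∧ Sum.inr β' ∈ y) ∧ ∃ β'', Sum.inr β'' ∈ x ∧ ∀ i, Sum.inr i ∈ y → i < β'') →
    (∀ ζ, Sum.inl ζ ∈ x → ∃ y ⊆ x, ClosedUnder F y ∧ (∀ i, Sum.inr i ∈ y → i < δ) ∧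
      (∃ ζ', ζ ≤ ζ' ∧ Sum.inl ζ' ∈ y) ∧ ∃ ζ'', Sum.inl ζ'' ∈ x ∧ ∀ i, Sum.inl i ∈ y → i < ζ'') →
    ∀ b : Bool, ∃ y ⊆ x, ClosedUnder F y ∧ Sig l1 l2 b x y

/-- C3: coding a bit is an open property -/
def S_C3 : Prop := ∀ (I W : Type) [LinearOrder I] [LinearOrder W]
  (l1 : Set (I ⊕ W) → ℕ → I) (l2 : Set (I ⊕ W) → ℕ → W) (b : Bool) (x y : Set (I ⊕ W)),
    Sig l1 l2 b x y → ∃ a : List (I ⊕ W), (∀ j ∈ a, j ∈ y) ∧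
      ∀ z ⊆ y, (∀ j ∈ a, j ∈ z) → Sig l1 l2 b x z

/-- C4: conditions can be enlarged at the top -/
def S_C4 : Prop := ∀ (I W : Type) [LinearOrder I] [LinearOrder W], Ind I W →
  ∀ (e : W → I → W) (l1 : Set (I ⊕ W) → ℕ → I) (l2 : Set (I ⊕ W) → ℕ → W)
    (bit : Set (I ⊕ W) → Bool) (p : Cd e l1 l2 bit) (a : Set (I ⊕ W)), a.Countable →
    ∃ q : Cd e l1 l2 bit, q ≤ p ∧ a ⊆ ⋃₀ q.1 ∧ ∀ z ∈ q.1, z ∉ p.1 → a ⊆ z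

/-- C5: the poset is proper -/
def S_C5 : Prop := ∀ (I W : Type) [LinearOrder I] [LinearOrder W], Ind I W →
  ∀ (e : W → I → W) (l1 : Set (I ⊕ W) → ℕ → I) (l2 : Set (I ⊕ W) → ℕ → W)
    (bit : Set (I ⊕ W) → Bool), Lad1 l1 → Lad2 l2 → Proper (Cd e l1 l2 bit)

/-- C6: the chain given by PFA -/
def S_C6 : Prop := PFA → ∀ (I W : Type) [LinearOrder I] [LinearOrder W], Ind I W →
  ∀ (e : W → I → W) (l1 : Set (I ⊕ W) → ℕ → I) (l2 : Set (I ⊕ W) → ℕ → W)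
    (bit : Set (I ⊕ W) → Bool), Lad1 l1 → Lad2 l2 → ∃ X, Filtr e l1 l2 bit X

/-- C7: the union of a filtration is an initial part -/
def S_C7 : Prop := ∀ (I W : Type) [LinearOrder I] [LinearOrder W], Ind I W →
  ∀ (e : W → I → W), (∀ w, ∀ v < w, ∃ i, e w i = v) →
    ∀ (l1 : Set (I ⊕ W) → ℕ → I) (l2 : Set (I ⊕ W) → ℕ → W)
    (bit : Set (I ⊕ W) → Bool) (X : Set (Set (I ⊕ W))), Filtr e l1 l2 bit X →
    ∃ β : W, ⋃₀ X = {j | ∀ w, j = Sum.inr w → w < β}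

/-- C8: two filtrations of the same set code the same bits, up to nonstationary sets -/
def S_C8 : Prop := ∀ (I W : Type) [LinearOrder I] [LinearOrder W], Ind I W →
  ∀ (e : W → I → W) (l1 : Set (I ⊕ W) → ℕ → I) (l2 : Set (I ⊕ W) → ℕ → W)
    (bit bit' : Set (I ⊕ W) → Bool) (X X' : Set (Set (I ⊕ W))), Filtr e l1 l2 bit X →
    Filtr e l1 l2 bit' X' → ⋃₀ X = ⋃₀ X' →
    ∃ (g : I → I) (a : I), ∀ c, a < c → (∀ b < c, g b < c) →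
      ∃ x : Set (I ⊕ W), (∀ i, Sum.inl i ∈ x ↔ i < c) ∧ bit x = bit' x

/-- C9: the index types, the surjections and the ladders exist -/
def S_C9 : Prop := ∃ (I W : Type) (_ : LinearOrder I) (_ : LinearOrder W), Ind I W ∧
  (∃ e : W → I → W, ∀ w, ∀ v < w, ∃ i, e w i = v) ∧
  (∃ l1 : Set (I ⊕ W) → ℕ → I, Lad1 l1) ∧ ∃ l2 : Set (I ⊕ W) → ℕ → W, Lad2 l2

/-- C10: conclusion -/
def S_C10 : Prop := PFA → #ℝ ≤ ℵ_ 2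

end Pool.Agent.W910.WZ.C
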