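import Pool.Agent.Helper647.FU.Defs

set_option autoImplicit false

open Set Cardinal Topology

namespace Pool.Agent.W910.WZ

/-- The open colouring axiom of Abraham, Rubin and Shelah (for two colours): whenever the pairs of
distinct points of a second countable space of size at most `aleph_1` are covered by two symmetric
open relations, the space is a union of countably many pieces, each homogeneous for one of them. -/
def OCA : Prop :=
  ∀ (Y : Type) [TopologicalSpace Y] [SecondCountableTopology Y], #Y ≤ ℵ₁ →
    ∀ B : Bool → Set (Y × Y), (∀ i, IsOpen (B i)) → (∀ i x y, (x, y) ∈ B i → (y, x) ∈ B i) →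
      (∀ x y, x ≠ y → ∃ i, (x, y) ∈ B i) →
      ∃ (n : Y → ℕ) (i : ℕ → Bool), ∀ x y, x ≠ y → n x = n y → (x, y) ∈ B (i (n x))

/-- A Wetzel family: a set of entire functions that takes fewer values than it has members at
every point. -/
def IsWetzel (F : Set (ℂ → ℂ)) : Prop :=
  (∀ f ∈ F, Differentiable ℂ f) ∧ ∀ z : ℂ, #((fun f : ℂ → ℂ => f z) '' F) < #F

end Pool.Agent.W910.WZ
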