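import Pool.Agent.W910.WZ.ADefs

set_option autoImplicit false

open Set Cardinal

namespace Pool.Agent.W910.WZ.T_A2

open Pool.Agent.W910.WZ

theorem main (h : A.S_A1) : A.S_A2 := by
  intro hoca F hF Z hZ hval
  choose D hD using h hoca
  set X0 : Set (ℂ × ℂ) := {p | p.1 ∈ Z ∧ p.2 ∈ (fun f : ℂ → ℂ => f p.1) '' F} with hX0
  have hX0c : #X0 ≤ ℵ₁ := by
    have e : X0 = ⋃ z ∈ Z, (Prod.mk z) '' ((fun f : ℂ → ℂ => f z) '' F) := by
      ext p
      simp only [hX0, Set.mem_iUnion, exists_prop]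
      constructor
      · rintro ⟨h1, h2⟩
        exact ⟨p.1, h1, p.2, h2, rfl⟩
      · rintro ⟨z, hz, w, hw, rfl⟩
        exact ⟨hz, hw⟩
    rw [e]
    refine (Cardinal.mk_biUnion_le _ _).trans ?_
    rw [hZ]
    have hω : ℵ₀ ≤ ℵ₁ := aleph0_le_aleph 1
    calc ℵ₁ * ⨆ z : Z, #((Prod.mk z.1) '' ((fun f : ℂ → ℂ => f z.1) '' F)) ≤ ℵ₁ * ℵ₁ := by
          refine mul_le_mul' le_rfl (ciSup_le' fun z => ?_)
          exact Cardinal.mk_image_le.trans (hval z.1 z.2)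
      _ = ℵ₁ := mul_eq_self hω
  -- the sets and the functions
  let T : ℕ → {X : Set (ℂ × ℂ) // #X ≤ ℵ₁} := fun k => Nat.rec ⟨X0, hX0c⟩
    (fun _ X => ⟨(fun p : ℂ × ℂ => (p.1, D X.1 X.2 p)) '' X.1, Cardinal.mk_image_le.trans X.2⟩) k
  let Dk : ℕ → ℂ × ℂ → ℂ := fun k => D (T k).1 (T k).2
  let W : ℕ → ℂ × ℂ → ℂ := fun k p => Nat.rec p.2 (fun j w => Dk j (p.1, w)) k
  have hT1 : ∀ k, (T (k + 1)).1 = (fun p : ℂ × ℂ => (p.1, Dk k p)) '' (T k).1 := fun k => rfl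
  have hW1 : ∀ k p, W (k + 1) p = Dk k (p.1, W k p) := fun k p => rfl
  have hWT : ∀ k, ∀ p ∈ X0, (p.1, W k p) ∈ (T k).1 := by
    intro k p hp
    induction k with
    | zero => exact hp
    | succ k ih =>
      rw [hT1, hW1]
      exact ⟨(p.1, W k p), ih, rfl⟩
  have hdiff : ∀ f ∈ F, ∀ k, Differentiable ℂ (iteratedDeriv k f) := by
    intro f hf k
    have h1 : ContDiff ℂ (⊤ : ℕ∞) f := (hF f hf).contDiff
    exact h1.differentiable_iteratedDeriv k (by exact_mod_cast ENat.natCast_lt_top k)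
  have hex : ∀ f ∈ F, ∃ z ∈ Z, ∀ k, iteratedDeriv k f z = W k (z, f z) := by
    intro f hf
    set Bad : Set ℂ := ⋃ k : ℕ, {z | (z, iteratedDeriv k f z) ∈ (T k).1 ∧
      deriv (iteratedDeriv k f) z ≠ Dk k (z, iteratedDeriv k f z)} with hBad
    have hBc : Bad.Countable := Set.countable_iUnion fun k =>
      hD (T k).1 (T k).2 _ (hdiff f hf k)
    have hnot : ¬ Z ⊆ Bad := by
      intro hsub
      have h1 : #Z ≤ ℵ₀ := (hBc.mono hsub).le_aleph0
      rw [hZ] at h1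
      exact absurd h1 (not_le.2 aleph0_lt_aleph_one)
    obtain ⟨z, hz, hzB⟩ := Set.not_subset.1 hnot
    refine ⟨z, hz, fun k => ?_⟩
    have hp : ((z, f z) : ℂ × ℂ) ∈ X0 := ⟨hz, f, hf, rfl⟩
    induction k with
    | zero => rw [iteratedDeriv_zero]; rfl
    | succ k ih =>
      rw [iteratedDeriv_succ, hW1]
      have h1 : (z, iteratedDeriv k f z) ∈ (T k).1 := by
        rw [ih]; exact hWT k _ hp
      by_contra hne
      apply hzB
      refine Set.mem_iUnion.2 ⟨k, h1, ?_⟩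
      rw [← ih] at hne
      exact hne
  choose! zf hzf hzW using hex
  have hinj : Function.Injective (fun f : F => (⟨(zf f.1, f.1 (zf f.1)),
      ⟨hzf f.1 f.2, f.1, f.2, rfl⟩⟩ : X0)) := by
    intro f g hfg
    have h1 : (zf f.1, f.1 (zf f.1)) = (zf g.1, g.1 (zf g.1)) := congrArg Subtype.val hfg
    have hz : zf f.1 = zf g.1 := congrArg Prod.fst h1
    have hk : ∀ k, iteratedDeriv k f.1 (zf f.1) = iteratedDeriv k g.1 (zf f.1) := by
      intro k
      rw [hzW f.1 f.2 k, h1, ← hzW g.1 g.2 k, hz]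
    apply Subtype.ext
    funext w
    rw [← Complex.taylorSeries_eq_of_entire' (zf f.1) w (hF f.1 f.2),
      ← Complex.taylorSeries_eq_of_entire' (zf f.1) w (hF g.1 g.2)]
    simp only [hk]
  exact (Cardinal.mk_le_of_injective hinj).trans hX0c

end Pool.Agent.W910.WZ.T_A2
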