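import Pool.Agent.W910.WZ.ADefs

set_option autoImplicit false

open Set Cardinal Topology Filter

namespace Pool.Agent.W910.WZ.T_A3

open Pool.Agent.W910.WZ.A

/-- entire functions with the same derivatives at `0` agree -/
theorem eq_of_deriv {f g : ℂ → ℂ} (hf : Differentiable ℂ f) (hg : Differentiable ℂ g) (c : ℂ)
    (h : ∀ n, iteratedDeriv n f c = iteratedDeriv n g c) : f = g := by
  ext z
  rw [← Complex.taylorSeries_eq_of_entire' c z hf, ← Complex.taylorSeries_eq_of_entire' c z hg]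
  simp [h]

/-- two different entire functions agree at countably many points only -/
theorem countable_coincidence {f g : ℂ → ℂ} (hf : Differentiable ℂ f) (hg : Differentiable ℂ g)
    (hne : f ≠ g) : {z | f z = g z}.Countable := by
  have hfa : AnalyticOnNhd ℂ f Set.univ := fun z _ => hf.analyticAt z
  have hga : AnalyticOnNhd ℂ g Set.univ := fun z _ => hg.analyticAt z
  have h1 : ∀ z, ∃ V, IsOpen V ∧ z ∈ V ∧ ∀ w ∈ V, w ≠ z → f w ≠ g w := by
    intro z
    rcases (hfa z trivial).eventually_eq_or_eventually_ne (hga z trivial) with h | h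
    · exact absurd (AnalyticOnNhd.eq_of_eventuallyEq hfa hga h) hne
    · rw [eventually_nhdsWithin_iff, eventually_nhds_iff] at h
      obtain ⟨V, hV, hVo, hz⟩ := h
      exact ⟨V, hVo, hz, fun w hw hwz => hV w hw hwz⟩
  choose V hVo hzV hV using h1
  obtain ⟨T, hTc, hT⟩ := TopologicalSpace.isOpen_iUnion_countable V hVo
  have hTu : ⋃ i ∈ T, V i = Set.univ := by
    rw [hT]
    exact eq_univ_of_forall fun z => mem_iUnion.2 ⟨z, hzV z⟩
  refine hTc.mono fun z hz => ?_
  have h2 : z ∈ ⋃ i ∈ T, V i := by rw [hTu]; trivial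
  obtain ⟨i, hi, hzi⟩ := mem_iUnion₂.1 h2
  by_cases hzi' : z = i
  · rw [hzi']; exact hi
  · exact absurd hz (hV i z hzi hzi')

theorem main (h : S_A2) : S_A3 := by
  classical
  rintro hOCA hR ⟨F, hF, hW⟩
  have hC : #ℂ = ℵ_ 2 := by
    rw [mk_complex, ← mk_real, hR]
  have hsucc : (ℵ_ 2 : Cardinal) = Order.succ ℵ₁ := by
    have h2 : (2 : Ordinal) = Order.succ 1 := by
      rw [Order.succ_eq_add_one]; norm_num
    rw [h2, aleph_succ]
  by_cases hF1 : #F ≤ ℵ₁
  · -- few functions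
    have hbad : #(⋃ p : {p : F × F // p.1.1 ≠ p.2.1}, {z : ℂ | p.1.1.1 z = p.1.2.1 z}) ≤ ℵ₁ := by
      refine (mk_iUnion_le _).trans ?_
      have h1 : #{p : F × F // p.1.1 ≠ p.2.1} ≤ ℵ₁ := by
        refine (mk_subtype_le _).trans ?_
        rw [mk_prod, lift_id]
        exact (mul_le_mul' hF1 hF1).trans (mul_eq_self (aleph0_le_aleph 1)).le
      refine (mul_le_mul' h1 (ciSup_le' fun p => ?_)).trans (mul_eq_self (aleph0_le_aleph 1)).le
      exact (le_aleph0_iff_set_countable.2 (countable_coincidence (hF _ p.1.1.2)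
        (hF _ p.1.2.2) p.2)).trans aleph0_lt_aleph_one.le
    have hex : ∃ z : ℂ, z ∉ ⋃ p : {p : F × F // p.1.1 ≠ p.2.1}, {z : ℂ | p.1.1.1 z = p.1.2.1 z} := by
      by_contra hcon
      push Not at hcon
      have h2 : (⋃ p : {p : F × F // p.1.1 ≠ p.2.1}, {z : ℂ | p.1.1.1 z = p.1.2.1 z}) = Set.univ :=
        eq_univ_of_forall hcon
      rw [h2, mk_univ, hC, hsucc] at hbad
      exact absurd hbad (not_le.2 (Order.lt_succ _))
    obtain ⟨z, hz⟩ := hex
    have h3 := hW z
    rw [mk_image_eq_of_injOn] at h3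
    · exact lt_irrefl _ h3
    · intro f hf g hg hfg
      by_contra hne
      exact hz (mem_iUnion.2 ⟨⟨(⟨f, hf⟩, ⟨g, hg⟩), hne⟩, hfg⟩)
  · rw [not_le] at hF1
    have hF2 : #F ≤ ℵ_ 2 := by
      have h1 : #F ≤ #(ℕ → ℂ) := by
        refine mk_le_of_injective (f := fun f : F => fun n => iteratedDeriv n f.1 0) ?_
        intro f g hfg
        exact Subtype.ext (eq_of_deriv (hF _ f.2) (hF _ g.2) 0 (fun n => congrFun hfg n))
      refine h1.trans ?_
      have h4 : #(ℕ → ℂ) = #ℂ := by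
        rw [← power_def, mk_complex, mk_nat, continuum_power_aleph0]
      rw [h4, hC]
    obtain ⟨Z, hZ⟩ := le_mk_iff_exists_set.1 (show (ℵ₁ : Cardinal) ≤ #ℂ by
      rw [hC, hsucc]; exact (Order.le_succ _))
    refine absurd (h hOCA F hF Z hZ fun z _ => ?_) (not_le.2 hF1)
    have h5 := (hW z).trans_le hF2
    rw [hsucc] at h5
    exact Order.lt_succ_iff.1 h5

end Pool.Agent.W910.WZ.T_A3
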