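import Pool.Agent.W910.WZ.BDefs

set_option autoImplicit false

open Set

namespace Pool.Agent.W910.WZ.T_B12

open Pool.Agent.W910.WZ.B

theorem main1 : S_B1 := by
  classical
  intro Y _ U B hS I S hm s l c hall k hks hkI
  by_contra hcon
  push Not at hcon
  have h1 : ∀ b : Bool, ∃ A ∈ S, (∀ O, Ar U (insert k s) l O → O ∈ A) ∧
      ∀ Q ∈ A, ∀ Q' ∈ A, ¬ Rel U B (insert k s) (Function.update c k b) Q Q' := by
    intro b
    have h2 := hcon b
    unfold Allowed at h2
    push Not at h2
    exact h2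
  choose A hA hA1 hA2 using h1
  have hA3 : A true ∩ A false ∈ S := hm.inter _ (hA true) _ (hA false)
  set A0 := A true ∩ A false with hA0
  obtain ⟨Q, hQ, Q', hQ', hR⟩ := hall _ (hm.two A0 hA3 k) (by
    intro O hO
    have hk : l k ∈ sec U A0 k O := by
      intro m hm'
      have h3 : Ar U (insert k s) l (O.update k m) := by
        intro j hj
        by_cases hjk : j = k
        · subst hjk
          simpa using hm'
        · rw [Finsupp.coe_update, Function.update_of_ne hjk]
          exact hO j ((Finset.mem_insert.1 hj).resolve_left hjk)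
      exact ⟨hA1 true _ h3, hA1 false _ h3⟩
    by_contra hno
    simp only [mem_ofPred_eq, not_exists, not_and, not_not] at hno
    apply hkI
    refine hm.single A0 hA3 k O (l k) ?_
    apply Subset.antisymm
    · intro y hy
      exact (hno (l k) hk y hy).symm
    · rintro _ rfl
      exact hk)
  obtain ⟨y1, hy1, y2, hy2, hne⟩ := hQ
  obtain ⟨y1', hy1', y2', hy2', hne'⟩ := hQ'
  obtain ⟨y, hy, y', hy', hyy⟩ : ∃ y ∈ sec U A0 k Q, ∃ y' ∈ sec U A0 k Q', y ≠ y' := by
    by_cases h : y1 = y1'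
    · refine ⟨y1, hy1, y2', hy2', ?_⟩
      rw [h]
      exact hne'
    · exact ⟨y1, hy1, y1', hy1', h⟩
  obtain ⟨b, hb⟩ := hS.cov y y' hyy
  have h2 := (hS.bop b).mem_nhds hb
  rw [mem_nhds_prod_iff'] at h2
  obtain ⟨V, V', hV, hyV, hV', hyV', hsub⟩ := h2
  obtain ⟨m, hm1, hm2⟩ := hS.bas V hV y hyV
  obtain ⟨m', hm1', hm2'⟩ := hS.bas V' hV' y' hyV'
  have hQA := hy m hm1
  have hQA' := hy' m' hm1'
  have hQb : Q.update k m ∈ A b := by cases b; exacts [hQA.2, hQA.1]
  have hQb' : Q'.update k m' ∈ A b := by cases b; exacts [hQA'.2, hQA'.1]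
  refine hA2 b _ hQb _ hQb' ?_
  intro j hj
  by_cases hjk : j = k
  · subst hjk
    intro z hz z' hz'
    rw [Function.update_self]
    simp only [Finsupp.coe_update, Function.update_self] at hz hz'
    exact hsub (mk_mem_prod (hm2 hz) (hm2' hz'))
  · rw [Function.update_of_ne hjk, Finsupp.coe_update, Function.update_of_ne hjk,
      Finsupp.coe_update, Function.update_of_ne hjk]
    exact hR j ((Finset.mem_insert.1 hj).resolve_left hjk)

theorem main2 : S_B2 := by
  classical
  intro Y _ U B I S hm s s' l l' c c' π hπ hall b hb hbox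
  let π' : Bx := Finsupp.onFinset s (fun k => if k ∈ s then π k else 0) (by
    intro k hk; by_contra hks; simp [hks] at hk)
  have hπ' : ∀ k ∈ s, π' k = π k := by
    intro k hk
    show (if k ∈ s then π k else 0) = π k
    rw [if_pos hk]
  obtain ⟨Q, hQ, Q', hQ', hR⟩ := hall _ (hm.ren b hb s π') (by
    intro O hO
    apply hbox
    intro k hk
    rw [ren_mem hk, hπ' k hk, (hπ k hk).2.1]
    exact hO _ (hπ k hk).1)
  refine ⟨_, hQ, _, hQ', ?_⟩
  intro k hk
  rw [ren_mem hk, ren_mem hk, hπ' k hk, (hπ k hk).2.2]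
  exact hR _ (hπ k hk).1

end Pool.Agent.W910.WZ.T_B12
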