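import Pool.Agent.W910.WZ.BDefs

set_option autoImplicit false

open Set Cardinal

/-!
# WZ-B3: blueprints can be extended to every larger model
-/

namespace Pool.Agent.W910.WZ.T_B3

open Pool.Agent.W910.WZ.B

variable {Y : Type} [TopologicalSpace Y] {U : ℕ → Set Y} {B : Bool → Set (Y × Y)}

/-- every colouring of the empty tuple is allowed -/
theorem allowed_empty (S : Set (Set Bx)) (l : ℕ → Y) (c : ℕ → Bool) :
    Allowed U B S ∅ l c := by
  intro b _ hall
  exact ⟨0, hall 0 (fun k hk => absurd hk (Finset.notMem_empty k)), 0,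
    hall 0 (fun k hk => absurd hk (Finset.notMem_empty k)),
    fun k hk => absurd hk (Finset.notMem_empty k)⟩

open Classical in
/-- the indices below `n` at which a new point occurs -/
noncomputable def nw (y : ℕ → Y) (n : ℕ) : Finset ℕ :=
  (Finset.range n).filter (fun k => ∀ j < k, y j ≠ y k)

omit [TopologicalSpace Y] in
theorem mem_nw {y : ℕ → Y} {n k : ℕ} : k ∈ nw y n ↔ k < n ∧ ∀ j < k, y j ≠ y k := by
  simp [nw]

/-- the colouring of all new points -/
theorem exists_colour (h1 : S_B1) (hs : Sett U B) {I : Set Y} {S : Set (Set Bx)} (hm : Mod U B I S)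
    (y : ℕ → Y) (hy : ∀ n, y n ∉ I) : ∃ c : ℕ → Bool, ∀ n, Allowed U B S (nw y n) y c := by
  classical
  have step : ∀ (n : ℕ) (c : {c : ℕ → Bool // Allowed U B S (nw y n) y c}),
      ∃ c' : {c : ℕ → Bool // Allowed U B S (nw y (n + 1)) y c}, ∀ k, k ≠ n → c'.1 k = c.1 k := by
    intro n c
    by_cases hn : ∀ j < n, y j ≠ y n
    · have hnot : n ∉ nw y n := fun h => lt_irrefl n (mem_nw.1 h).1
      obtain ⟨b, hb⟩ := h1 Y U B hs I S hm (nw y n) y c.1 c.2 n hnot (hy n)
      have he : nw y (n + 1) = insert n (nw y n) := by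
        ext k
        rw [Finset.mem_insert, mem_nw, mem_nw]
        constructor
        · rintro ⟨hk, hk2⟩
          rcases Nat.lt_succ_iff_lt_or_eq.1 hk with h | h
          · exact Or.inr ⟨h, hk2⟩
          · exact Or.inl h
        · rintro (h | ⟨h, hk2⟩)
          · subst h
            exact ⟨Nat.lt_succ_self _, hn⟩
          · exact ⟨Nat.lt_succ_of_lt h, hk2⟩
      refine ⟨⟨Function.update c.1 n b, ?_⟩, ?_⟩
      · rw [he]; exact hb
      · intro k hk
        exact Function.update_of_ne hk _ _
    · have he : nw y (n + 1) = nw y n := by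
        ext k
        rw [mem_nw, mem_nw]
        constructor
        · rintro ⟨hk, hk2⟩
          rcases Nat.lt_succ_iff_lt_or_eq.1 hk with h | h
          · exact ⟨h, hk2⟩
          · subst h; exact absurd hk2 hn
        · rintro ⟨h, hk2⟩
          exact ⟨Nat.lt_succ_of_lt h, hk2⟩
      refine ⟨⟨c.1, ?_⟩, fun k _ => rfl⟩
      rw [he]; exact c.2
  choose f hf using step
  have h0 : Allowed U B S (nw y 0) y (fun _ => true) := by
    have : nw y 0 = ∅ := by
      ext k
      rw [mem_nw]
      simp
    rw [this]
    exact allowed_empty S y _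
  let sq : ∀ n : ℕ, {c : ℕ → Bool // Allowed U B S (nw y n) y c} := fun n =>
    Nat.rec ⟨fun _ => true, h0⟩ (fun n c => f n c) n
  have hsq : ∀ n, sq (n + 1) = f n (sq n) := fun n => rfl
  refine ⟨fun k => (sq (k + 1)).1 k, ?_⟩
  have hag : ∀ n, ∀ k < n, (sq n).1 k = (sq (k + 1)).1 k := by
    intro n
    induction n with
    | zero => intro k hk; omega
    | succ n ih =>
      intro k hk
      by_cases hkn : k = n
      · subst hkn; rfl
      · rw [hsq, hf n (sq n) k hkn]
        exact ih k (by omega)
  intro n
  exact (sq n).2.congr (fun k hk => hag n k (mem_nw.1 hk).1)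

theorem main (h1 : S_B1) (h2 : S_B2) : S_B3 := by
  classical
  intro Y _ U B hs t I S hm hI hS
  by_cases hD : (I \ t.I).Nonempty
  · have hDc : (I \ t.I).Countable := hm.cI.mono diff_subset
    obtain ⟨y, hy⟩ := hDc.exists_eq_range hD
    have hyI : ∀ n, y n ∈ I ∧ y n ∉ t.I := by
      intro n
      have : y n ∈ I \ t.I := by rw [hy]; exact mem_range_self n
      exact this
    obtain ⟨c, hc⟩ := exists_colour h1 hs t.mod y (fun n => (hyI n).2)
    let H : Set Y := t.H ∪ {z | ∃ k, (∀ j < k, y j ≠ y k) ∧ c k = true ∧ y k = z}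
    have hHI : H ⊆ I := by
      rintro z (hz | ⟨k, _, _, rfl⟩)
      · exact hI (t.sub hz)
      · exact (hyI k).1
    refine ⟨⟨I, H, S, hHI, hm⟩, ?_, rfl, rfl⟩
    rw [Bp.le_def]
    refine ⟨hI, hS, ?_, ?_⟩
    · intro z hz
      constructor
      · rintro (h | ⟨k, _, _, rfl⟩)
        · exact h
        · exact absurd hz (hyI k).2
      · intro h
        exact Or.inl h
    · intro s l _ hl
      have hex : ∀ k ∈ s, ∃ j, y j = l k := by
        intro k hk
        have : l k ∈ I \ t.I := hl k hk
        rw [hy] at this
        exact this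
      let π : ℕ → ℕ := fun k => if h : ∃ j, y j = l k then Nat.find h else 0
      have hπ1 : ∀ k ∈ s, y (π k) = l k := by
        intro k hk
        have h := hex k hk
        have e : π k = Nat.find h := dif_pos h
        rw [e]
        exact Nat.find_spec h
      have hπ2 : ∀ k ∈ s, ∀ j < π k, y j ≠ l k := by
        intro k hk j hj
        have h := hex k hk
        have e : π k = Nat.find h := dif_pos h
        rw [e] at hj
        exact Nat.find_min h hj
      refine h2 Y U B t.I t.S t.mod s (nw y (s.sup π + 1)) l y (col H l) c π ?_ (hc _)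
      intro k hk
      refine ⟨?_, (hπ1 k hk).symm, ?_⟩
      · rw [mem_nw]
        refine ⟨Nat.lt_succ_of_le (Finset.le_sup (f := π) hk), ?_⟩
        intro j hj
        rw [hπ1 k hk]
        exact hπ2 k hk j hj
      · have hiff : l k ∈ H ↔ c (π k) = true := by
          constructor
          · rintro (h | ⟨k', hk', hck', hyk'⟩)
            · exact absurd (t.sub h) (hl k hk).2
            · have e : k' = π k := by
                rcases lt_trichotomy k' (π k) with h | h | h
                · exact absurd hyk' (hπ2 k hk k' h)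
                · exact h
                · exact absurd ((hπ1 k hk).trans hyk'.symm) (hk' (π k) h)
              rw [← e]; exact hck'
          · intro h
            refine Or.inr ⟨π k, ?_, h, hπ1 k hk⟩
            intro j hj
            rw [hπ1 k hk]
            exact hπ2 k hk j hj
        unfold col
        by_cases hcl : l k ∈ H
        · rw [hiff.1 hcl]
          simp [hcl]
        · have : c (π k) = false := by
            rcases Bool.eq_false_or_eq_true (c (π k)) with h | h
            · exact absurd (hiff.2 h) hcl
            · exact h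
          rw [this]
          simp [hcl]
  · have hsub : I ⊆ t.I := by
      intro z hz
      by_contra h
      exact hD ⟨z, hz, h⟩
    refine ⟨⟨I, t.H, S, t.sub.trans hI, hm⟩, ?_, rfl, rfl⟩
    rw [Bp.le_def]
    refine ⟨hI, hS, fun _ _ => Iff.rfl, ?_⟩
    intro s l _ hl
    have hs' : s = ∅ := by
      rw [Finset.eq_empty_iff_forall_notMem]
      intro k hk
      exact (hl k hk).2 (hsub (hl k hk).1)
    rw [hs']
    exact allowed_empty _ _ _

end Pool.Agent.W910.WZ.T_B3
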