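import Pool.Agent.W910.WZ.BDefs
import Pool.Agent.Helper647.FU.J8

set_option autoImplicit false

open Set Cardinal

namespace Pool.Agent.W910.WZ.T_B4

open Pool.Agent.W910.WZ Pool.Agent.W910.WZ.B
open Pool.Agent.Helper647.FU (ClosedUnder)

section

variable {Y : Type} [TopologicalSpace Y] (U : ℕ → Set Y) (B : Bool → Set (Y × Y))

/-- extension of colours on `s` -/
noncomputable def ext (s : Finset ℕ) (c : s → Bool) (k : ℕ) : Bool :=
  if h : k ∈ s then c ⟨k, h⟩ else false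

def G1 (b : Set Bx) (L : List (Y ⊕ Set Bx)) : Set (Y ⊕ Set Bx) :=
  (fun b' : Set Bx => (Sum.inr (b ∩ b') : Y ⊕ Set Bx)) '' {b' | Sum.inr b' ∈ L}

def G2 (b : Set Bx) : Set (Y ⊕ Set Bx) :=
  Set.range fun k : ℕ =>
    (Sum.inr {O : Bx | ∃ y ∈ sec U b k O, ∃ y' ∈ sec U b k O, y ≠ y'} : Y ⊕ Set Bx)

def G3 (b : Set Bx) : Set (Y ⊕ Set Bx) :=
  ⋃ k : ℕ, ⋃ O : Bx, {x | ∃ y, sec U b k O = {y} ∧ x = Sum.inl y}

def G4 (b : Set Bx) (L : List (Y ⊕ Set Bx)) : Set (Y ⊕ Set Bx) :=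
  ⋃ s : Finset ℕ, Set.range fun φ : s → {y : Y // (Sum.inl y : Y ⊕ Set Bx) ∈ L} =>
    (Sum.inr {O : Bx | ∀ O1 : Bx, (∀ k : s, (φ k).1 ∈ U (O1 k)) → comb s O1 O ∈ b} : Y ⊕ Set Bx)

def G5 (b : Set Bx) : Set (Y ⊕ Set Bx) :=
  Set.range fun t : Finset ℕ × Bx × Bx =>
    (Sum.inr {O1 : Bx | comb t.1 O1 t.2.1 ∈ b ∧ comb t.1 O1 t.2.2 ∈ b} : Y ⊕ Set Bx)

def G6 (b : Set Bx) : Set (Y ⊕ Set Bx) :=
  ⋃ s : Finset ℕ, Set.range fun c : s → Bool =>
    (Sum.inr {Q ∈ b | ∀ Q' ∈ b, ¬ Rel U B s (ext s c) Q Q'} : Y ⊕ Set Bx)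

def G7 (b : Set Bx) : Set (Y ⊕ Set Bx) :=
  Set.range fun t : Finset ℕ × Bx => (Sum.inr {O : Bx | ren t.1 t.2 O ∈ b} : Y ⊕ Set Bx)

def GG (b : Set Bx) (L : List (Y ⊕ Set Bx)) : Set (Y ⊕ Set Bx) :=
  G1 b L ∪ (G2 U b ∪ (G3 U b ∪ (G4 U b L ∪ (G5 b ∪ (G6 U B b ∪ G7 b)))))

def FF (L : List (Y ⊕ Set Bx)) : Set (Y ⊕ Set Bx) :=
  ⋃ b ∈ {b : Set Bx | (Sum.inr b : Y ⊕ Set Bx) ∈ L}, GG U B b L

omit [TopologicalSpace Y] in
theorem fin_r (L : List (Y ⊕ Set Bx)) : {b : Set Bx | (Sum.inr b : Y ⊕ Set Bx) ∈ L}.Finite :=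
  (List.finite_toSet L).preimage Sum.inr_injective.injOn

omit [TopologicalSpace Y] in
theorem fin_l (L : List (Y ⊕ Set Bx)) : {y : Y | (Sum.inl y : Y ⊕ Set Bx) ∈ L}.Finite :=
  (List.finite_toSet L).preimage Sum.inl_injective.injOn

omit [TopologicalSpace Y] in
theorem GG_countable (b : Set Bx) (L : List (Y ⊕ Set Bx)) : (GG U B b L).Countable := by
  refine Set.Countable.union ?_ (Set.Countable.union ?_ (Set.Countable.union ?_
    (Set.Countable.union ?_ (Set.Countable.union ?_ (Set.Countable.union ?_ ?_)))))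
  · exact ((fin_r L).countable).image _
  · exact Set.countable_range _
  · refine Set.countable_iUnion fun k => Set.countable_iUnion fun O => ?_
    refine Set.Subsingleton.countable ?_
    rintro x ⟨y, hy, rfl⟩ x' ⟨y', hy', rfl⟩
    rw [hy] at hy'
    rw [Set.singleton_eq_singleton_iff.1 hy']
  · refine Set.countable_iUnion fun s => ?_
    have : Finite {y : Y // (Sum.inl y : Y ⊕ Set Bx) ∈ L} := (fin_l L).to_subtype
    exact Set.countable_range _
  · exact Set.countable_range _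
  · refine Set.countable_iUnion fun s => ?_
    exact Set.countable_range _
  · exact Set.countable_range _

omit [TopologicalSpace Y] in
theorem FF_countable (L : List (Y ⊕ Set Bx)) : (FF U B L).Countable :=
  (fin_r L).countable.biUnion fun b _ => GG_countable U B b L

omit [TopologicalSpace Y] in
theorem mem_FF {b : Set Bx} {L : List (Y ⊕ Set Bx)} (hb : (Sum.inr b : Y ⊕ Set Bx) ∈ L)
    {x : Y ⊕ Set Bx} (hx : x ∈ GG U B b L) : x ∈ FF U B L :=
  Set.mem_biUnion (show b ∈ {b : Set Bx | (Sum.inr b : Y ⊕ Set Bx) ∈ L} from hb) hx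

end

theorem main : B.S_B4 := by
  intro Y _ U B _ I0 S0 hI0 hS0
  obtain ⟨N, hN0, hNc, hN⟩ := Pool.Agent.Helper647.FU.J8.closed_exists (FF U B) (FF_countable U B)
    (Sum.inl '' I0 ∪ Sum.inr '' S0) ((hI0.image _).union (hS0.image _))
  have key : ∀ (b : Set Bx) (L : List (Y ⊕ Set Bx)), (Sum.inr b : Y ⊕ Set Bx) ∈ L →
      (∀ a ∈ L, a ∈ N) → GG U B b L ⊆ N := fun b L hb hL x hx => hN L hL (mem_FF U B hb hx)
  have key1 : ∀ b : Set Bx, (Sum.inr b : Y ⊕ Set Bx) ∈ N → GG U B b [Sum.inr b] ⊆ N :=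
    fun b hb => key b [Sum.inr b] (by simp) (by simpa using hb)
  refine ⟨{y | Sum.inl y ∈ N}, {b | Sum.inr b ∈ N}, ?_, ?_, ?_⟩
  · intro y hy
    exact hN0 (Or.inl ⟨y, hy, rfl⟩)
  · intro b hb
    exact hN0 (Or.inr ⟨b, hb, rfl⟩)
  · refine ⟨?_, ?_, ?_, ?_, ?_, ?_, ?_, ?_, ?_⟩
    · exact hNc.preimage_of_injOn Sum.inl_injective.injOn
    · exact hNc.preimage_of_injOn Sum.inr_injective.injOn
    · intro b hb b' hb'
      refine key b [Sum.inr b, Sum.inr b'] (by simp) ?_ (Or.inl ⟨b', by simp, rfl⟩)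
      intro a ha
      simp only [List.mem_cons, List.not_mem_nil, or_false] at ha
      rcases ha with rfl | rfl
      · exact hb
      · exact hb'
    · intro b hb k
      exact key1 b hb (Or.inr (Or.inl ⟨k, rfl⟩))
    · intro b hb k O y hy
      exact key1 b hb (Or.inr (Or.inr (Or.inl
        (Set.mem_iUnion.2 ⟨k, Set.mem_iUnion.2 ⟨O, y, hy, rfl⟩⟩))))
    · intro b hb s l hl
      set L : List (Y ⊕ Set Bx) := Sum.inr b :: s.toList.map (fun k => Sum.inl (l k)) with hL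
      have hLN : ∀ a ∈ L, a ∈ N := by
        intro a ha
        rw [hL, List.mem_cons] at ha
        rcases ha with rfl | ha
        · exact hb
        · obtain ⟨k, hk, rfl⟩ := List.mem_map.1 ha
          exact hl k (Finset.mem_toList.1 hk)
      have hmem : ∀ k ∈ s, (Sum.inl (l k) : Y ⊕ Set Bx) ∈ L := fun k hk =>
        List.mem_cons_of_mem _ (List.mem_map.2 ⟨k, Finset.mem_toList.2 hk, rfl⟩)
      refine key b L List.mem_cons_self hLN (Or.inr (Or.inr (Or.inr (Or.inl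
        (Set.mem_iUnion.2 ⟨s, fun k => ⟨l k.1, hmem k.1 k.2⟩, ?_⟩)))))
      refine congrArg Sum.inr ?_
      ext O
      constructor
      · intro h O1 hO1
        exact h O1 fun k => hO1 k.1 k.2
      · intro h O1 hO1
        exact h O1 fun k hk => hO1 ⟨k, hk⟩
    · intro b hb s O O'
      exact key1 b hb (Or.inr (Or.inr (Or.inr (Or.inr (Or.inl ⟨(s, O, O'), rfl⟩)))))
    · intro b hb s c
      refine key1 b hb (Or.inr (Or.inr (Or.inr (Or.inr (Or.inr (Or.inl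
        (Set.mem_iUnion.2 ⟨s, fun k => c k.1, ?_⟩)))))))
      refine congrArg Sum.inr ?_
      ext Q
      have hrel : ∀ Q', Rel U B s (ext s fun k => c k.1) Q Q' ↔ Rel U B s c Q Q' := by
        intro Q'
        constructor
        · intro h k hk y hy y' hy'
          have := h k hk y hy y' hy'
          rwa [ext, dif_pos hk] at this
        · intro h k hk y hy y' hy'
          rw [ext, dif_pos hk]
          exact h k hk y hy y' hy'
      constructor
      · rintro ⟨h1, h2⟩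
        exact ⟨h1, fun Q' hQ' hR => h2 Q' hQ' ((hrel Q').2 hR)⟩
      · rintro ⟨h1, h2⟩
        exact ⟨h1, fun Q' hQ' hR => h2 Q' hQ' ((hrel Q').1 hR)⟩
    · intro b hb s π
      exact key1 b hb (Or.inr (Or.inr (Or.inr (Or.inr (Or.inr (Or.inr ⟨(s, π), rfl⟩))))))

end Pool.Agent.W910.WZ.T_B4
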