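import Pool.Agent.W910.WZ.BDefs

set_option autoImplicit false

open Set Cardinal

/-!
# WZ-B5: limits of blueprints
-/

namespace Pool.Agent.W910.WZ.T_B5

open Pool.Agent.W910.WZ.B

/-- finitely many points of an increasing union lie in one member -/
theorem fin_union {A : Type} {T : ℕ → Set A} (hT : Monotone T) (s : Finset ℕ) (l : ℕ → A) (n : ℕ)
    (h : ∀ k ∈ s, l k ∈ ⋃ m, T m) : ∃ N, n ≤ N ∧ ∀ k ∈ s, l k ∈ T N := by
  classical
  induction s using Finset.induction_on with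
  | empty => exact ⟨n, le_rfl, by simp⟩
  | insert a s _ ih =>
    obtain ⟨N, hN, hN2⟩ := ih (fun k hk => h k (Finset.mem_insert_of_mem hk))
    obtain ⟨M, hM⟩ := mem_iUnion.1 (h a (Finset.mem_insert_self _ _))
    refine ⟨max N M, hN.trans (le_max_left _ _), ?_⟩
    intro k hk
    rcases Finset.mem_insert.1 hk with rfl | h'
    · exact hT (le_max_right _ _) hM
    · exact hT (le_max_left _ _) (hN2 k h')

theorem main : S_B5 := by
  intro Y _ U B t ht
  have hanti : Antitone t := antitone_nat_of_succ_le ht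
  have hI : Monotone (fun n => (t n).I) := fun a b hab => (hanti hab).1
  have hS : Monotone (fun n => (t n).S) := fun a b hab => (hanti hab).2.1
  have hmod : Mod U B (⋃ n, (t n).I) (⋃ n, (t n).S) := by
    refine ⟨?_, ?_, ?_, ?_, ?_, ?_, ?_, ?_, ?_⟩
    · exact countable_iUnion fun n => (t n).mod.cI
    · exact countable_iUnion fun n => (t n).mod.cS
    · intro b hb b' hb'
      obtain ⟨n, hn⟩ := mem_iUnion.1 hb
      obtain ⟨m, hm⟩ := mem_iUnion.1 hb'
      exact mem_iUnion.2 ⟨max n m, (t (max n m)).mod.inter b (hS (le_max_left _ _) hn) b'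
        (hS (le_max_right _ _) hm)⟩
    · intro b hb k
      obtain ⟨n, hn⟩ := mem_iUnion.1 hb
      exact mem_iUnion.2 ⟨n, (t n).mod.two b hn k⟩
    · intro b hb k O y hy
      obtain ⟨n, hn⟩ := mem_iUnion.1 hb
      exact mem_iUnion.2 ⟨n, (t n).mod.single b hn k O y hy⟩
    · intro b hb s l hl
      obtain ⟨n, hn⟩ := mem_iUnion.1 hb
      obtain ⟨N, hN, hN2⟩ := fin_union hI s l n hl
      exact mem_iUnion.2 ⟨N, (t N).mod.low b (hS hN hn) s l hN2⟩
    · intro b hb s O O'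
      obtain ⟨n, hn⟩ := mem_iUnion.1 hb
      exact mem_iUnion.2 ⟨n, (t n).mod.pair b hn s O O'⟩
    · intro b hb s c
      obtain ⟨n, hn⟩ := mem_iUnion.1 hb
      exact mem_iUnion.2 ⟨n, (t n).mod.irr b hn s c⟩
    · intro b hb s π
      obtain ⟨n, hn⟩ := mem_iUnion.1 hb
      exact mem_iUnion.2 ⟨n, (t n).mod.ren b hn s π⟩
  have hH : ∀ n, ∀ y ∈ (t n).I, (y ∈ ⋃ n, (t n).H) ↔ y ∈ (t n).H := by
    intro n y hy
    constructor
    · intro h
      obtain ⟨m, hm⟩ := mem_iUnion.1 h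
      have h1 : y ∈ (t (max n m)).H :=
        ((hanti (le_max_right n m)).2.2.1 y ((t m).sub hm)).2 hm
      exact ((hanti (le_max_left n m)).2.2.1 y hy).1 h1
    · intro h
      exact mem_iUnion.2 ⟨n, h⟩
  refine ⟨⟨⋃ n, (t n).I, ⋃ n, (t n).H, ⋃ n, (t n).S,
    iUnion_mono fun n => (t n).sub, hmod⟩, ?_, rfl, rfl⟩
  intro n
  rw [Bp.le_def]
  refine ⟨subset_iUnion (fun n => (t n).I) n, subset_iUnion (fun n => (t n).S) n, hH n, ?_⟩
  intro s l hinj hl
  obtain ⟨N, hN, hN2⟩ := fin_union hI s l n (fun k hk => (hl k hk).1)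
  refine ((hanti hN).2.2.2 s l hinj (fun k hk => ⟨hN2 k hk, (hl k hk).2⟩)).congr ?_
  intro k hk
  exact col_congr (hH N _ (hN2 k hk)).symm

end Pool.Agent.W910.WZ.T_B5
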