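import Pool.Agent.W910.WZ.BDefs

set_option autoImplicit false

open Set

namespace Pool.Agent.W910.WZ.T_B6

open Pool.Agent.W910.WZ.B

theorem main (h3 : S_B3) (h4 : S_B4) (h5 : S_B5) : S_B6 := by
  classical
  intro Y _ U B hS D w s c v O0 t
  obtain ⟨En, hEn⟩ := exists_surjective_nat Bx
  -- one step
  have hstep : ∀ (n : ℕ) (τ : Bp U B), ∃ (τ' : Bp U B) (r : Pr U B), τ' ≤ τ ∧
      (((∃ r, Typ D w s c v O0 (En n) τ r) ∧ Typ D w s c v O0 (En n) τ r ∧ τ' = r.t) ∨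
        ((¬ ∃ r, Typ D w s c v O0 (En n) τ r))) := by
    intro n τ
    by_cases h : ∃ r, Typ D w s c v O0 (En n) τ r
    · obtain ⟨r, hr⟩ := h
      exact ⟨r.t, r, hr.2.1, Or.inl ⟨⟨r, hr⟩, hr, rfl⟩⟩
    · exact ⟨τ, ⟨τ, ∅, ⟨fun _ h => absurd h (Finset.notMem_empty _),
        fun _ h => absurd h (Finset.notMem_empty _),
        fun _ h => absurd h (Finset.notMem_empty _)⟩⟩, le_rfl, Or.inr h⟩
  choose nx rr hnx1 hnx2 using hstep
  let τ : ℕ → Bp U B := fun n => Nat.rec t (fun n τ => nx n τ) n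
  have hτ0 : τ 0 = t := rfl
  have hτs : ∀ n, τ (n + 1) = nx n (τ n) := fun n => rfl
  have hle : ∀ n, τ (n + 1) ≤ τ n := fun n => hnx1 n (τ n)
  have hanti : Antitone τ := antitone_nat_of_succ_le hle
  obtain ⟨σ, hσ, hσI, hσS⟩ := h5 Y U B τ hle
  set b : Set Bx := {O | ∃ n, En n = O ∧ ∃ r, Typ D w s c v O0 (En n) (τ n) r} with hb
  obtain ⟨I, S, hI, hSS, hmod⟩ := h4 Y U B hS σ.I (insert b σ.S) σ.mod.cI (σ.mod.cS.insert _)
  obtain ⟨t', ht', htI, htS⟩ := h3 Y U B hS σ I S hmod hI ((subset_insert _ _).trans hSS)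
  have hg : ∀ O : Bx, ∃ g : Pr U B, O ∈ b → Typ D w s c v O0 O t g ∧ t' ≤ g.t := by
    intro O
    by_cases hO : O ∈ b
    · obtain ⟨n, hn, hr⟩ := hO
      refine ⟨rr n (τ n), fun _ => ?_⟩
      rcases hnx2 n (τ n) with ⟨_, h6, h7⟩ | h6
      · rw [← hn]
        refine ⟨⟨h6.1, h6.2.1.trans (hanti (Nat.zero_le n)), h6.2.2⟩, ?_⟩
        rw [← h7, ← hτs]
        exact ht'.trans (hσ (n + 1))
      · exact absurd hr h6
    · exact ⟨rr 0 t, fun h => absurd h hO⟩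
  choose g hg using hg
  refine ⟨t', b, g, ht'.trans (hσ 0), ?_, fun O hO => hg O hO, ?_⟩
  · rw [htS]
    exact hSS (mem_insert _ _)
  · intro O hO r hr
    obtain ⟨n, hn⟩ := hEn O
    apply hO
    refine ⟨n, hn, r, ?_⟩
    rw [hn]
    exact ⟨hr.1, hr.2.1.trans (ht'.trans (hσ n)), hr.2.2⟩

end Pool.Agent.W910.WZ.T_B6
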