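import Pool.Agent.W910.WZ.BDefs
import Pool.Agent.Helper647.FU.J8

set_option autoImplicit false

open Set

namespace Pool.Agent.W910.WZ.T_B7

open Pool.Agent.W910.WZ.B
open Pool.Agent.Helper647.FU (ClosedUnder Proper PFA GenericOver Compat)

theorem countable_fin {α β : Type} [Countable β] {C : Set α} (hC : C.Countable) :
    {w : Finset (α × β) | ∀ q ∈ w, q.1 ∈ C}.Countable := by
  have h1 : {p : α × β | p.1 ∈ C}.Countable := by
    have : {p : α × β | p.1 ∈ C} = C ×ˢ (univ : Set β) := by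
      ext p; simp
    rw [this]
    exact hC.prod countable_univ
  have h2 := Set.countable_ofPred_finite_subset h1
  refine (h2.preimage_of_injOn (f := fun w : Finset (α × β) => (w : Set (α × β)))
    (fun a _ b _ h => Finset.coe_injective h)).mono ?_
  intro w hw
  exact ⟨w.finite_toSet, fun q hq => hw q (Finset.mem_coe.1 hq)⟩

section

variable {Y : Type} [TopologicalSpace Y] {U : ℕ → Set Y} {B : Bool → Set (Y × Y)}

/-- a condition without finite part -/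
def bare (t : Bp U B) : Pr U B :=
  ⟨t, ∅, ⟨fun _ h => absurd h (Finset.notMem_empty _), fun _ h => absurd h (Finset.notMem_empty _),
    fun _ h => absurd h (Finset.notMem_empty _)⟩⟩

theorem Val.mono {t t' : Bp U B} (h : t' ≤ t) {w : Finset (Y × ℕ)} (hw : Val t w) : Val t' w := by
  refine ⟨fun q hq => h.1 (hw.dom q hq), hw.fn, fun q hq q' hq' h2 hne => ?_⟩
  have h3 := hw.hom q hq q' hq' h2 hne
  have h4 := h.2.2.1 _ (hw.dom q hq)
  have h5 := h.2.2.1 _ (hw.dom q' hq')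
  refine ⟨h4.trans (h3.1.trans h5.symm), ?_⟩
  have h6 : (@decide (q.1 ∈ t'.H) (Classical.dec _)) = @decide (q.1 ∈ t.H) (Classical.dec _) := by
    by_cases h7 : q.1 ∈ t.H
    · have h8 := h4.2 h7
      simp [h7, h8]
    · have h8 : q.1 ∉ t'.H := fun h9 => h7 (h4.1 h9)
      simp [h7, h8]
  rw [h6]
  exact h3.2

/-- the parameters of a decision -/
abbrev Par (U : ℕ → Set Y) (B : Bool → Set (Y × Y)) : Type :=
  Set (Pr U B) × Finset (Y × ℕ) × Finset ℕ × Bx × Bx × Bx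

/-- the closure function -/
def FF (T : Par U B → Bp U B → Bp U B) (g : Par U B → Bp U B → Bx → Pr U B)
    (L : List (Pr U B ⊕ Set (Pr U B) ⊕ Y)) : Set (Pr U B ⊕ Set (Pr U B) ⊕ Y) :=
  ⋃ p ∈ {p : Pr U B | Sum.inl p ∈ L}, (({Sum.inl (bare p.t)} ∪
    ((fun y => Sum.inr (Sum.inr y)) '' p.t.I)) ∪
    ⋃ D ∈ {D : Set (Pr U B) | Sum.inr (Sum.inl D) ∈ L},
      ⋃ w ∈ {w : Finset (Y × ℕ) | ∀ q ∈ w, q.1 ∈ {y : Y | Sum.inr (Sum.inr y) ∈ L}},
        ⋃ u : Finset ℕ × Bx × Bx × Bx, ({Sum.inl (bare (T (D, w, u) p.t))} ∪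
          range (fun O => Sum.inl (g (D, w, u) p.t O))))

theorem list_countable {α β : Type} (L : List α) (f : β → α) (hf : Function.Injective f) :
    {b : β | f b ∈ L}.Countable := by
  have : {b : β | f b ∈ L} = f ⁻¹' {a | a ∈ L} := rfl
  rw [this]
  exact (L.finite_toSet.countable).preimage_of_injOn hf.injOn

theorem FF_countable (T : Par U B → Bp U B → Bp U B) (g : Par U B → Bp U B → Bx → Pr U B)
    (L : List (Pr U B ⊕ Set (Pr U B) ⊕ Y)) : (FF T g L).Countable := by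
  unfold FF
  refine (list_countable L _ Sum.inl_injective).biUnion fun p _ => ?_
  refine ((countable_singleton _).union (p.t.mod.cI.image _)).union ?_
  refine (list_countable L (fun D => Sum.inr (Sum.inl D))
    (Sum.inr_injective.comp Sum.inl_injective)).biUnion fun D _ => ?_
  refine (countable_fin (list_countable L (fun D => Sum.inr (Sum.inr D))
    (Sum.inr_injective.comp Sum.inr_injective))).biUnion fun w _ => ?_
  refine countable_iUnion fun u => ?_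
  exact (countable_singleton _).union (countable_range _)

theorem FF1 {T : Par U B → Bp U B → Bp U B} {g : Par U B → Bp U B → Bx → Pr U B}
    {N : Set (Pr U B ⊕ Set (Pr U B) ⊕ Y)} (hN : ClosedUnder (FF T g) N) {p : Pr U B}
    (hp : Sum.inl p ∈ N) : Sum.inl (bare p.t) ∈ N ∧ ∀ y ∈ p.t.I, Sum.inr (Sum.inr y) ∈ N := by
  have h1 := hN [Sum.inl p] (by simpa using hp)
  constructor
  · apply h1
    unfold FF
    refine mem_iUnion₂.2 ⟨p, by simp, ?_⟩
    exact Or.inl (Or.inl rfl)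
  · intro y hy
    apply h1
    unfold FF
    refine mem_iUnion₂.2 ⟨p, by simp, ?_⟩
    exact Or.inl (Or.inr ⟨y, hy, rfl⟩)

theorem FF2 {T : Par U B → Bp U B → Bp U B} {g : Par U B → Bp U B → Bx → Pr U B}
    {N : Set (Pr U B ⊕ Set (Pr U B) ⊕ Y)} (hN : ClosedUnder (FF T g) N) {t : Bp U B}
    (hp : Sum.inl (bare t) ∈ N) {D : Set (Pr U B)} (hD : Sum.inr (Sum.inl D) ∈ N)
    {w : Finset (Y × ℕ)} (hw : ∀ q ∈ w, Sum.inr (Sum.inr q.1) ∈ N)
    (u : Finset ℕ × Bx × Bx × Bx) : Sum.inl (bare (T (D, w, u) t)) ∈ N ∧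
      ∀ O, Sum.inl (g (D, w, u) t O) ∈ N := by
  have h1 := hN (Sum.inl (bare t) :: Sum.inr (Sum.inl D) ::
    (w.toList.map fun q => Sum.inr (Sum.inr q.1))) (by
      intro a ha
      rcases List.mem_cons.1 ha with rfl | ha
      · exact hp
      rcases List.mem_cons.1 ha with rfl | ha
      · exact hD
      obtain ⟨q, hq, rfl⟩ := List.mem_map.1 ha
      exact hw q (Finset.mem_toList.1 hq))
  have h2 : ∀ x, x ∈ ({Sum.inl (bare (T (D, w, u) t))} ∪
          range (fun O => Sum.inl (g (D, w, u) t O)) :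
          Set (Pr U B ⊕ Set (Pr U B) ⊕ Y)) → x ∈ N := by
    intro x hx
    apply h1
    unfold FF
    refine mem_iUnion₂.2 ⟨bare t, by simp, Or.inr ?_⟩
    refine mem_iUnion₂.2 ⟨D, by simp, ?_⟩
    refine mem_iUnion₂.2 ⟨w, ?_, mem_iUnion.2 ⟨u, hx⟩⟩
    intro q hq
    refine List.mem_cons_of_mem _ (List.mem_cons_of_mem _ (List.mem_map.2 ⟨q, ?_, rfl⟩))
    exact Finset.mem_toList.2 hq
  exact ⟨h2 _ (Or.inl rfl), fun O => h2 _ (Or.inr ⟨O, rfl⟩)⟩

/-- a box around the points with values `v` whose basic sets are related where the values agree -/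
theorem exists_O0 (hS : Sett U B) (s : Finset ℕ) (l : ℕ → Y) (c : ℕ → Bool) (v : ℕ → ℕ)
    (h : ∀ k ∈ s, ∀ k' ∈ s, k ≠ k' → v k = v k' → (l k, l k') ∈ B (c k)) :
    ∃ O0 : Bx, (∀ k ∈ s, l k ∈ U (O0 k)) ∧ ∀ k ∈ s, ∀ k' ∈ s, k ≠ k' → v k = v k' →
      ∀ y ∈ U (O0 k), ∀ y' ∈ U (O0 k'), (y, y') ∈ B (c k) := by
  classical
  -- neighbourhoods for every pair
  have h1 : ∀ k k' : ℕ, ∃ V V' : Set Y, IsOpen V ∧ IsOpen V' ∧ (k ∈ s → l k ∈ V) ∧
      (k' ∈ s → l k' ∈ V') ∧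
      (k ∈ s → k' ∈ s → k ≠ k' → v k = v k' → ∀ y ∈ V, ∀ y' ∈ V', (y, y') ∈ B (c k)) := by
    intro k k'
    by_cases hh : k ∈ s ∧ k' ∈ s ∧ k ≠ k' ∧ v k = v k'
    · have h2 := (hS.bop (c k)).mem_nhds (h k hh.1 k' hh.2.1 hh.2.2.1 hh.2.2.2)
      rw [mem_nhds_prod_iff'] at h2
      obtain ⟨V, V', hV, hlV, hV', hlV', hsub⟩ := h2
      exact ⟨V, V', hV, hV', fun _ => hlV, fun _ => hlV', fun _ _ _ _ y hy y' hy' =>
        hsub (mk_mem_prod hy hy')⟩
    · exact ⟨univ, univ, isOpen_univ, isOpen_univ, fun _ => trivial, fun _ => trivial,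
        fun a b c d => absurd ⟨a, b, c, d⟩ hh⟩
  choose V V' hV hV' hlV hlV' hB using h1
  have h3 : ∀ k, ∃ m, k ∈ s → l k ∈ U m ∧ (∀ k' ∈ s, U m ⊆ V k k') ∧ ∀ k' ∈ s, U m ⊆ V' k' k := by
    intro k
    by_cases hk : k ∈ s
    · have ho : IsOpen ((⋂ k' ∈ s, V k k') ∩ ⋂ k' ∈ s, V' k' k) :=
        (isOpen_biInter_finset fun k' _ => hV k k').inter
          (isOpen_biInter_finset fun k' _ => hV' k' k)
      obtain ⟨m, hm1, hm2⟩ := hS.bas _ ho (l k)
        ⟨mem_iInter₂.2 fun k' _ => hlV k k' hk, mem_iInter₂.2 fun k' _ => hlV' k' k hk⟩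
      refine ⟨m, fun _ => ⟨hm1, fun k' hk' y hy => ?_, fun k' hk' y hy => ?_⟩⟩
      · exact mem_iInter₂.1 (hm2 hy).1 k' hk'
      · exact mem_iInter₂.1 (hm2 hy).2 k' hk'
    · exact ⟨0, fun h => absurd h hk⟩
  choose m hm using h3
  refine ⟨Finsupp.onFinset s (fun k => if k ∈ s then m k else 0) (by
    intro k hk; by_contra hks; simp [hks] at hk), ?_, ?_⟩
  · intro k hk
    simp only [Finsupp.onFinset_apply, hk, if_true]
    exact (hm k hk).1
  · intro k hk k' hk' hne hv y hy y' hy'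
    simp only [Finsupp.onFinset_apply, hk, hk', if_true] at hy hy'
    exact hB k k' hk hk' hne hv y ((hm k hk).2.1 k' hk' hy) y' ((hm k' hk').2.2 k hk hy')

/-- the common extension of a condition below the limit and a member of the model -/
theorem common_ext (hS : Sett U B) {tw : Bp U B} {r u : Pr U B} (hr : r.t ≤ tw) (hu : tw ≤ u.t)
    {wl : Finset (Y × ℕ)} {s : Finset ℕ} {l' l : ℕ → Y} {c : ℕ → Bool} {v : ℕ → ℕ}
    (hl' : ∀ k ∈ s, l' k ∉ tw.I)
    (hr' : ∀ q, q ∈ r.w ↔ q ∈ wl ∨ ∃ k ∈ s, q = (l' k, v k))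
    (hu' : ∀ q, q ∈ u.w ↔ q ∈ wl ∨ ∃ k ∈ s, q = (l k, v k))
    (hcr : ∀ k ∈ s, (l' k ∈ r.t.H ↔ c k = true)) (hcu : ∀ k ∈ s, (l k ∈ u.t.H ↔ c k = true))
    {O0 : Bx} (ho' : ∀ k ∈ s, l' k ∈ U (O0 k)) (ho : ∀ k ∈ s, l k ∈ U (O0 k))
    (hO0 : ∀ k ∈ s, ∀ k' ∈ s, k ≠ k' → v k = v k' →
      ∀ y ∈ U (O0 k), ∀ y' ∈ U (O0 k'), (y, y') ∈ B (c k))
    {Q Q' : Bx} (hQ : ∀ k ∈ s, l' k ∈ U (Q k)) (hQ' : ∀ k ∈ s, l k ∈ U (Q' k))
    (hR : Rel U B s c Q Q') : Compat r u := by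
  classical
  have hru : r.t ≤ u.t := hr.trans hu
  have hu2 := Val.mono hru u.val
  have hinl : ∀ k ∈ s, (l' k, v k) ∈ r.w := fun k hk => (hr' _).2 (Or.inr ⟨k, hk, rfl⟩)
  have hinu : ∀ k ∈ s, (l k, v k) ∈ u.w := fun k hk => (hu' _).2 (Or.inr ⟨k, hk, rfl⟩)
  have hlu : ∀ k ∈ s, l k ∈ tw.I := fun k hk => hu.1 (u.val.dom _ (hinu k hk))
  have hcu' : ∀ k ∈ s, (l k ∈ r.t.H ↔ c k = true) := fun k hk =>
    (hru.2.2.1 _ (u.val.dom _ (hinu k hk))).trans (hcu k hk)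
  have hdec : ∀ (y : Y) (b : Bool), (y ∈ r.t.H ↔ b = true) →
      (@decide (y ∈ r.t.H) (Classical.dec _)) = b := by
    intro y b hb
    by_cases h : y ∈ r.t.H
    · simp [h, hb.1 h]
    · have : b ≠ true := fun h2 => h (hb.2 h2)
      simp [h, this]
  -- the colours of equal values
  have hcol : ∀ k ∈ s, ∀ k' ∈ s, v k = v k' → c k = c k' := by
    intro k hk k' hk' hv
    by_cases hkk : l' k = l' k'
    · have h1 := (hcr k hk)
      have h2 := (hcr k' hk')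
      rw [hkk] at h1
      rw [Bool.eq_iff_iff]
      exact h1.symm.trans h2
    · have h1 := (r.val.hom _ (hinl k hk) _ (hinl k' hk') hv hkk).1
      rw [Bool.eq_iff_iff]
      exact (hcr k hk).symm.trans (h1.trans (hcr k' hk'))
  -- the mixed pairs
  have hmix : ∀ k ∈ s, ∀ k' ∈ s, v k = v k' → (l' k, l k') ∈ B (c k) := by
    intro k hk k' hk' hv
    by_cases hkk : k = k'
    · subst hkk
      exact hR k hk _ (hQ k hk) _ (hQ' k hk)
    · exact hO0 k hk k' hk' hkk hv _ (ho' k hk) _ (ho k' hk')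
  have hval : Val r.t (r.w ∪ u.w) := by
    refine ⟨?_, ?_, ?_⟩
    · intro q hq
      rcases Finset.mem_union.1 hq with hq | hq
      · exact r.val.dom q hq
      · exact hu2.dom q hq
    · -- function
      have key : ∀ q ∈ r.w, ∀ q' ∈ u.w, q.1 = q'.1 → q.2 = q'.2 := by
        intro q hq q' hq' h1
        rcases (hr' q).1 hq with h2 | ⟨k, hk, rfl⟩
        · exact hu2.fn q ((hu' q).2 (Or.inl h2)) q' hq' h1
        · exfalso
          have h3 : q'.1 ∈ tw.I := hu.1 (u.val.dom _ hq')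
          rw [← h1] at h3
          exact hl' k hk h3
      intro q hq q' hq' h1
      rcases Finset.mem_union.1 hq with hq | hq <;> rcases Finset.mem_union.1 hq' with hq' | hq'
      · exact r.val.fn q hq q' hq' h1
      · exact key q hq q' hq' h1
      · exact (key q' hq' q hq h1.symm).symm
      · exact hu2.fn q hq q' hq' h1
    · have key : ∀ q ∈ r.w, ∀ q' ∈ u.w, q.2 = q'.2 → q.1 ≠ q'.1 →
          (q.1 ∈ r.t.H ↔ q'.1 ∈ r.t.H) ∧
          (q.1, q'.1) ∈ B (@decide (q.1 ∈ r.t.H) (Classical.dec _)) := by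
        intro q hq q' hq' h1 hne
        rcases (hr' q).1 hq with h2 | ⟨k, hk, rfl⟩
        · exact hu2.hom q ((hu' q).2 (Or.inl h2)) q' hq' h1 hne
        · rcases (hu' q').1 hq' with h3 | ⟨k', hk', rfl⟩
          · exact r.val.hom _ hq _ ((hr' q').2 (Or.inl h3)) h1 hne
          · have h4 : c k = c k' := hcol k hk k' hk' h1
            refine ⟨(hcr k hk).trans ((iff_of_eq (congrArg (fun b => b = true) h4)).trans
              (hcu' k' hk').symm), ?_⟩
            rw [hdec _ _ (hcr k hk)]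
            exact hmix k hk k' hk' h1
      intro q hq q' hq' h1 hne
      rcases Finset.mem_union.1 hq with hq | hq <;> rcases Finset.mem_union.1 hq' with hq' | hq'
      · exact r.val.hom q hq q' hq' h1 hne
      · exact key q hq q' hq' h1 hne
      · have h2 := key q' hq' q hq h1.symm (Ne.symm hne)
        refine ⟨h2.1.symm, ?_⟩
        have h3 : (@decide (q.1 ∈ r.t.H) (Classical.dec _)) =
            (@decide (q'.1 ∈ r.t.H) (Classical.dec _)) := by
          by_cases h4 : q.1 ∈ r.t.H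
          · have h5 := h2.1.2 h4
            simp [h4, h5]
          · have h5 : q'.1 ∉ r.t.H := fun h6 => h4 (h2.1.1 h6)
            simp [h4, h5]
        rw [h3]
        exact hS.sym _ _ _ h2.2
      · exact hu2.hom q hq q' hq' h1 hne
  exact ⟨⟨r.t, r.w ∪ u.w, hval⟩, ⟨le_rfl, Finset.subset_union_left⟩,
    ⟨hru, Finset.subset_union_right⟩⟩

end

theorem main (h5 : S_B5) (h6 : S_B6) : S_B7 := by
  classical
  intro Y _ _ U B hS
  have h6' : ∀ (π : Par U B) (t : Bp U B), ∃ (t' : Bp U B) (b : Set Bx) (g : Bx → Pr U B),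
      t' ≤ t ∧ b ∈ t'.S ∧
      (∀ O ∈ b, Typ π.1 π.2.1 π.2.2.1 π.2.2.2.1 π.2.2.2.2.1 π.2.2.2.2.2 O t (g O) ∧
        t' ≤ (g O).t) ∧
      ∀ O, O ∉ b → ∀ r : Pr U B,
        ¬ Typ π.1 π.2.1 π.2.2.1 π.2.2.2.1 π.2.2.2.2.1 π.2.2.2.2.2 O t' r :=
    fun π t => h6 Y U B hS π.1 π.2.1 π.2.2.1 π.2.2.2.1 π.2.2.2.2.1 π.2.2.2.2.2 t
  choose T b g hT1 hT2 hT3 hT4 using h6'
  refine ⟨Y, FF T g, FF_countable T g, ?_⟩
  intro N hN hcl p0 hp0
  have hYc : {y : Y | (Sum.inr (Sum.inr y) : Pr U B ⊕ Set (Pr U B) ⊕ Y) ∈ N}.Countable :=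
    hN.preimage_of_injOn (Sum.inr_injective.comp Sum.inr_injective).injOn
  have hDc : {D : Set (Pr U B) | (Sum.inr (Sum.inl D) : Pr U B ⊕ Set (Pr U B) ⊕ Y) ∈ N}.Countable :=
    hN.preimage_of_injOn (Sum.inr_injective.comp Sum.inl_injective).injOn
  set 𝒯 : Set (Par U B) := {π | (Sum.inr (Sum.inl π.1) : Pr U B ⊕ Set (Pr U B) ⊕ Y) ∈ N ∧
    ∀ q ∈ π.2.1, (Sum.inr (Sum.inr q.1) : Pr U B ⊕ Set (Pr U B) ⊕ Y) ∈ N} with h𝒯
  have h𝒯c : 𝒯.Countable := by
    refine ((hDc.prod ((countable_fin (β := ℕ) hYc).prod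
      (countable_univ : (univ : Set (Finset ℕ × Bx × Bx × Bx)).Countable)))).mono ?_
    rintro ⟨D, w, u⟩ ⟨h1, h2⟩
    exact ⟨h1, h2, mem_univ _⟩
  rcases 𝒯.eq_empty_or_nonempty with hemp | hne
  · refine ⟨p0, le_rfl, ?_⟩
    intro D hD _ r _
    exfalso
    have : ((D, ∅, ∅, 0, 0, 0) : Par U B) ∈ 𝒯 :=
      ⟨hD, fun q hq => absurd hq (Finset.notMem_empty _)⟩
    rw [hemp] at this
    exact this
  obtain ⟨f, hf⟩ := h𝒯c.exists_eq_range hne
  have hf' : ∀ n, f n ∈ 𝒯 := fun n => by rw [hf]; exact mem_range_self n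
  let t : ℕ → Bp U B := fun n => Nat.rec p0.t (fun n tn => T (f n) tn) n
  have ht0 : t 0 = p0.t := rfl
  have hts : ∀ n, t (n + 1) = T (f n) (t n) := fun n => rfl
  have hle : ∀ n, t (n + 1) ≤ t n := fun n => by rw [hts]; exact hT1 _ _
  have hanti : Antitone t := antitone_nat_of_succ_le hle
  have hin : ∀ n, (Sum.inl (bare (t n)) : Pr U B ⊕ Set (Pr U B) ⊕ Y) ∈ N := by
    intro n
    induction n with
    | zero => exact (FF1 hcl hp0).1
    | succ n ih => exact (FF2 hcl ih (hf' n).1 (hf' n).2 (f n).2.2).1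
  obtain ⟨tw, htw, htwI, htwS⟩ := h5 Y U B t hle
  have hYI : ∀ y ∈ tw.I, (Sum.inr (Sum.inr y) : Pr U B ⊕ Set (Pr U B) ⊕ Y) ∈ N := by
    intro y hy
    rw [htwI] at hy
    obtain ⟨n, hn⟩ := mem_iUnion.1 hy
    exact (FF1 hcl (hin n)).2 y hn
  refine ⟨⟨tw, p0.w, Val.mono (htw 0) p0.val⟩, ⟨htw 0, Finset.Subset.refl _⟩, ?_⟩
  intro D hD hdense r0 hr0
  obtain ⟨r, hrD, hr⟩ := hdense r0
  suffices h : ∃ u ∈ D, (Sum.inl u : Pr U B ⊕ Set (Pr U B) ⊕ Y) ∈ N ∧ Compat r u by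
    obtain ⟨u, hu, huN, z, hz1, hz2⟩ := h
    exact ⟨u, hu, huN, z, hz1.trans hr, hz2⟩
  have hrt : r.t ≤ tw := hr.1.trans hr0.1
  -- low and high part
  let wl : Finset (Y × ℕ) := r.w.filter (fun q => q.1 ∈ tw.I)
  let wh : Finset (Y × ℕ) := r.w.filter (fun q => q.1 ∉ tw.I)
  obtain ⟨y0⟩ := (inferInstance : Nonempty Y)
  let L := wh.toList
  let s : Finset ℕ := Finset.range L.length
  let l' : ℕ → Y := fun k => (L.getD k (y0, 0)).1
  let v : ℕ → ℕ := fun k => (L.getD k (y0, 0)).2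
  have hL : ∀ k ∈ s, (l' k, v k) ∈ wh := by
    intro k hk
    have hk' : k < L.length := Finset.mem_range.1 hk
    have : L.getD k (y0, 0) = L[k] := List.getD_eq_getElem _ _ hk'
    have h2 : L[k] ∈ L := List.getElem_mem hk'
    have h3 : L[k] ∈ wh := Finset.mem_toList.1 h2
    show ((L.getD k (y0, 0)).1, (L.getD k (y0, 0)).2) ∈ wh
    rw [this]
    exact h3
  have hL' : ∀ q ∈ wh, ∃ k ∈ s, q = (l' k, v k) := by
    intro q hq
    obtain ⟨k, hk, hk2⟩ := List.getElem_of_mem (Finset.mem_toList.2 hq)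
    refine ⟨k, Finset.mem_range.2 hk, ?_⟩
    have : L.getD k (y0, 0) = L[k] := List.getD_eq_getElem _ _ hk
    show q = ((L.getD k (y0, 0)).1, (L.getD k (y0, 0)).2)
    rw [this, hk2]
  have hmem : ∀ k ∈ s, (l' k, v k) ∈ r.w ∧ l' k ∉ tw.I := fun k hk =>
    Finset.mem_filter.1 (hL k hk)
  have hinj : Set.InjOn l' s := by
    intro k hk k' hk' h
    have hk1 : k < L.length := Finset.mem_range.1 (Finset.mem_coe.1 hk)
    have hk2 : k' < L.length := Finset.mem_range.1 (Finset.mem_coe.1 hk')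
    have h1 := r.val.fn _ (hmem k hk).1 _ (hmem k' hk').1 h
    have h2 : L.getD k (y0, 0) = L.getD k' (y0, 0) := Prod.ext h h1
    rw [List.getD_eq_getElem _ _ hk1, List.getD_eq_getElem _ _ hk2] at h2
    exact (List.Nodup.getElem_inj_iff (Finset.nodup_toList _)).1 h2
  let c : ℕ → Bool := col r.t.H l'
  have hc : ∀ k, l' k ∈ r.t.H ↔ c k = true := by
    intro k
    show l' k ∈ r.t.H ↔ col r.t.H l' k = true
    unfold col
    by_cases h : l' k ∈ r.t.H <;> simp [h]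
  obtain ⟨O0, hO1, hO2⟩ := exists_O0 hS s l' c v (by
    intro k hk k' hk' hne hv
    have h1 := r.val.hom _ (hmem k hk).1 _ (hmem k' hk').1 hv (fun h => hne (hinj hk hk' h))
    exact h1.2)
  let cb : Bx := Finsupp.onFinset s (fun k => if k ∈ s then (if c k = true then 1 else 0) else 0) (by
    intro k hk; by_contra hks; simp [hks] at hk)
  let vb : Bx := Finsupp.onFinset s (fun k => if k ∈ s then v k else 0) (by
    intro k hk; by_contra hks; simp [hks] at hk)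
  have hcb : ∀ k ∈ s, (cb k = 1 ↔ c k = true) := by
    intro k hk
    show (if k ∈ s then (if c k = true then 1 else 0) else 0) = 1 ↔ _
    rw [if_pos hk]
    by_cases h : c k = true <;> simp [h]
  have hvb : ∀ k ∈ s, vb k = v k := by
    intro k hk
    show (if k ∈ s then v k else 0) = v k
    rw [if_pos hk]
  have hπ : ((D, wl, s, cb, vb, O0) : Par U B) ∈ 𝒯 :=
    ⟨hD, fun q hq => hYI _ (Finset.mem_filter.1 hq).2⟩
  rw [hf] at hπ
  obtain ⟨n, hn⟩ := hπ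
  have hrw : ∀ q, q ∈ r.w ↔ q ∈ wl ∨ ∃ k ∈ s, q = (l' k, v k) := by
    intro q
    constructor
    · intro hq
      by_cases h : q.1 ∈ tw.I
      · exact Or.inl (Finset.mem_filter.2 ⟨hq, h⟩)
      · exact Or.inr (hL' q (Finset.mem_filter.2 ⟨hq, h⟩))
    · rintro (hq | ⟨k, hk, rfl⟩)
      · exact (Finset.mem_filter.1 hq).1
      · exact (hmem k hk).1
  have hb : ∀ O, Ar U s l' O → O ∈ b (f n) (t n) := by
    intro O hO
    by_contra hcon
    refine hT4 (f n) (t n) O hcon r ?_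
    rw [hn]
    refine ⟨hrD, ?_, l', hinj, ?_, ?_⟩
    · have := hrt.trans (htw (n + 1))
      rw [hts, hn] at this
      exact this
    · intro q
      rw [hrw q]
      constructor
      · rintro (h | ⟨k, hk, rfl⟩)
        · exact Or.inl h
        · exact Or.inr ⟨k, hk, by rw [hvb k hk]⟩
      · rintro (h | ⟨k, hk, rfl⟩)
        · exact Or.inl h
        · exact Or.inr ⟨k, hk, by rw [hvb k hk]⟩
    · intro k hk
      exact ⟨hO1 k hk, hO k hk, (hc k).trans (hcb k hk).symm⟩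
  have hbS : b (f n) (t n) ∈ tw.S := by
    rw [htwS]
    refine mem_iUnion.2 ⟨n + 1, ?_⟩
    rw [hts]
    exact hT2 _ _
  have hall : Allowed U B tw.S s l' c := hrt.2.2.2 s l' hinj (fun k hk =>
    ⟨r.val.dom _ (hmem k hk).1, (hmem k hk).2⟩)
  obtain ⟨Q, hQ, Q', hQ', hR⟩ : ∃ Q, Ar U s l' Q ∧ ∃ Q' ∈ b (f n) (t n), Rel U B s c Q Q' := by
    by_contra hcon
    push Not at hcon
    obtain ⟨Q, hQ, Q', hQ', hR⟩ := hall _ (tw.mod.irr _ hbS s c) (fun O hO =>
      ⟨hb O hO, fun Q' hQ' => hcon O hO Q' hQ'⟩)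
    exact hQ.2 Q' hQ'.1 hR
  obtain ⟨hty, hle2⟩ := hT3 (f n) (t n) Q' hQ'
  have hgN : (Sum.inl (g (f n) (t n) Q') : Pr U B ⊕ Set (Pr U B) ⊕ Y) ∈ N :=
    (FF2 hcl (hin n) (hf' n).1 (hf' n).2 (f n).2.2).2 Q'
  have htu : tw ≤ (g (f n) (t n) Q').t := (htw (n + 1)).trans (by rw [hts]; exact hle2)
  generalize g (f n) (t n) Q' = u at hty hgN htu
  rw [hn] at hty
  obtain ⟨huD, _, l, _, huw, hbox⟩ := hty
  refine ⟨u, huD, hgN, ?_⟩
  refine common_ext hS hrt htu (fun k hk => (hmem k hk).2) hrw (v := v) ?_ (fun k _ => hc k) ?_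
    hO1 (fun k hk => (hbox k hk).1) hO2 hQ (fun k hk => (hbox k hk).2.1) hR
  · intro q
    rw [huw q]
    constructor
    · rintro (h | ⟨k, hk, rfl⟩)
      · exact Or.inl h
      · exact Or.inr ⟨k, hk, by simp only; rw [hvb k hk]⟩
    · rintro (h | ⟨k, hk, rfl⟩)
      · exact Or.inl h
      · exact Or.inr ⟨k, hk, by simp only; rw [hvb k hk]⟩
  · intro k hk
    exact (hbox k hk).2.2.trans (hcb k hk)

end Pool.Agent.W910.WZ.T_B7
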