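import Pool.Agent.W910.WZ.BDefs

set_option autoImplicit false

open Set Cardinal

namespace Pool.Agent.W910.WZ.T_B89

open Pool.Agent.W910.WZ.B
open Pool.Agent.Helper647.FU (PFA Compat MeetsAll)

theorem dec_eq {p q : Prop} (h : p ↔ q) :
    (@decide p (Classical.dec _)) = @decide q (Classical.dec _) := by
  by_cases h1 : p
  · have h2 := h.1 h1
    simp [h1, h2]
  · have h2 : ¬ q := fun h3 => h1 (h.2 h3)
    simp [h1, h2]

theorem val_mono {Y : Type} [TopologicalSpace Y] {U : ℕ → Set Y} {B : Bool → Set (Y × Y)}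
    {t t' : Bp U B} (h : t' ≤ t) {w : Finset (Y × ℕ)} (hw : Val t w) : Val t' w := by
  refine ⟨fun q hq => h.1 (hw.dom q hq), hw.fn, fun q hq q' hq' h2 hne => ?_⟩
  have h3 := hw.hom q hq q' hq' h2 hne
  have h4 := h.2.2.1 _ (hw.dom q hq)
  have h5 := h.2.2.1 _ (hw.dom q' hq')
  refine ⟨h4.trans (h3.1.trans h5.symm), ?_⟩
  rw [dec_eq h4]
  exact h3.2

theorem main8 (h3 : S_B3) (h4 : S_B4) : S_B8 := by
  classical
  intro Y _ U B hS p y
  obtain ⟨I, S, hI, hSS, hm⟩ := h4 Y U B hS (insert y p.t.I) p.t.S (p.t.mod.cI.insert _) p.t.mod.cS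
  obtain ⟨t', ht', htI, htS⟩ := h3 Y U B hS p.t I S hm ((subset_insert _ _).trans hI) hSS
  have hv := val_mono ht' p.val
  by_cases h : ∃ n, (y, n) ∈ p.w
  · exact ⟨⟨t', p.w, hv⟩, ⟨ht', Finset.Subset.refl _⟩, h⟩
  · push Not at h
    obtain ⟨n, hn⟩ : ∃ n, ∀ q ∈ p.w, q.2 ≠ n := by
      refine ⟨(p.w.sup Prod.snd) + 1, fun q hq he => ?_⟩
      have := Finset.le_sup (f := Prod.snd) hq
      omega
    refine ⟨⟨t', insert (y, n) p.w, ?_⟩, ⟨ht', Finset.subset_insert _ _⟩, n,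
      Finset.mem_insert_self _ _⟩
    refine ⟨?_, ?_, ?_⟩
    · intro q hq
      rcases Finset.mem_insert.1 hq with rfl | hq
      · rw [htI]
        exact hI (mem_insert _ _)
      · exact hv.dom q hq
    · intro q hq q' hq' h1
      rcases Finset.mem_insert.1 hq with rfl | hq <;> rcases Finset.mem_insert.1 hq' with rfl | hq'
      · rfl
      · exact absurd (show (y, q'.2) ∈ p.w from by
          have : (y, q'.2) = q' := Prod.ext h1 rfl
          rw [this]; exact hq') (h _)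
      · exact absurd (show (y, q.2) ∈ p.w from by
          have : (y, q.2) = q := Prod.ext h1.symm rfl
          rw [this]; exact hq) (h _)
      · exact hv.fn q hq q' hq' h1
    · intro q hq q' hq' h1 hne
      rcases Finset.mem_insert.1 hq with rfl | hq <;> rcases Finset.mem_insert.1 hq' with rfl | hq'
      · exact absurd rfl hne
      · exact absurd h1.symm (hn q' hq')
      · exact absurd h1 (hn q hq)
      · exact hv.hom q hq q' hq' h1 hne

theorem main9 (h4 : S_B4) (h7 : S_B7) (h8 : S_B8) : S_B9 := by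
  classical
  intro hPFA Y _ _ hY B hop hsym hcov
  by_cases hne : Nonempty Y
  swap
  · exact ⟨fun _ => 0, fun _ => true, fun x => absurd ⟨x⟩ hne⟩
  -- a basis indexed by the naturals
  obtain ⟨U, hU, hbas⟩ : ∃ U : ℕ → Set Y, (∀ m, IsOpen (U m)) ∧
      ∀ V : Set Y, IsOpen V → ∀ y ∈ V, ∃ m, y ∈ U m ∧ U m ⊆ V := by
    obtain ⟨𝒰, h𝒰c, _, h𝒰⟩ := TopologicalSpace.exists_countable_basis Y
    obtain ⟨y0⟩ := hne
    obtain ⟨v0, hv0, _, _⟩ := h𝒰.exists_subset_of_mem_open (mem_univ y0) isOpen_univ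
    obtain ⟨U, hU⟩ := h𝒰c.exists_eq_range ⟨v0, hv0⟩
    refine ⟨U, fun m => h𝒰.isOpen (by rw [hU]; exact mem_range_self m), ?_⟩
    intro V hV y hy
    obtain ⟨v, hv, hyv, hvV⟩ := h𝒰.exists_subset_of_mem_open hy hV
    rw [hU] at hv
    obtain ⟨m, rfl⟩ := hv
    exact ⟨m, hyv, hvV⟩
  have hS : Sett U B := ⟨hU, hbas, hop, hsym, hcov⟩
  have hPne : Nonempty (Pr U B) := by
    obtain ⟨I, S, _, _, hm⟩ := h4 Y U B hS ∅ ∅ countable_empty countable_empty
    exact ⟨⟨⟨I, ∅, S, empty_subset _, hm⟩, ∅, ⟨fun _ h => absurd h (Finset.notMem_empty _),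
        fun _ h => absurd h (Finset.notMem_empty _),
        fun _ h => absurd h (Finset.notMem_empty _)⟩⟩⟩
  obtain ⟨G, hGne, hGup, hGdir, hG⟩ := hPFA (Pr U B) (h7 Y U B hS)
    (range fun y : Y => {q : Pr U B | ∃ n, (y, n) ∈ q.w}) (mk_range_le.trans hY) (by
      rintro D ⟨y, rfl⟩ p
      obtain ⟨q, hq, n, hn⟩ := h8 Y U B hS p y
      exact ⟨q, ⟨n, hn⟩, hq⟩)
  have h1 : ∀ y : Y, ∃ n, ∃ q ∈ G, (y, n) ∈ q.w := by
    intro y
    obtain ⟨q, hq, n, hn⟩ := hG _ ⟨y, rfl⟩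
    exact ⟨n, q, hq, hn⟩
  choose n q hq hn using h1
  refine ⟨n, fun m => decide (∃ p ∈ G, ∃ z, (z, m) ∈ p.w ∧ z ∈ p.t.H), ?_⟩
  intro x y hxy hnxy
  obtain ⟨r, hr, hr1, hr2⟩ := hGdir (q x) (hq x) (q y) (hq y)
  have hx : (x, n x) ∈ r.w := hr1.2 (hn x)
  have hy : (y, n y) ∈ r.w := hr2.2 (hn y)
  have h2 := (r.val.hom _ hx _ hy hnxy hxy).2
  have h3 : (@decide (x ∈ r.t.H) (Classical.dec _)) =
      decide (∃ p ∈ G, ∃ z, (z, n x) ∈ p.w ∧ z ∈ p.t.H) := by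
    have h4 : x ∈ r.t.H ↔ ∃ p ∈ G, ∃ z, (z, n x) ∈ p.w ∧ z ∈ p.t.H := by
      constructor
      · intro h
        exact ⟨r, hr, x, hx, h⟩
      · rintro ⟨p, hp, z, hz, hzH⟩
        obtain ⟨u, _, hu1, hu2⟩ := hGdir r hr p hp
        have hxu : (x, n x) ∈ u.w := hu1.2 hx
        have hzu : (z, n x) ∈ u.w := hu2.2 hz
        have hzH' : z ∈ u.t.H := (hu2.1.2.2.1 z (p.val.dom _ hz)).2 hzH
        have hxH' : x ∈ u.t.H := by
          by_cases hxz : x = z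
          · rw [hxz]; exact hzH'
          · exact (u.val.hom _ hxu _ hzu rfl hxz).1.2 hzH'
        exact (hu1.1.2.2.1 x (r.val.dom _ hx)).1 hxH'
    by_cases h5 : x ∈ r.t.H
    · have h6 := h4.1 h5
      simp [h5, h6]
    · have h6 : ¬ ∃ p ∈ G, ∃ z, (z, n x) ∈ p.w ∧ z ∈ p.t.H := fun h => h5 (h4.2 h)
      simp [h5, h6]
  show (x, y) ∈ B (decide (∃ p ∈ G, ∃ z, (z, n x) ∈ p.w ∧ z ∈ p.t.H))
  rw [← h3]
  exact h2

end Pool.Agent.W910.WZ.T_B89
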