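import Pool.Agent.W910.WZ.CDefs
import Pool.Agent.Helper647.FU.J8

set_option autoImplicit false

open Set Cardinal

namespace Pool.Agent.W910.WZ.T_C1

open Pool.Agent.W910.WZ.C
open Pool.Agent.Helper647.FU (ClosedUnder)
open Pool.Agent.Helper647.FU.J8 (closed_exists)

theorem main : S_C1 := by
  intro I W _ _ hI F hF
  have hy : ∀ β : W, ∃ y : Set (I ⊕ W), {Sum.inr β} ⊆ y ∧ y.Countable ∧ ClosedUnder F y :=
    fun β => closed_exists F hF {Sum.inr β} (countable_singleton _)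
  choose y hy1 hy2 hy3 using hy
  have hg : ∀ β : W, ∃ γ : I, ∀ i, Sum.inl i ∈ y β → i < γ := by
    intro β
    obtain ⟨γ, hγ⟩ := hI.bI (Sum.inl ⁻¹' y β) ((hy2 β).preimage Sum.inl_injective)
    exact ⟨γ, fun i hi => hγ i hi⟩
  choose g hg using hg
  have hcl : ∃ γ : I, ∀ β : W, ∃ β', β ≤ β' ∧ g β' = γ := by
    by_contra hcon
    push Not at hcon
    choose b hb using hcon
    obtain ⟨B, hB⟩ := hI.bW (range b) (by
      have := mk_range_le (f := b)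
      rw [hI.kI] at this
      exact this)
    exact hb (g B) B (hB _ ⟨g B, rfl⟩).le rfl
  obtain ⟨γ, hγ⟩ := hcl
  refine ⟨γ, fun β => ?_⟩
  obtain ⟨β', h1, h2⟩ := hγ β
  exact ⟨y β', hy2 β', hy3 β', fun i hi => h2 ▸ hg β' i hi, β', h1, hy1 β' rfl⟩

theorem main' : S_C1' := by
  intro I W _ _ hI F hF
  have hy : ∀ ζ : I, ∃ y : Set (I ⊕ W), {Sum.inl ζ} ⊆ y ∧ y.Countable ∧ ClosedUnder F y :=
    fun ζ => closed_exists F hF {Sum.inl ζ} (countable_singleton _)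
  choose y hy1 hy2 hy3 using hy
  obtain ⟨δ, hδ⟩ := hI.bW (⋃ ζ : I, Sum.inr ⁻¹' y ζ) (by
    refine (mk_iUnion_le _).trans ?_
    rw [hI.kI]
    refine mul_le_of_le aleph0_lt_aleph_one.le le_rfl (ciSup_le' fun ζ => ?_)
    exact (le_aleph0_iff_set_countable.2 ((hy2 ζ).preimage Sum.inr_injective)).trans
      aleph0_lt_aleph_one.le)
  refine ⟨δ, fun ζ => ⟨y ζ, hy2 ζ, hy3 ζ, fun i hi => hδ i (mem_iUnion.2 ⟨ζ, hi⟩), ζ, le_rfl,
    hy1 ζ rfl⟩⟩

end Pool.Agent.W910.WZ.T_C1
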