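import Pool.Agent.W910.WZ.CDefs
import Pool.Agent.H458R3.LotsB

set_option autoImplicit false

open Set Cardinal

namespace Pool.Agent.W910.WZ.T_C10

open Pool.Agent.W910.WZ.C
open Pool.Agent.Helper647.FU (PFA)

theorem Iio_inj {I : Type} [LinearOrder I] {c c' : I} (h : ∀ i, i < c ↔ i < c') : c = c' := by
  apply le_antisymm
  · by_contra hcon
    exact lt_irrefl c' ((h c').1 (not_le.1 hcon))
  · by_contra hcon
    exact lt_irrefl c ((h c).2 (not_le.1 hcon))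

theorem main (h6 : S_C6) (h7 : S_C7) (h8 : S_C8) (h9 : S_C9) : S_C10 := by
  classical
  intro hPFA
  obtain ⟨I, W, _, _, hI, ⟨e, he⟩, ⟨l1, hl1⟩, ⟨l2, hl2⟩⟩ := h9
  haveI := hI.wfI
  obtain ⟨T, hT1, hT2⟩ := Pool.Agent.H458R3.Lots.exists_stat hI.bI hI.cI hI.kI
  obtain ⟨ι⟩ : Nonempty (ℕ ↪ I) := by
    rw [← Cardinal.le_def, mk_nat, hI.kI]
    exact aleph0_lt_aleph_one.le
  obtain ⟨bit, hbit⟩ : ∃ bit : Set ℕ → Set (I ⊕ W) → Bool, bit = fun r x =>
    decide (∃ n ∈ r, ∃ c ∈ T (ι n), ∀ i, Sum.inl i ∈ x ↔ i < c) := ⟨_, rfl⟩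
  choose X hX using fun r : Set ℕ => h6 hPFA I W hI e l1 l2 (bit r) hl1 hl2
  choose β hβ using fun r : Set ℕ => h7 I W hI e he l1 l2 (bit r) (X r) (hX r)
  -- `β` is injective
  have key : ∀ r s : Set ℕ, β r = β s → r ⊆ s := by
    intro r s hrs n hn
    by_contra hns
    obtain ⟨g, a, hga⟩ := h8 I W hI e l1 l2 (bit r) (bit s) (X r) (X s) (hX r) (hX s)
      (by rw [hβ, hβ, hrs])
    obtain ⟨c, hc, hac, hcg⟩ := hT1 (ι n) g a
    obtain ⟨x, hx1, hx2⟩ := hga c hac hcg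
    have h1 : bit r x = true := by
      rw [hbit]
      simp only [decide_eq_true_eq]
      exact ⟨n, hn, c, hc, hx1⟩
    rw [h1] at hx2
    have h2 := hx2.symm
    rw [hbit] at h2
    simp only [decide_eq_true_eq] at h2
    obtain ⟨m, hm, c', hc', hx3⟩ := h2
    have h3 : c = c' := Iio_inj fun i => (hx1 i).symm.trans (hx3 i)
    subst h3
    have hnm : ι n ≠ ι m := fun h => hns (ι.injective h ▸ hm)
    exact Set.disjoint_left.1 (hT2 _ _ hnm) hc hc'
  have hinj : Function.Injective β := fun r s h =>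
    Subset.antisymm (key r s h) (key s r h.symm)
  calc #ℝ = 2 ^ ℵ₀ := by rw [mk_real, two_power_aleph0]
    _ = #(Set ℕ) := by rw [mk_set, mk_nat]
    _ ≤ #W := mk_le_of_injective hinj
    _ = ℵ_ 2 := hI.kW

end Pool.Agent.W910.WZ.T_C10
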