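import Pool.Agent.W910.WZ.CDefs

set_option autoImplicit false

open Set Cardinal

/-!
# WZ-C2, WZ-C3: coding a bit
-/

namespace Pool.Agent.W910.WZ.T_C23

open Pool.Agent.W910.WZ.C
open Pool.Agent.Helper647.FU (ClosedUnder)

theorem main2 : S_C2 := by
  intro I W _ _ l1 l2 h1 h2 F x hx hm1 hm2 γ δ hγ hδ hA hB b
  obtain ⟨L1a, L1b⟩ := h1 x hx ⟨γ, hγ⟩ hm1
  obtain ⟨L2a, L2b⟩ := h2 x hx ⟨δ, hδ⟩ hm2
  cases b with
  | true =>
    obtain ⟨k1, hk1⟩ := L1b γ hγ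
    obtain ⟨m, _, hm⟩ := Finset.exists_max_image (Finset.range (k1 + 1)) (l2 x)
      ⟨0, Finset.mem_range.2 (Nat.succ_pos _)⟩
    obtain ⟨y, hyx, hyc, hy1, ⟨β', hβ', hβ'y⟩, β'', hβ''x, hβ''⟩ := hA (l2 x m) (L2a m)
    obtain ⟨k2, hk2⟩ := L2b β'' hβ''x
    have b1 : ∀ i, Sum.inl i ∈ y → i < l1 x k1 := fun i hi => (hy1 i hi).trans hk1
    have b2 : ∀ i, Sum.inr i ∈ y → i < l2 x k2 := fun i hi => (hβ'' i hi).trans hk2
    refine ⟨y, hyx, hyc, ⟨k1, b1⟩, ⟨k2, b2⟩, ?_⟩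
    have hc1 : c1 l1 y x ≤ k1 := Nat.sInf_le b1
    have hc2 : ∀ i, Sum.inr i ∈ y → i < l2 x (c2 l2 y x) :=
      Nat.sInf_mem (s := {k | ∀ i, Sum.inr i ∈ y → i < l2 x k}) ⟨k2, b2⟩
    have hlt : k1 < c2 l2 y x := by
      by_contra hcon
      have h3 := hm (c2 l2 y x) (Finset.mem_range.2 (by omega))
      exact absurd (hc2 β' hβ'y) (not_lt.2 (h3.trans hβ'))
    simp only [iff_true]
    omega
  | false =>
    obtain ⟨k2, hk2⟩ := L2b δ hδ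
    obtain ⟨m, _, hm⟩ := Finset.exists_max_image (Finset.range (k2 + 1)) (l1 x)
      ⟨0, Finset.mem_range.2 (Nat.succ_pos _)⟩
    obtain ⟨y, hyx, hyc, hy1, ⟨ζ', hζ', hζ'y⟩, ζ'', hζ''x, hζ''⟩ := hB (l1 x m) (L1a m)
    obtain ⟨k1, hk1⟩ := L1b ζ'' hζ''x
    have b2 : ∀ i, Sum.inr i ∈ y → i < l2 x k2 := fun i hi => (hy1 i hi).trans hk2
    have b1 : ∀ i, Sum.inl i ∈ y → i < l1 x k1 := fun i hi => (hζ'' i hi).trans hk1
    refine ⟨y, hyx, hyc, ⟨k1, b1⟩, ⟨k2, b2⟩, ?_⟩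
    have hc2 : c2 l2 y x ≤ k2 := Nat.sInf_le b2
    have hc1 : ∀ i, Sum.inl i ∈ y → i < l1 x (c1 l1 y x) :=
      Nat.sInf_mem (s := {k | ∀ i, Sum.inl i ∈ y → i < l1 x k}) ⟨k1, b1⟩
    have hlt : k2 < c1 l1 y x := by
      by_contra hcon
      have h3 := hm (c1 l1 y x) (Finset.mem_range.2 (by omega))
      exact absurd (hc1 ζ' hζ'y) (not_lt.2 (h3.trans hζ'))
    simp only [Bool.false_eq_true, iff_false]
    omega

/-- finitely many witnesses -/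
theorem wit {J A : Type} (f : J → A) (y : Set A) (P : ℕ → J → Prop) (k0 : ℕ)
    (h : ∀ k < k0, ∃ i, f i ∈ y ∧ P k i) :
    ∃ a : List A, (∀ j ∈ a, j ∈ y) ∧ ∀ k < k0, ∃ i, f i ∈ a ∧ P k i := by
  induction k0 with
  | zero => exact ⟨[], by simp, fun k hk => absurd hk (Nat.not_lt_zero k)⟩
  | succ n ih =>
    obtain ⟨a, ha, ha2⟩ := ih (fun k hk => h k (Nat.lt_succ_of_lt hk))
    obtain ⟨i, hi, hPi⟩ := h n (Nat.lt_succ_self n)
    refine ⟨f i :: a, ?_, ?_⟩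
    · intro j hj
      rcases List.mem_cons.1 hj with h | h
      · rw [h]; exact hi
      · exact ha j h
    · intro k hk
      rcases Nat.lt_succ_iff_lt_or_eq.1 hk with h | h
      · obtain ⟨i', hi', hP'⟩ := ha2 k h
        exact ⟨i', List.mem_cons_of_mem _ hi', hP'⟩
      · subst h
        exact ⟨i, List.mem_cons_self, hPi⟩

/-- the least bounding index does not change -/
theorem stab {J A : Type} [LinearOrder J] (f : J → A) (l : ℕ → J) (y : Set A)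
    (hb : ∃ k, ∀ i, f i ∈ y → i < l k) :
    ∃ a : List A, (∀ j ∈ a, j ∈ y) ∧ ∀ z ⊆ y, (∀ j ∈ a, j ∈ z) →
      (∃ k, ∀ i, f i ∈ z → i < l k) ∧
        sInf {k | ∀ i, f i ∈ z → i < l k} = sInf {k | ∀ i, f i ∈ y → i < l k} := by
  have hmem : ∀ i, f i ∈ y → i < l (sInf {k | ∀ i, f i ∈ y → i < l k}) :=
    Nat.sInf_mem (s := {k | ∀ i, f i ∈ y → i < l k}) hb
  obtain ⟨a, ha, ha2⟩ := wit f y (fun k i => ¬ i < l k) (sInf {k | ∀ i, f i ∈ y → i < l k}) (by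
    intro k hk
    have := Nat.notMem_of_lt_sInf hk
    simp only [mem_setOf_eq] at this
    push Not at this
    obtain ⟨i, hi, hi2⟩ := this
    exact ⟨i, hi, not_lt.2 hi2⟩)
  refine ⟨a, ha, ?_⟩
  intro z hz hza
  have hz1 : ∀ i, f i ∈ z → i < l (sInf {k | ∀ i, f i ∈ y → i < l k}) := fun i hi =>
    hmem i (hz hi)
  refine ⟨⟨_, hz1⟩, ?_⟩
  refine le_antisymm (Nat.sInf_le hz1) ?_
  by_contra hcon
  obtain ⟨i, hi, hi2⟩ := ha2 _ (not_le.1 hcon)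
  have hz2 : ∀ i, f i ∈ z → i < l (sInf {k | ∀ i, f i ∈ z → i < l k}) :=
    Nat.sInf_mem (s := {k | ∀ i, f i ∈ z → i < l k}) ⟨_, hz1⟩
  exact hi2 (hz2 i (hza _ hi))

theorem main3 : S_C3 := by
  intro I W _ _ l1 l2 b x y hS
  obtain ⟨hb1, hb2, hS3⟩ := hS
  obtain ⟨a1, ha1, hst1⟩ := stab Sum.inl (l1 x) y hb1
  obtain ⟨a2, ha2, hst2⟩ := stab Sum.inr (l2 x) y hb2
  refine ⟨a1 ++ a2, ?_, ?_⟩
  · intro j hj
    rcases List.mem_append.1 hj with h | h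
    · exact ha1 j h
    · exact ha2 j h
  · intro z hz hza
    obtain ⟨k1, e1⟩ := hst1 z hz (fun j hj => hza j (List.mem_append_left _ hj))
    obtain ⟨k2, e2⟩ := hst2 z hz (fun j hj => hza j (List.mem_append_right _ hj))
    refine ⟨k1, k2, ?_⟩
    have e1' : c1 l1 z x = c1 l1 y x := e1
    have e2' : c2 l2 z x = c2 l2 y x := e2
    rw [e1', e2']
    exact hS3

end Pool.Agent.W910.WZ.T_C23
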