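import Pool.Agent.W910.WZ.CDefs
import Pool.Agent.Helper647.FU.J8

set_option autoImplicit false

open Set Cardinal

namespace Pool.Agent.W910.WZ.T_C4

open Pool.Agent.W910.WZ.C
open Pool.Agent.Helper647.FU (ClosedUnder)
open Pool.Agent.Helper647.FU.J8 (closed_exists)

theorem nice_exists {I W : Type} [LinearOrder I] [LinearOrder W] (hI : Ind I W) (e : W → I → W)
    (s : Set (I ⊕ W)) (hs : s.Countable) : ∃ z, s ⊆ z ∧ Nice e z := by
  obtain ⟨F, hF⟩ : ∃ F : List (I ⊕ W) → Set (I ⊕ W), F = fun L =>
    (⋃ i ∈ {i : I | Sum.inl i ∈ L}, Sum.inl '' Iio i) ∪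
      (⋃ i ∈ {i : I | Sum.inl i ∈ L}, ⋃ w ∈ {w : W | Sum.inr w ∈ L}, {Sum.inr (e w i)}) :=
    ⟨_, rfl⟩
  have hL1 : ∀ L : List (I ⊕ W), {i : I | Sum.inl i ∈ L}.Countable := by
    intro L
    have h1 : {x : I ⊕ W | x ∈ L}.Countable := (List.finite_toSet L).countable
    exact h1.preimage (f := (Sum.inl : I → I ⊕ W)) Sum.inl_injective
  have hL2 : ∀ L : List (I ⊕ W), {w : W | Sum.inr w ∈ L}.Countable := by
    intro L
    have h1 : {x : I ⊕ W | x ∈ L}.Countable := (List.finite_toSet L).countable
    exact h1.preimage (f := (Sum.inr : W → I ⊕ W)) Sum.inr_injective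
  have hFc : ∀ L, (F L).Countable := by
    intro L
    rw [hF]
    exact ((hL1 L).biUnion fun i _ => (hI.cI i).image _).union
      ((hL1 L).biUnion fun i _ => (hL2 L).biUnion fun w _ => countable_singleton _)
  obtain ⟨z, hz1, hz2, hz3⟩ := closed_exists F hFc s hs
  refine ⟨z, hz1, hz2, ?_, ?_⟩
  · intro i hi j hj
    refine hz3 [Sum.inl i] (by simpa using hi) ?_
    rw [hF]
    refine Or.inl (mem_iUnion₂.2 ⟨i, by simp, j, hj, rfl⟩)
  · intro w i hw hi
    refine hz3 [Sum.inl i, Sum.inr w] (by
      intro a ha
      simp only [List.mem_cons, List.not_mem_nil, or_false] at ha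
      rcases ha with rfl | rfl
      · exact hi
      · exact hw) ?_
    rw [hF]
    refine Or.inr (mem_iUnion₂.2 ⟨i, by simp, mem_iUnion₂.2 ⟨w, by simp, rfl⟩⟩)

theorem main : S_C4 := by
  intro I W _ _ hI e l1 l2 bit p a ha
  have hp := p.2
  obtain ⟨top, htop⟩ : ∃ top, top = ⋃₀ p.1 := ⟨_, rfl⟩
  have htp : top ∈ p.1 := by rw [htop]; exact hp.cl p.1 Subset.rfl hp.ne
  have hle : ∀ x ∈ p.1, x ⊆ top := fun x hx => by rw [htop]; exact subset_sUnion_of_mem hx
  obtain ⟨z, hz1, hz2⟩ := nice_exists hI e (top ∪ a) ((hp.nice _ htp).1.union ha)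
  have htz : top ⊆ z := subset_union_left.trans hz1
  have haz : a ⊆ z := subset_union_right.trans hz1
  by_cases hzp : z ∈ p.1
  · exact ⟨p, le_rfl, haz.trans (subset_sUnion_of_mem hzp), fun y hy hy' => absurd hy hy'⟩
  · have hne : top ≠ z := fun h => hzp (h ▸ htp)
    refine ⟨⟨insert z p.1, ?_⟩, ⟨subset_insert _ _, ?_⟩, ?_, ?_⟩
    · refine ⟨⟨z, mem_insert _ _⟩, hp.cnt.insert _, ?_, ?_, ?_, ?_⟩
      · intro x hx
        rcases hx with rfl | hx
        · exact hz2
        · exact hp.nice x hx
      · intro x hx y hy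
        rcases hx with rfl | hx
        · rcases hy with rfl | hy
          · exact Or.inl Subset.rfl
          · exact Or.inr ((hle y hy).trans htz)
        · rcases hy with rfl | hy
          · exact Or.inl ((hle x hx).trans htz)
          · exact hp.chain x hx y hy
      · intro Y hY hne'
        by_cases hzY : z ∈ Y
        · left
          refine Subset.antisymm (sUnion_subset fun y hy => ?_) (subset_sUnion_of_mem hzY)
          rcases hY hy with rfl | hy'
          · exact Subset.rfl
          · exact (hle y hy').trans htz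
        · right
          refine hp.cl Y (fun y hy => ?_) hne'
          rcases hY hy with rfl | hy'
          · exact absurd hy hzY
          · exact hy'
      · intro x hx
        rcases hx with rfl | hx
        · right
          refine ⟨top, Or.inr htp, ⟨htz, fun h => hne (Subset.antisymm htz h)⟩, ?_⟩
          intro y hy h1 h2
          rcases hy with rfl | hy
          · exact absurd Subset.rfl h2.2
          · exact absurd (hle y hy) h1.2
        · have hxz : x ⊆ z := (hle x hx).trans htz
          rcases hp.lim x hx with h | ⟨y0, h1, h2, h3⟩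
          · left
            intro y hy
            rcases hy with rfl | hy
            · exact hxz
            · exact h y hy
          · right
            refine ⟨y0, Or.inr h1, h2, fun y hy h4 h5 => ?_⟩
            rcases hy with rfl | hy
            · exact absurd hxz h5.2
            · exact h3 y hy h4 h5
    · intro y hy hyp x hx
      rcases hy with rfl | hy
      · exact (hle x hx).trans htz
      · exact absurd hy hyp
    · exact haz.trans (subset_sUnion_of_mem (mem_insert _ _))
    · intro y hy hyp
      rcases hy with rfl | hy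
      · exact haz
      · exact absurd hy hyp

end Pool.Agent.W910.WZ.T_C4
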