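import Pool.Agent.W910.WZ.CDefs
import Pool.Agent.Helper647.FU.J8

set_option autoImplicit false

open Set Cardinal

namespace Pool.Agent.W910.WZ.T_C5

open Pool.Agent.W910.WZ.C
open Pool.Agent.Helper647.FU (ClosedUnder Proper PFA GenericOver Compat)

theorem list_countable {α β : Type} (L : List α) (f : β → α) (hf : Function.Injective f) :
    {b : β | f b ∈ L}.Countable := by
  have : {b : β | f b ∈ L} = f ⁻¹' {a | a ∈ L} := rfl
  rw [this]
  exact (L.finite_toSet.countable).preimage_of_injOn hf.injOn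

section

variable {I W : Type} [LinearOrder I] [LinearOrder W] {e : W → I → W}
  {l1 : Set (I ⊕ W) → ℕ → I} {l2 : Set (I ⊕ W) → ℕ → W} {bit : Set (I ⊕ W) → Bool}

/-- the top of a condition -/
def top (p : Cd e l1 l2 bit) : Set (I ⊕ W) := ⋃₀ p.1

theorem top_mem (p : Cd e l1 l2 bit) : top p ∈ p.1 := p.2.cl p.1 Subset.rfl p.2.ne

theorem top_countable (p : Cd e l1 l2 bit) : (top p).Countable := (p.2.nice _ (top_mem p)).1

theorem sub_top {p : Cd e l1 l2 bit} {x : Set (I ⊕ W)} (hx : x ∈ p.1) : x ⊆ top p :=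
  subset_sUnion_of_mem hx

/-- the step extension: below `p`, in `D`, with a new member, all new members containing `a` -/
theorem exists_g (hI : Ind I W) (h4 : S_C4) (D : Set (Cd e l1 l2 bit))
    (hD : ∀ p, ∃ q ∈ D, q ≤ p) (p : Cd e l1 l2 bit) (a : List (I ⊕ W)) :
    ∃ q ∈ D, q ≤ p ∧ ∀ z ∈ q.1, z ∉ p.1 → ∀ j ∈ a, j ∈ z := by
  obtain ⟨b, hb⟩ := hI.bI {i | Sum.inl i ∈ top p} ((top_countable p).preimage_of_injOn
    Sum.inl_injective.injOn)
  have hbn : Sum.inl b ∉ top p := fun h => lt_irrefl _ (hb b h)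
  obtain ⟨q, hq1, hq2, hq3⟩ := h4 I W hI e l1 l2 bit p (insert (Sum.inl b) {j | j ∈ a})
    ((a.finite_toSet.countable).insert _)
  obtain ⟨r, hrD, hr⟩ := hD q
  refine ⟨r, hrD, hr.trans hq1, fun z hz hzp j hj => ?_⟩
  by_cases hzq : z ∈ q.1
  · exact hq3 z hzq hzp (mem_insert_of_mem _ hj)
  · -- the top of q is new
    have h1 : top q ∉ p.1 := by
      intro h
      exact hbn (sub_top h (hq2 (mem_insert _ _)))
    have h2 : Sum.inl b ∈ top q := hq2 (mem_insert _ _)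
    have h3 := hq3 _ (top_mem q) h1
    exact hr.2 z hz hzq _ (top_mem q) (h3 (mem_insert_of_mem _ hj))

/-- the data attached to a pair `p`, `D` -/
structure Dat (p : Cd e l1 l2 bit) (D : Set (Cd e l1 l2 bit)) where
  g : List (I ⊕ W) → Cd e l1 l2 bit
  γ : I
  δ : W
  Y1 : W → Set (I ⊕ W)
  b1 : W → W
  Y2 : I → Set (I ⊕ W)
  b2 : I → I
  Y1c : ∀ β, (Y1 β).Countable
  Y2c : ∀ β, (Y2 β).Countable
  hg : (∀ p, ∃ q ∈ D, q ≤ p) → ∀ a, g a ∈ D ∧ g a ≤ p ∧ ∀ z ∈ (g a).1, z ∉ p.1 → ∀ j ∈ a, j ∈ z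
  h1 : ∀ β, ClosedUnder (fun a => top (g a)) (Y1 β) ∧ (∀ i, Sum.inl i ∈ Y1 β → i < γ) ∧
    (∃ β', β ≤ β' ∧ Sum.inr β' ∈ Y1 β) ∧ ∀ i, Sum.inr i ∈ Y1 β → i < b1 β
  h2 : ∀ ζ, ClosedUnder (fun a => top (g a)) (Y2 ζ) ∧ (∀ i, Sum.inr i ∈ Y2 ζ → i < δ) ∧
    (∃ ζ', ζ ≤ ζ' ∧ Sum.inl ζ' ∈ Y2 ζ) ∧ ∀ i, Sum.inl i ∈ Y2 ζ → i < b2 ζ

theorem exists_dat (hI : Ind I W) (h1 : S_C1) (h1' : S_C1') (h4 : S_C4)
    (p : Cd e l1 l2 bit) (D : Set (Cd e l1 l2 bit)) : Nonempty (Dat p D) := by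
  classical
  have hg : ∃ g : List (I ⊕ W) → Cd e l1 l2 bit, (∀ p, ∃ q ∈ D, q ≤ p) → ∀ a, g a ∈ D ∧
      g a ≤ p ∧ ∀ z ∈ (g a).1, z ∉ p.1 → ∀ j ∈ a, j ∈ z := by
    by_cases hD : ∀ p, ∃ q ∈ D, q ≤ p
    · choose g hg using exists_g hI h4 D hD p
      exact ⟨g, fun _ => hg⟩
    · exact ⟨fun _ => p, fun h => absurd h hD⟩
  obtain ⟨g, hg⟩ := hg
  obtain ⟨γ, hγ⟩ := h1 I W hI (fun a => top (g a)) (fun a => top_countable _)
  obtain ⟨δ, hδ⟩ := h1' I W hI (fun a => top (g a)) (fun a => top_countable _)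
  choose Y1 hY1c hY1 using hγ
  choose Y2 hY2c hY2 using hδ
  have hb1 : ∀ β, ∃ b, ∀ i, Sum.inr i ∈ Y1 β → i < b := by
    intro β
    have hc : {i | Sum.inr i ∈ Y1 β}.Countable :=
      (hY1c β).preimage_of_injOn Sum.inr_injective.injOn
    exact hI.bW _ ((le_aleph0_iff_set_countable.2 hc).trans aleph0_lt_aleph_one.le)
  have hb2 : ∀ β, ∃ b, ∀ i, Sum.inl i ∈ Y2 β → i < b := by
    intro β
    exact hI.bI _ ((hY2c β).preimage_of_injOn Sum.inl_injective.injOn)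
  choose b1 hb1 using hb1
  choose b2 hb2 using hb2
  exact ⟨⟨g, γ, δ, Y1, b1, Y2, b2, hY1c, hY2c, hg,
    fun β => ⟨(hY1 β).1, (hY1 β).2.1, (hY1 β).2.2, hb1 β⟩,
    fun β => ⟨(hY2 β).1, (hY2 β).2.1, (hY2 β).2.2, hb2 β⟩⟩⟩

/-- the closure function -/
def FF (d : ∀ (p : Cd e l1 l2 bit) (D : Set (Cd e l1 l2 bit)), Dat p D) (ni : Cd e l1 l2 bit → I)
    (sI : I → I) (sW : W → W)
    (L : List (Cd e l1 l2 bit ⊕ Set (Cd e l1 l2 bit) ⊕ (I ⊕ W))) :
    Set (Cd e l1 l2 bit ⊕ Set (Cd e l1 l2 bit) ⊕ (I ⊕ W)) :=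
  (⋃ p ∈ {p : Cd e l1 l2 bit | Sum.inl p ∈ L},
    (((fun j => Sum.inr (Sum.inr j)) '' top p ∪ {Sum.inr (Sum.inr (Sum.inl (ni p)))}) ∪
    ⋃ D ∈ {D : Set (Cd e l1 l2 bit) | Sum.inr (Sum.inl D) ∈ L},
      (({Sum.inr (Sum.inr (Sum.inl (d p D).γ)), Sum.inr (Sum.inr (Sum.inr (d p D).δ))} ∪
        ⋃ a ∈ {a : List (I ⊕ W) | ∀ j ∈ a, Sum.inr (Sum.inr j) ∈ L}, {Sum.inl ((d p D).g a)}) ∪
      ((⋃ β ∈ {β : W | Sum.inr (Sum.inr (Sum.inr β)) ∈ L},
        ((fun j => Sum.inr (Sum.inr j)) '' (d p D).Y1 β ∪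
          {Sum.inr (Sum.inr (Sum.inr ((d p D).b1 β)))})) ∪
      ⋃ β ∈ {β : I | Sum.inr (Sum.inr (Sum.inl β)) ∈ L},
        ((fun j => Sum.inr (Sum.inr j)) '' (d p D).Y2 β ∪
          {Sum.inr (Sum.inr (Sum.inl ((d p D).b2 β)))}))))) ∪
  ((⋃ i ∈ {i : I | Sum.inr (Sum.inr (Sum.inl i)) ∈ L},
    ((fun j => Sum.inr (Sum.inr (Sum.inl j))) '' Iio i ∪
      {Sum.inr (Sum.inr (Sum.inl (sI i)))})) ∪
  ((⋃ w ∈ {w : W | Sum.inr (Sum.inr (Sum.inr w)) ∈ L},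
    ({Sum.inr (Sum.inr (Sum.inr (sW w)))} ∪
      ⋃ i ∈ {i : I | Sum.inr (Sum.inr (Sum.inl i)) ∈ L}, {Sum.inr (Sum.inr (Sum.inr (e w i)))})) ∪
  ⋃ j ∈ {j : I ⊕ W | Sum.inr (Sum.inr j) ∈ L}, {Sum.inr (Sum.inl {q | j ∈ top q})}))

theorem FF_countable (hI : Ind I W)
    (d : ∀ (p : Cd e l1 l2 bit) (D : Set (Cd e l1 l2 bit)), Dat p D) (ni : Cd e l1 l2 bit → I)
    (sI : I → I) (sW : W → W)
    (L : List (Cd e l1 l2 bit ⊕ Set (Cd e l1 l2 bit) ⊕ (I ⊕ W))) :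
    (FF d ni sI sW L).Countable := by
  have hJ : {j : I ⊕ W | (Sum.inr (Sum.inr j) :
      Cd e l1 l2 bit ⊕ Set (Cd e l1 l2 bit) ⊕ (I ⊕ W)) ∈ L}.Countable :=
    list_countable L _ (Sum.inr_injective.comp Sum.inr_injective)
  have hJ1 : {j : I | (Sum.inr (Sum.inr (Sum.inl j)) :
      Cd e l1 l2 bit ⊕ Set (Cd e l1 l2 bit) ⊕ (I ⊕ W)) ∈ L}.Countable :=
    list_countable L _ (Sum.inr_injective.comp (Sum.inr_injective.comp Sum.inl_injective))
  have hJ2 : {j : W | (Sum.inr (Sum.inr (Sum.inr j)) :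
      Cd e l1 l2 bit ⊕ Set (Cd e l1 l2 bit) ⊕ (I ⊕ W)) ∈ L}.Countable :=
    list_countable L _ (Sum.inr_injective.comp (Sum.inr_injective.comp Sum.inr_injective))
  unfold FF
  refine (Countable.biUnion (list_countable L _ Sum.inl_injective) fun p _ => ?_).union
    ((Countable.biUnion hJ1 fun i _ => ?_).union ((Countable.biUnion hJ2 fun w _ => ?_).union
      (Countable.biUnion hJ fun j _ => countable_singleton _)))
  · refine (((top_countable p).image _).union (countable_singleton _)).union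
      (Countable.biUnion (list_countable L _ (Sum.inr_injective.comp Sum.inl_injective))
        fun D _ => ?_)
    refine ((((countable_singleton _).insert _)).union
      (Countable.biUnion (Pool.Agent.Helper647.FU.J8.fu_lists hJ) fun a _ =>
        countable_singleton _)).union
      ((Countable.biUnion hJ2 fun β _ => ?_).union (Countable.biUnion hJ1 fun β _ => ?_))
    · exact (((d p D).Y1c β).image _).union (countable_singleton _)
    · exact (((d p D).Y2c β).image _).union (countable_singleton _)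
  · exact ((hI.cI i).image _).union (countable_singleton _)
  · exact (countable_singleton _).union (Countable.biUnion hJ1 fun i _ => countable_singleton _)

variable {d : ∀ (p : Cd e l1 l2 bit) (D : Set (Cd e l1 l2 bit)), Dat p D}
  {ni : Cd e l1 l2 bit → I} {sI : I → I} {sW : W → W}
  {N : Set (Cd e l1 l2 bit ⊕ Set (Cd e l1 l2 bit) ⊕ (I ⊕ W))}

theorem f1 (hN : ClosedUnder (FF d ni sI sW) N) {p : Cd e l1 l2 bit} (hp : Sum.inl p ∈ N) :
    (∀ j ∈ top p, Sum.inr (Sum.inr j) ∈ N) ∧ Sum.inr (Sum.inr (Sum.inl (ni p))) ∈ N := by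
  have h := hN [Sum.inl p] (by simpa using hp)
  constructor
  · intro j hj
    refine h (Or.inl (mem_iUnion₂.2 ⟨p, by simp, Or.inl (Or.inl ⟨j, hj, rfl⟩)⟩))
  · refine h (Or.inl (mem_iUnion₂.2 ⟨p, by simp, Or.inl (Or.inr rfl)⟩))

theorem f3 (hN : ClosedUnder (FF d ni sI sW) N) {p : Cd e l1 l2 bit} (hp : Sum.inl p ∈ N)
    {D : Set (Cd e l1 l2 bit)} (hD : Sum.inr (Sum.inl D) ∈ N) :
    Sum.inr (Sum.inr (Sum.inl (d p D).γ)) ∈ N ∧ Sum.inr (Sum.inr (Sum.inr (d p D).δ)) ∈ N := by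
  have h := hN [Sum.inl p, Sum.inr (Sum.inl D)] (by
    intro a ha
    rcases List.mem_cons.1 ha with rfl | ha
    · exact hp
    rcases List.mem_cons.1 ha with rfl | ha
    · exact hD
    simp at ha)
  constructor
  · refine h (Or.inl (mem_iUnion₂.2 ⟨p, by simp, Or.inr (mem_iUnion₂.2 ⟨D, by simp, ?_⟩)⟩))
    exact Or.inl (Or.inl (Or.inl rfl))
  · refine h (Or.inl (mem_iUnion₂.2 ⟨p, by simp, Or.inr (mem_iUnion₂.2 ⟨D, by simp, ?_⟩)⟩))
    exact Or.inl (Or.inl (Or.inr rfl))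

theorem f4 (hN : ClosedUnder (FF d ni sI sW) N) {p : Cd e l1 l2 bit} (hp : Sum.inl p ∈ N)
    {D : Set (Cd e l1 l2 bit)} (hD : Sum.inr (Sum.inl D) ∈ N) (a : List (I ⊕ W))
    (ha : ∀ j ∈ a, Sum.inr (Sum.inr j) ∈ N) : Sum.inl ((d p D).g a) ∈ N := by
  have h := hN (Sum.inl p :: Sum.inr (Sum.inl D) :: a.map (fun j => Sum.inr (Sum.inr j))) (by
    intro b hb
    rcases List.mem_cons.1 hb with rfl | hb
    · exact hp
    rcases List.mem_cons.1 hb with rfl | hb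
    · exact hD
    obtain ⟨j, hj, rfl⟩ := List.mem_map.1 hb
    exact ha j hj)
  refine h (Or.inl (mem_iUnion₂.2 ⟨p, by simp, Or.inr (mem_iUnion₂.2 ⟨D, by simp, ?_⟩)⟩))
  refine Or.inl (Or.inr (mem_iUnion₂.2 ⟨a, ?_, rfl⟩))
  intro j hj
  exact List.mem_cons_of_mem _ (List.mem_cons_of_mem _ (List.mem_map.2 ⟨j, hj, rfl⟩))

theorem f5 (hN : ClosedUnder (FF d ni sI sW) N) {p : Cd e l1 l2 bit} (hp : Sum.inl p ∈ N)
    {D : Set (Cd e l1 l2 bit)} (hD : Sum.inr (Sum.inl D) ∈ N) {β : W}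
    (hβ : Sum.inr (Sum.inr (Sum.inr β)) ∈ N) :
    (∀ j ∈ (d p D).Y1 β, Sum.inr (Sum.inr j) ∈ N) ∧
      Sum.inr (Sum.inr (Sum.inr ((d p D).b1 β))) ∈ N := by
  have h := hN [Sum.inl p, Sum.inr (Sum.inl D), Sum.inr (Sum.inr (Sum.inr β))] (by
    intro a ha
    rcases List.mem_cons.1 ha with rfl | ha
    · exact hp
    rcases List.mem_cons.1 ha with rfl | ha
    · exact hD
    rcases List.mem_cons.1 ha with rfl | ha
    · exact hβ
    simp at ha)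
  constructor
  · intro j hj
    refine h (Or.inl (mem_iUnion₂.2 ⟨p, by simp, Or.inr (mem_iUnion₂.2 ⟨D, by simp, ?_⟩)⟩))
    exact Or.inr (Or.inl (mem_iUnion₂.2 ⟨β, by simp, Or.inl ⟨j, hj, rfl⟩⟩))
  · refine h (Or.inl (mem_iUnion₂.2 ⟨p, by simp, Or.inr (mem_iUnion₂.2 ⟨D, by simp, ?_⟩)⟩))
    exact Or.inr (Or.inl (mem_iUnion₂.2 ⟨β, by simp, Or.inr rfl⟩))

theorem f6 (hN : ClosedUnder (FF d ni sI sW) N) {p : Cd e l1 l2 bit} (hp : Sum.inl p ∈ N)
    {D : Set (Cd e l1 l2 bit)} (hD : Sum.inr (Sum.inl D) ∈ N) {β : I}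
    (hβ : Sum.inr (Sum.inr (Sum.inl β)) ∈ N) :
    (∀ j ∈ (d p D).Y2 β, Sum.inr (Sum.inr j) ∈ N) ∧
      Sum.inr (Sum.inr (Sum.inl ((d p D).b2 β))) ∈ N := by
  have h := hN [Sum.inl p, Sum.inr (Sum.inl D), Sum.inr (Sum.inr (Sum.inl β))] (by
    intro a ha
    rcases List.mem_cons.1 ha with rfl | ha
    · exact hp
    rcases List.mem_cons.1 ha with rfl | ha
    · exact hD
    rcases List.mem_cons.1 ha with rfl | ha
    · exact hβ
    simp at ha)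
  constructor
  · intro j hj
    refine h (Or.inl (mem_iUnion₂.2 ⟨p, by simp, Or.inr (mem_iUnion₂.2 ⟨D, by simp, ?_⟩)⟩))
    exact Or.inr (Or.inr (mem_iUnion₂.2 ⟨β, by simp, Or.inl ⟨j, hj, rfl⟩⟩))
  · refine h (Or.inl (mem_iUnion₂.2 ⟨p, by simp, Or.inr (mem_iUnion₂.2 ⟨D, by simp, ?_⟩)⟩))
    exact Or.inr (Or.inr (mem_iUnion₂.2 ⟨β, by simp, Or.inr rfl⟩))

theorem f7 (hN : ClosedUnder (FF d ni sI sW) N) {i : I}
    (hi : Sum.inr (Sum.inr (Sum.inl i)) ∈ N) :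
    (∀ j, j < i → Sum.inr (Sum.inr (Sum.inl j)) ∈ N) ∧ Sum.inr (Sum.inr (Sum.inl (sI i))) ∈ N := by
  have h := hN [Sum.inr (Sum.inr (Sum.inl i))] (by simpa using hi)
  constructor
  · intro j hj
    exact h (Or.inr (Or.inl (mem_iUnion₂.2 ⟨i, by simp, Or.inl ⟨j, hj, rfl⟩⟩)))
  · exact h (Or.inr (Or.inl (mem_iUnion₂.2 ⟨i, by simp, Or.inr rfl⟩)))

theorem f8 (hN : ClosedUnder (FF d ni sI sW) N) {w : W}
    (hw : Sum.inr (Sum.inr (Sum.inr w)) ∈ N) :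
    Sum.inr (Sum.inr (Sum.inr (sW w))) ∈ N ∧
      ∀ i, Sum.inr (Sum.inr (Sum.inl i)) ∈ N → Sum.inr (Sum.inr (Sum.inr (e w i))) ∈ N := by
  constructor
  · have h := hN [Sum.inr (Sum.inr (Sum.inr w))] (by simpa using hw)
    exact h (Or.inr (Or.inr (Or.inl (mem_iUnion₂.2 ⟨w, by simp, Or.inl rfl⟩))))
  · intro i hi
    have h := hN [Sum.inr (Sum.inr (Sum.inr w)), Sum.inr (Sum.inr (Sum.inl i))] (by
      intro a ha
      rcases List.mem_cons.1 ha with rfl | ha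
      · exact hw
      rcases List.mem_cons.1 ha with rfl | ha
      · exact hi
      simp at ha)
    exact h (Or.inr (Or.inr (Or.inl (mem_iUnion₂.2 ⟨w, by simp, Or.inr
      (mem_iUnion₂.2 ⟨i, by simp, rfl⟩)⟩))))

theorem f9 (hN : ClosedUnder (FF d ni sI sW) N) {j : I ⊕ W}
    (hj : Sum.inr (Sum.inr j) ∈ N) :
    (Sum.inr (Sum.inl {q : Cd e l1 l2 bit | j ∈ top q}) :
      Cd e l1 l2 bit ⊕ Set (Cd e l1 l2 bit) ⊕ (I ⊕ W)) ∈ N := by
  have h := hN [Sum.inr (Sum.inr j)] (by simpa using hj)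
  exact h (Or.inr (Or.inr (Or.inr (mem_iUnion₂.2 ⟨j, by simp, rfl⟩))))

/-- the step inside the model -/
theorem step (h2 : S_C2) (h3 : S_C3) (hl1 : Lad1 l1) (hl2 : Lad2 l2) (hsI : ∀ i, i < sI i)
    (hsW : ∀ i, i < sW i) (hNc : N.Countable)
    (hN : ClosedUnder (FF d ni sI sW) N) {p : Cd e l1 l2 bit} (hp : Sum.inl p ∈ N)
    {D : Set (Cd e l1 l2 bit)} (hD : Sum.inr (Sum.inl D) ∈ N) (hdense : ∀ p, ∃ q ∈ D, q ≤ p)
    (b : Bool) : ∃ q ∈ D, Sum.inl q ∈ N ∧ q ≤ p ∧ ∀ z ∈ q.1, z ∉ p.1 →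
      Sig l1 l2 b {j | Sum.inr (Sum.inr j) ∈ N} z := by
  have hxc : {j : I ⊕ W | (Sum.inr (Sum.inr j) :
      Cd e l1 l2 bit ⊕ Set (Cd e l1 l2 bit) ⊕ (I ⊕ W)) ∈ N}.Countable :=
    hNc.preimage_of_injOn (Sum.inr_injective.comp Sum.inr_injective).injOn
  obtain ⟨y, hyx, hyF, hyS⟩ := h2 I W l1 l2 hl1 hl2 (fun a => top ((d p D).g a))
    {j : I ⊕ W | (Sum.inr (Sum.inr j) :
      Cd e l1 l2 bit ⊕ Set (Cd e l1 l2 bit) ⊕ (I ⊕ W)) ∈ N} hxc
    (fun i hi => ⟨sI i, hsI i, (f7 hN hi).2⟩) (fun i hi => ⟨sW i, hsW i, (f8 hN hi).1⟩)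
    (d p D).γ (d p D).δ (f3 hN hp hD).1 (f3 hN hp hD).2
    (fun β hβ => ⟨(d p D).Y1 β, (f5 hN hp hD hβ).1, ((d p D).h1 β).1, ((d p D).h1 β).2.1,
      ((d p D).h1 β).2.2.1, (d p D).b1 β, (f5 hN hp hD hβ).2, ((d p D).h1 β).2.2.2⟩)
    (fun β hβ => ⟨(d p D).Y2 β, (f6 hN hp hD hβ).1, ((d p D).h2 β).1, ((d p D).h2 β).2.1,
      ((d p D).h2 β).2.2.1, (d p D).b2 β, (f6 hN hp hD hβ).2, ((d p D).h2 β).2.2.2⟩) b
  obtain ⟨a, ha, haz⟩ := h3 I W l1 l2 b _ y hyS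
  obtain ⟨hg1, hg2, hg3⟩ := (d p D).hg hdense a
  refine ⟨(d p D).g a, hg1, f4 hN hp hD a (fun j hj => hyx (ha j hj)), hg2, fun z hz hzp => ?_⟩
  refine haz z ?_ (hg3 z hz hzp)
  exact (sub_top hz).trans (hyF a ha)

end

theorem main (h1 : S_C1) (h1' : S_C1') (h2 : S_C2) (h3 : S_C3) (h4 : S_C4) : S_C5 := by
  classical
  intro I W _ _ hI e l1 l2 bit hl1 hl2
  have hd : ∀ (p : Cd e l1 l2 bit) (D : Set (Cd e l1 l2 bit)), Nonempty (Dat p D) :=
    exists_dat hI h1 h1' h4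
  let d : ∀ (p : Cd e l1 l2 bit) (D : Set (Cd e l1 l2 bit)), Dat p D := fun p D => (hd p D).some
  have hni : ∀ p : Cd e l1 l2 bit, ∃ i, Sum.inl i ∉ top p := by
    intro p
    obtain ⟨b, hb⟩ := hI.bI {i | Sum.inl i ∈ top p} ((top_countable p).preimage_of_injOn
      Sum.inl_injective.injOn)
    exact ⟨b, fun h => lt_irrefl _ (hb b h)⟩
  choose ni hni using hni
  have hsI : ∀ i : I, ∃ j, i < j := by
    intro i
    obtain ⟨b, hb⟩ := hI.bI {i} (countable_singleton _)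
    exact ⟨b, hb i rfl⟩
  choose sI hsI using hsI
  have hsW : ∀ i : W, ∃ j, i < j := by
    intro i
    obtain ⟨b, hb⟩ := hI.bW {i} (by
      rw [mk_singleton]
      exact (one_lt_aleph0.le.trans aleph0_lt_aleph_one.le))
    exact ⟨b, hb i rfl⟩
  choose sW hsW using hsW
  refine ⟨I ⊕ W, FF d ni sI sW, FF_countable hI d ni sI sW, ?_⟩
  intro N hNc hN p0 hp0
  set x : Set (I ⊕ W) := {j | (Sum.inr (Sum.inr j) :
      Cd e l1 l2 bit ⊕ Set (Cd e l1 l2 bit) ⊕ (I ⊕ W)) ∈ N} with hx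
  have hxc : x.Countable :=
    hNc.preimage_of_injOn (Sum.inr_injective.comp Sum.inr_injective).injOn
  have hxn : Nice e x := ⟨hxc, fun i hi j hj => (f7 hN hi).1 j hj,
    fun w i hw hi => (f8 hN hw).2 i hi⟩
  -- the dense sets in the model
  set 𝒟 : Set (Set (Cd e l1 l2 bit)) := {D | (Sum.inr (Sum.inl D) :
      Cd e l1 l2 bit ⊕ Set (Cd e l1 l2 bit) ⊕ (I ⊕ W)) ∈ N ∧ ∀ p, ∃ q ∈ D, q ≤ p} with h𝒟
  have h𝒟c : 𝒟.Countable :=
    (hNc.preimage_of_injOn (Sum.inr_injective.comp Sum.inl_injective).injOn).mono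
      (fun D hD => hD.1)
  have hDj : ∀ j ∈ x, {q : Cd e l1 l2 bit | j ∈ top q} ∈ 𝒟 := by
    intro j hj
    refine ⟨f9 hN hj, fun p => ?_⟩
    obtain ⟨q, hq1, hq2, _⟩ := h4 I W hI e l1 l2 bit p {j} (countable_singleton _)
    exact ⟨q, hq2 rfl, hq1⟩
  have hn0 : Sum.inl (ni p0) ∈ x := (f1 hN hp0).2
  obtain ⟨f, hf⟩ := h𝒟c.exists_eq_range ⟨_, hDj _ hn0⟩
  have hf' : ∀ n, f n ∈ 𝒟 := fun n => by rw [hf]; exact mem_range_self n
  -- the sequence
  have hstep : ∀ (n : ℕ) (p : {p : Cd e l1 l2 bit // (Sum.inl p :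
      Cd e l1 l2 bit ⊕ Set (Cd e l1 l2 bit) ⊕ (I ⊕ W)) ∈ N}),
      ∃ q : {p : Cd e l1 l2 bit // (Sum.inl p :
      Cd e l1 l2 bit ⊕ Set (Cd e l1 l2 bit) ⊕ (I ⊕ W)) ∈ N}, q.1 ∈ f n ∧ q.1 ≤ p.1 ∧
        ∀ z ∈ q.1.1, z ∉ p.1.1 → Sig l1 l2 (bit x) x z := by
    intro n p
    obtain ⟨q, hq1, hq2, hq3, hq4⟩ := step h2 h3 hl1 hl2 hsI hsW hNc hN p.2 (hf' n).1 (hf' n).2
      (bit x)
    exact ⟨⟨q, hq2⟩, hq1, hq3, hq4⟩
  choose nx hnx1 hnx2 hnx3 using hstep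
  let s : ℕ → {p : Cd e l1 l2 bit // (Sum.inl p :
      Cd e l1 l2 bit ⊕ Set (Cd e l1 l2 bit) ⊕ (I ⊕ W)) ∈ N} :=
    fun n => Nat.rec ⟨p0, hp0⟩ (fun n p => nx n p) n
  have hs0 : (s 0).1 = p0 := rfl
  have hss : ∀ n, s (n + 1) = nx n (s n) := fun n => rfl
  have hle : ∀ n, (s (n + 1)).1 ≤ (s n).1 := fun n => hnx2 n (s n)
  have hanti : Antitone (fun n => (s n).1) := antitone_nat_of_succ_le hle
  have hsD : ∀ n, (s (n + 1)).1 ∈ f n := fun n => hnx1 n (s n)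
  have hnew : ∀ n, ∀ z ∈ (s n).1.1, z ∉ p0.1 → Sig l1 l2 (bit x) x z := by
    intro n
    induction n with
    | zero => intro z hz hz'; exact absurd hz hz'
    | succ n ih =>
      intro z hz hz'
      by_cases h : z ∈ (s n).1.1
      · exact ih z h hz'
      · exact hnx3 n (s n) z hz h
  have htop : ∀ n, top (s n).1 ⊆ x := fun n j hj => (f1 hN (s n).2).1 j hj
  have hcov : ∀ j ∈ x, ∃ n, j ∈ top (s n).1 := by
    intro j hj
    have h1 := hDj j hj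
    rw [hf] at h1
    obtain ⟨n, hn⟩ := h1
    refine ⟨n + 1, ?_⟩
    have h2 := hsD n
    rw [hn] at h2
    exact h2
  set Q : Set (Set (I ⊕ W)) := insert x (⋃ n, (s n).1.1) with hQ
  have hxtop : top p0 ⊂ x := by
    refine ⟨htop 0, fun h => hni p0 (h hn0)⟩
  have hsubx : ∀ n, ∀ z ∈ (s n).1.1, z ⊆ x := fun n z hz => (sub_top hz).trans (htop n)
  have hend : ∀ n m, ∀ z ∈ (s m).1.1, z ∉ (s n).1.1 → ∀ y ∈ (s n).1.1, y ⊆ z := by
    intro n m z hz hzn y hy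
    rcases le_total m n with hmn | hnm
    · exact absurd ((hanti hmn).1 hz) hzn
    · exact (hanti hnm).2 z hz hzn y hy
  have hxnew : ∀ n, x ∉ (s n).1.1 := by
    intro n hn
    have h1 : ni (s n).1 = ni (s n).1 := rfl
    exact hni (s n).1 (sub_top hn (f1 hN (s n).2).2)
  have hcd : IsCd e l1 l2 bit Q := by
    refine ⟨⟨x, mem_insert _ _⟩, ?_, ?_, ?_, ?_, ?_⟩
    · exact (countable_iUnion fun n => (s n).1.2.cnt).insert _
    · intro z hz
      rcases hz with rfl | hz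
      · exact hxn
      · obtain ⟨n, hn⟩ := mem_iUnion.1 hz
        exact (s n).1.2.nice z hn
    · intro y hy z hz
      rcases hy with rfl | hy
      · rcases hz with rfl | hz
        · exact Or.inl Subset.rfl
        · obtain ⟨n, hn⟩ := mem_iUnion.1 hz
          exact Or.inr (hsubx n z hn)
      · obtain ⟨m, hm⟩ := mem_iUnion.1 hy
        rcases hz with rfl | hz
        · exact Or.inl (hsubx m y hm)
        · obtain ⟨n, hn⟩ := mem_iUnion.1 hz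
          exact (s (max m n)).1.2.chain y ((hanti (le_max_left m n)).1 hm) z
            ((hanti (le_max_right m n)).1 hn)
    · intro Y hY hYne
      by_cases hxY : x ∈ Y
      · have : ⋃₀ Y = x := by
          apply Subset.antisymm
          · refine sUnion_subset fun z hz => ?_
            rcases hY hz with rfl | h
            · exact Subset.rfl
            · obtain ⟨n, hn⟩ := mem_iUnion.1 h
              exact hsubx n z hn
          · exact subset_sUnion_of_mem hxY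
        rw [this]
        exact mem_insert _ _
      · have hY' : ∀ z ∈ Y, ∃ n, z ∈ (s n).1.1 := by
          intro z hz
          rcases hY hz with rfl | h
          · exact absurd hz hxY
          · exact mem_iUnion.1 h
        by_cases hfin : ∃ n, Y ⊆ (s n).1.1
        · obtain ⟨n, hn⟩ := hfin
          exact Or.inr (mem_iUnion.2 ⟨n, (s n).1.2.cl Y hn hYne⟩)
        · push Not at hfin
          have : ⋃₀ Y = x := by
            apply Subset.antisymm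
            · refine sUnion_subset fun z hz => ?_
              obtain ⟨n, hn⟩ := hY' z hz
              exact hsubx n z hn
            · intro j hj
              obtain ⟨n, hn⟩ := hcov j hj
              obtain ⟨z, hz, hzn⟩ := not_subset.1 (hfin n)
              obtain ⟨m, hm⟩ := hY' z hz
              exact mem_sUnion.2 ⟨z, hz, hend n m z hm hzn _ (top_mem _) hn⟩
          rw [this]
          exact mem_insert _ _
    · intro z hz
      rcases hz with rfl | hz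
      · right
        refine ⟨top p0, Or.inr (mem_iUnion.2 ⟨0, top_mem p0⟩), hxtop, ?_⟩
        intro y hy hy0 hyx
        rcases hy with rfl | hy
        · exact absurd rfl hyx.ne
        · obtain ⟨n, hn⟩ := mem_iUnion.1 hy
          refine hnew n y hn (fun hy1 => ?_)
          exact hy0.2 (sub_top hy1)
      · obtain ⟨n, hn⟩ := mem_iUnion.1 hz
        have hback : ∀ y ∈ Q, y ⊂ z → y ∈ (s n).1.1 := by
          intro y hy hyz
          rcases hy with rfl | hy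
          · exact absurd (hsubx n z hn) hyz.2
          · obtain ⟨m, hm⟩ := mem_iUnion.1 hy
            by_contra hcon
            exact hyz.2 (hend n m y hm hcon z hn)
        rcases (s n).1.2.lim z hn with h | ⟨y0, hy0, hy0z, h⟩
        · left
          intro y hy
          rcases hy with rfl | hy
          · exact hsubx n z hn
          · obtain ⟨m, hm⟩ := mem_iUnion.1 hy
            by_cases hyn : y ∈ (s n).1.1
            · exact h y hyn
            · exact hend n m y hm hyn z hn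
        · right
          exact ⟨y0, Or.inr (mem_iUnion.2 ⟨n, hy0⟩), hy0z, fun y hy hy1 hy2 =>
            h y (hback y hy hy2) hy1 hy2⟩
  let q : Cd e l1 l2 bit := ⟨Q, hcd⟩
  have hq : ∀ n, q ≤ (s n).1 := by
    intro n
    refine ⟨fun z hz => Or.inr (mem_iUnion.2 ⟨n, hz⟩), ?_⟩
    intro y hy hyn z hz
    rcases hy with rfl | hy
    · exact hsubx n z hz
    · obtain ⟨m, hm⟩ := mem_iUnion.1 hy
      exact hend n m y hm hyn z hz
  refine ⟨q, hq 0, ?_⟩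
  intro D hD hdense r hr
  have hD' : D ∈ 𝒟 := ⟨hD, hdense⟩
  rw [hf] at hD'
  obtain ⟨n, rfl⟩ := hD'
  exact ⟨(s (n + 1)).1, hsD n, (s (n + 1)).2, r, le_rfl, hr.trans (hq (n + 1))⟩

end Pool.Agent.W910.WZ.T_C5
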