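import Pool.Agent.W910.WZ.CDefs
import Pool.Agent.Helper647.FU.J8

set_option autoImplicit false

open Set Cardinal

namespace Pool.Agent.W910.WZ.T_C67

open Pool.Agent.W910.WZ.C
open Pool.Agent.Helper647.FU (ClosedUnder Proper PFA GenericOver Compat MeetsAll)

theorem main6 (h4 : S_C4) (h5 : S_C5) : S_C6 := by
  classical
  intro hPFA I W _ _ hI e l1 l2 bit hl1 hl2
  have hne : Nonempty (Cd e l1 l2 bit) := by
    refine ⟨⟨{∅}, ⟨⟨∅, rfl⟩, countable_singleton _, ?_, ?_, ?_, ?_⟩⟩⟩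
    · intro x hx
      rw [mem_singleton_iff] at hx
      subst hx
      exact ⟨countable_empty, fun i hi => absurd hi (notMem_empty _),
        fun w i hi => absurd hi (notMem_empty _)⟩
    · intro x hx y hy
      rw [mem_singleton_iff] at hx hy
      subst hx hy
      exact Or.inl Subset.rfl
    · intro Y hY _
      rw [mem_singleton_iff, sUnion_eq_empty]
      intro z hz
      exact hY hz
    · intro x hx
      left
      intro y _
      rw [mem_singleton_iff] at hx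
      subst hx
      exact empty_subset _
  obtain ⟨G, hGne, hGup, hGdir, hGD⟩ := hPFA (Cd e l1 l2 bit) (h5 I W hI e l1 l2 bit hl1 hl2)
    (range fun i : I => {q : Cd e l1 l2 bit | Sum.inl i ∈ ⋃₀ q.1})
    (mk_range_le.trans hI.kI.le) (by
      rintro D ⟨i, rfl⟩ p
      obtain ⟨q, hq1, hq2, _⟩ := h4 I W hI e l1 l2 bit p {Sum.inl i} (countable_singleton _)
      exact ⟨q, hq2 rfl, hq1⟩)
  have hE : ∀ p ∈ G, ∀ q ∈ G, ∀ z ∈ q.1, z ∉ p.1 → ∀ x ∈ p.1, x ⊆ z := by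
    intro p hp q hq z hz hzp x hx
    obtain ⟨r, _, hr1, hr2⟩ := hGdir p hp q hq
    exact hr1.2 z (hr2.1 hz) hzp x hx
  have hcof : ∀ i : I, ∃ p ∈ G, Sum.inl i ∈ ⋃₀ p.1 := by
    intro i
    obtain ⟨p, hp1, hp2⟩ := hGD _ ⟨i, rfl⟩
    exact ⟨p, hp1, hp2⟩
  refine ⟨{x | ∃ p ∈ G, x ∈ p.1}, ?_, ?_, ?_, ?_, ?_⟩
  · rintro x ⟨p, _, hx⟩
    exact p.2.nice x hx
  · rintro x ⟨p, hp, hx⟩ y ⟨q, hq, hy⟩
    obtain ⟨r, _, hr1, hr2⟩ := hGdir p hp q hq
    exact r.2.chain x (hr1.1 hx) y (hr2.1 hy)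
  · intro Y hY hYne hYc
    have hc : (⋃₀ Y).Countable := hYc.sUnion (fun z hz => by
      obtain ⟨p, _, hp⟩ := hY hz
      exact (p.2.nice z hp).1)
    obtain ⟨b, hb⟩ := hI.bI {i | Sum.inl i ∈ ⋃₀ Y} (hc.preimage_of_injOn
      Sum.inl_injective.injOn)
    have hbn : Sum.inl b ∉ ⋃₀ Y := fun h => lt_irrefl _ (hb b h)
    obtain ⟨p, hp, hbp⟩ := hcof b
    have hsub : Y ⊆ p.1 := by
      intro z hz
      by_contra hzp
      obtain ⟨q, hq, hzq⟩ := hY hz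
      exact hbn (mem_sUnion.2 ⟨z, hz, hE p hp q hq z hzq hzp _ (p.2.cl p.1 Subset.rfl p.2.ne) hbp⟩)
    exact ⟨p, hp, p.2.cl Y hsub hYne⟩
  · rintro x ⟨p, hp, hx⟩
    rcases p.2.lim x hx with h | ⟨y0, hy0, hy0x, h⟩
    · left
      rintro y ⟨q, hq, hy⟩
      by_cases hyp : y ∈ p.1
      · exact h y hyp
      · exact hE p hp q hq y hy hyp x hx
    · right
      refine ⟨y0, ⟨p, hp, hy0⟩, hy0x, ?_⟩
      rintro y ⟨q, hq, hy⟩ h1 h2
      by_cases hyp : y ∈ p.1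
      · exact h y hyp h1 h2
      · exact absurd (hE p hp q hq y hy hyp x hx) h2.2
  · intro i
    obtain ⟨p, hp, x, hx, hi⟩ := hcof i
    exact ⟨x, ⟨p, hp, hx⟩, hi⟩

theorem main7 : S_C7 := by
  classical
  intro I W _ _ hI e he l1 l2 bit X hX
  have hI0 : Nonempty I := by
    rw [← mk_ne_zero_iff, hI.kI]
    exact (aleph_pos 1).ne'
  choose x hx hix using hX.cof
  have hunion : ⋃₀ X = ⋃ i, x i := by
    apply Subset.antisymm
    · refine sUnion_subset fun z hz => ?_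
      obtain ⟨b, hb⟩ := hI.bI {i | Sum.inl i ∈ z} (((hX.nice z hz).1).preimage_of_injOn
        Sum.inl_injective.injOn)
      have hbn : Sum.inl b ∉ z := fun h => lt_irrefl _ (hb b h)
      rcases hX.chain z hz (x b) (hx b) with h | h
      · exact h.trans (subset_iUnion x b)
      · exact absurd (h (hix b)) hbn
    · exact iUnion_subset fun i => subset_sUnion_of_mem (hx i)
  have hcard : #{w : W | Sum.inr w ∈ ⋃₀ X} ≤ ℵ₁ := by
    have h1 : #(⋃₀ X : Set (I ⊕ W)) ≤ ℵ₁ := by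
      rw [hunion]
      refine (mk_iUnion_le x).trans ?_
      refine (mul_le_mul' hI.kI.le (ciSup_le' fun i => ?_)).trans
        (mul_eq_self (aleph0_le_aleph 1)).le
      exact (le_aleph0_iff_set_countable.2 (hX.nice _ (hx i)).1).trans aleph0_lt_aleph_one.le
    have h2 : {w : W | Sum.inr w ∈ ⋃₀ X} = Sum.inr ⁻¹' (⋃₀ X) := rfl
    rw [h2]
    exact (mk_preimage_of_injective _ _ Sum.inr_injective).trans h1
  obtain ⟨b, hb⟩ := hI.bW _ hcard
  have hbn : Sum.inr b ∉ ⋃₀ X := fun h => lt_irrefl _ (hb b h)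
  have := hI.wfW
  obtain ⟨β, hβ, hmin⟩ : ∃ β ∈ {w : W | Sum.inr w ∉ ⋃₀ X}, ∀ w < β,
      w ∉ {w : W | Sum.inr w ∉ ⋃₀ X} :=
    ⟨wellFounded_lt.min {w : W | Sum.inr w ∉ ⋃₀ X} ⟨b, hbn⟩, wellFounded_lt.min_mem _ _,
      fun w hw hmem => wellFounded_lt.not_lt_min _ hmem hw⟩
  refine ⟨β, ?_⟩
  have hdown : ∀ w, Sum.inr w ∈ ⋃₀ X → ∀ v < w, Sum.inr v ∈ ⋃₀ X := by
    rintro w ⟨z, hz, hwz⟩ v hv
    obtain ⟨i, hi⟩ := he w v hv
    rcases hX.chain z hz (x i) (hx i) with h | h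
    · exact mem_sUnion.2 ⟨x i, hx i, hi ▸ (hX.nice _ (hx i)).2.2 w i (h hwz) (hix i)⟩
    · exact mem_sUnion.2 ⟨z, hz, hi ▸ (hX.nice _ hz).2.2 w i hwz (h (hix i))⟩
  ext j
  constructor
  · intro hj w hjw
    subst hjw
    by_contra hcon
    rcases (not_lt.1 hcon).eq_or_lt with h | h
    · exact hβ (h ▸ hj)
    · exact hβ (hdown w hj β h)
  · intro hj
    rcases j with i | w
    · exact mem_sUnion.2 ⟨x i, hx i, hix i⟩
    · by_contra hcon
      exact hmin w (hj w rfl) hcon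

end Pool.Agent.W910.WZ.T_C67
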