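import Pool.Agent.W910.WZ.CDefs

set_option autoImplicit false

open Set Cardinal

namespace Pool.Agent.W910.WZ.T_C9

open Pool.Agent.W910.WZ.C

/-- small subsets are bounded -/
theorem bdd {T : Type} [LinearOrder T] (μ : Cardinal.{0}) (hμ : ℵ₀ ≤ μ) (hT : μ < #T)
    (h : ∀ t : T, #(Iio t) ≤ μ) (C : Set T) (hC : #C ≤ μ) : ∃ b, ∀ c ∈ C, c < b := by
  by_contra hcon
  push Not at hcon
  have h1 : (univ : Set T) ⊆ ⋃ c : C, Iic c.1 := by
    intro b _
    obtain ⟨c, hc, hbc⟩ := hcon b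
    exact mem_iUnion.2 ⟨⟨c, hc⟩, hbc⟩
  have h2 : #T ≤ μ := by
    rw [← mk_univ]
    refine (mk_le_mk_of_subset h1).trans ((mk_iUnion_le _).trans
      (mul_le_of_le hμ hC (ciSup_le' fun c => ?_)))
    have h3 : Iic c.1 ⊆ Iio c.1 ∪ {c.1} := by
      intro x hx
      rcases lt_or_eq_of_le (mem_Iic.1 hx) with h | h
      · exact Or.inl h
      · exact Or.inr h
    refine (mk_le_mk_of_subset h3).trans ((mk_union_le _ _).trans (add_le_of_le hμ (h _) ?_))
    rw [mk_singleton]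
    exact one_lt_aleph0.le.trans hμ
  exact absurd h2 (not_le.2 hT)

theorem aleph_two_eq : (ℵ_ 2 : Cardinal.{0}) = Order.succ ℵ₁ := by
  have : (2 : Ordinal.{0}) = Order.succ 1 := by
    rw [Order.succ_eq_add_one]; norm_num
  rw [this, aleph_succ]

theorem main : S_C9 := by
  obtain ⟨I, hI⟩ : ∃ I : Type, I = (ℵ₁ : Cardinal.{0}).ord.ToType := ⟨_, rfl⟩
  obtain ⟨W, hW⟩ : ∃ W : Type, W = (ℵ_ 2 : Cardinal.{0}).ord.ToType := ⟨_, rfl⟩
  refine ⟨(ℵ₁ : Cardinal.{0}).ord.ToType, (ℵ_ 2 : Cardinal.{0}).ord.ToType, inferInstance,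
    inferInstance, ?_, ?_, ?_, ?_⟩
  · have h1 : ∀ i : (ℵ₁ : Cardinal.{0}).ord.ToType, #(Iio i) ≤ ℵ₀ := by
      intro i
      exact Order.lt_succ_iff.1 (lt_of_lt_of_eq (mk_Iio_toType_ord_lt i) succ_aleph0.symm)
    have h2 : ∀ w : (ℵ_ 2 : Cardinal.{0}).ord.ToType, #(Iio w) ≤ ℵ₁ := by
      intro w
      exact Order.lt_succ_iff.1 (lt_of_lt_of_eq (mk_Iio_toType_ord_lt w) aleph_two_eq)
    refine ⟨inferInstance, inferInstance, fun i => le_aleph0_iff_set_countable.1 (h1 i), ?_,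
      mk_ord_toType _, h2, ?_, mk_ord_toType _⟩
    · intro C hC
      refine bdd ℵ₀ le_rfl ?_ h1 C (le_aleph0_iff_set_countable.2 hC)
      rw [mk_ord_toType]
      exact aleph0_lt_aleph_one
    · intro C hC
      refine bdd ℵ₁ aleph0_lt_aleph_one.le ?_ h2 C hC
      rw [mk_ord_toType, aleph_two_eq]
      exact Order.lt_succ _
  · have h2 : ∀ w : (ℵ_ 2 : Cardinal.{0}).ord.ToType, ∃ f : (ℵ₁ : Cardinal.{0}).ord.ToType →
        (ℵ_ 2 : Cardinal.{0}).ord.ToType, ∀ v < w, ∃ i, f i = v := by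
      intro w
      have h3 : #(Iio w) ≤ #((ℵ₁ : Cardinal.{0}).ord.ToType) := by
        rw [mk_ord_toType]
        exact Order.lt_succ_iff.1 (lt_of_lt_of_eq (mk_Iio_toType_ord_lt w) aleph_two_eq)
      obtain ⟨g⟩ := (Cardinal.le_def _ _).1 h3
      classical
      refine ⟨fun i => if h : ∃ v, g v = i then h.choose.1 else w, fun v hv => ?_⟩
      refine ⟨g ⟨v, hv⟩, ?_⟩
      have hex : ∃ v', g v' = g ⟨v, hv⟩ := ⟨_, rfl⟩
      simp only
      rw [dif_pos hex]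
      rw [g.injective hex.choose_spec]
    choose f hf using h2
    exact ⟨f, hf⟩
  · have h : ∀ x : Set ((ℵ₁ : Cardinal.{0}).ord.ToType ⊕ (ℵ_ 2 : Cardinal.{0}).ord.ToType),
        ∃ f : ℕ → (ℵ₁ : Cardinal.{0}).ord.ToType, x.Countable → (∃ i, Sum.inl i ∈ x) →
          Sum.inl ⁻¹' x = range f := by
      intro x
      by_cases hx : x.Countable ∧ ∃ i, Sum.inl i ∈ x
      · obtain ⟨f, hf⟩ := (hx.1.preimage (f := (Sum.inl : (ℵ₁ : Cardinal.{0}).ord.ToType →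
          (ℵ₁ : Cardinal.{0}).ord.ToType ⊕ (ℵ_ 2 : Cardinal.{0}).ord.ToType))
          Sum.inl_injective).exists_eq_range hx.2
        exact ⟨f, fun _ _ => hf⟩
      · have hne : Nonempty ((ℵ₁ : Cardinal.{0}).ord.ToType) := by
          rw [← mk_ne_zero_iff, mk_ord_toType]
          exact (aleph0_pos.trans aleph0_lt_aleph_one).ne'
        exact ⟨fun _ => hne.some, fun h1 h2 => absurd ⟨h1, h2⟩ hx⟩
    choose f hf using h
    refine ⟨f, fun x h1 h2 h3 => ?_⟩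
    have h4 := hf x h1 h2
    constructor
    · intro k
      have : f x k ∈ Sum.inl ⁻¹' x := by rw [h4]; exact ⟨k, rfl⟩
      exact this
    · intro i hi
      obtain ⟨j, hj1, hj2⟩ := h3 i hi
      have : j ∈ Sum.inl ⁻¹' x := hj2
      rw [h4] at this
      obtain ⟨k, hk⟩ := this
      exact ⟨k, by rw [hk]; exact hj1⟩
  · have h : ∀ x : Set ((ℵ₁ : Cardinal.{0}).ord.ToType ⊕ (ℵ_ 2 : Cardinal.{0}).ord.ToType),
        ∃ f : ℕ → (ℵ_ 2 : Cardinal.{0}).ord.ToType, x.Countable → (∃ i, Sum.inr i ∈ x) →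
          Sum.inr ⁻¹' x = range f := by
      intro x
      by_cases hx : x.Countable ∧ ∃ i, Sum.inr i ∈ x
      · obtain ⟨f, hf⟩ := (hx.1.preimage (f := (Sum.inr : (ℵ_ 2 : Cardinal.{0}).ord.ToType →
          (ℵ₁ : Cardinal.{0}).ord.ToType ⊕ (ℵ_ 2 : Cardinal.{0}).ord.ToType))
          Sum.inr_injective).exists_eq_range hx.2
        exact ⟨f, fun _ _ => hf⟩
      · have hne : Nonempty ((ℵ_ 2 : Cardinal.{0}).ord.ToType) := by
          rw [← mk_ne_zero_iff, mk_ord_toType]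
          exact (aleph_pos _).ne'
        exact ⟨fun _ => hne.some, fun h1 h2 => absurd ⟨h1, h2⟩ hx⟩
    choose f hf using h
    refine ⟨f, fun x h1 h2 h3 => ?_⟩
    have h4 := hf x h1 h2
    constructor
    · intro k
      have : f x k ∈ Sum.inr ⁻¹' x := by rw [h4]; exact ⟨k, rfl⟩
      exact this
    · intro i hi
      obtain ⟨j, hj1, hj2⟩ := h3 i hi
      have : j ∈ Sum.inr ⁻¹' x := hj2
      rw [h4] at this
      obtain ⟨k, hk⟩ := this
      exact ⟨k, by rw [hk]; exact hj1⟩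

end Pool.Agent.W910.WZ.T_C9
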