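import Pool.Agent.W910.WZ.ADefs

set_option autoImplicit false

open Set Cardinal

namespace Pool.Agent.W910.WZ.T_D1

open Pool.Agent.W910.WZ.A
open Pool.Agent.Helper647.FU (MA1 CCC Compat MeetsAll)

/-- finite sequences ordered by end extension -/
structure Sq where
  l : List Bool

instance : PartialOrder Sq where
  le q p := p.l <+: q.l
  le_refl p := List.prefix_refl _
  le_trans _ _ _ h h' := h'.trans h
  le_antisymm p q h h' := by
    cases p; cases q
    have := h.eq_of_length (le_antisymm h.length_le h'.length_le)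
    simp only at this
    rw [this]

theorem main : S_D1 := by
  classical
  intro hMA
  by_contra hcon
  rw [not_le] at hcon
  have hsucc : (ℵ_ 2 : Cardinal) = Order.succ ℵ₁ := by
    have h2 : (2 : Ordinal) = Order.succ 1 := by
      rw [Order.succ_eq_add_one]; norm_num
    rw [h2, aleph_succ]
  rw [hsucc, Order.lt_succ_iff] at hcon
  have hfun : #(ℕ → Bool) ≤ ℵ₁ := by
    have : #(ℕ → Bool) = #ℝ := by
      rw [← power_def, mk_real]
      simp
    rw [this]
    exact hcon
  have hcount : Countable Sq := by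
    refine Function.Injective.countable (f := fun p : Sq => p.l) ?_
    intro p q h
    cases p; cases q
    simpa using h
  have hne : Nonempty Sq := ⟨⟨[]⟩⟩
  have hccc : CCC Sq := fun A _ => Set.to_countable A
  let D1 : ℕ → Set Sq := fun n => {p | n < p.l.length}
  let E1 : (ℕ → Bool) → Set Sq := fun f => {p | ∃ n, ∃ h : n < p.l.length, p.l[n] ≠ f n}
  obtain ⟨G, hGne, hGup, hGdir, hG⟩ := hMA Sq hccc (range D1 ∪ range E1) (by
    refine (mk_union_le _ _).trans ?_
    refine (add_le_add (mk_range_le.trans (show #ℕ ≤ ℵ₁ by rw [mk_nat]; exact aleph0_le_aleph 1)) (mk_range_le.trans hfun)).trans ?_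
    exact (add_eq_self (aleph0_le_aleph 1)).le) (by
    rintro D (⟨n, rfl⟩ | ⟨f, rfl⟩) p
    · refine ⟨⟨p.l ++ List.replicate (n + 1) true⟩, ?_, List.prefix_append _ _⟩
      show n < (p.l ++ List.replicate (n + 1) true).length
      simp
      omega
    · refine ⟨⟨p.l ++ [!(f p.l.length)]⟩, ⟨p.l.length, by simp, ?_⟩, List.prefix_append _ _⟩
      simp)
  -- the generic function
  have hGlen : ∀ n, ∃ p ∈ G, n < p.l.length := by
    intro n
    obtain ⟨p, hp1, hp2⟩ := hG (D1 n) (Or.inl ⟨n, rfl⟩)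
    exact ⟨p, hp1, hp2⟩
  choose q hq hqn using hGlen
  let g : ℕ → Bool := fun n => (q n).l[n]'(hqn n)
  obtain ⟨p, hp, n, hn, hne'⟩ := hG (E1 g) (Or.inr ⟨g, rfl⟩)
  apply hne'
  obtain ⟨r, _, hr1, hr2⟩ := hGdir p hp (q n) (hq n)
  have h1 : p.l[n] = r.l[n]'(hn.trans_le hr1.length_le) := hr1.getElem hn
  have h2 : (q n).l[n]'(hqn n) = r.l[n]'((hqn n).trans_le hr2.length_le) := hr2.getElem (hqn n)
  rw [h1]
  exact h2.symm

end Pool.Agent.W910.WZ.T_D1
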