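import Pool.Agent.W910.WZ.T_A1
import Pool.Agent.W910.WZ.T_A2
import Pool.Agent.W910.WZ.T_A3
import Pool.Agent.W910.WZ.T_B12
import Pool.Agent.W910.WZ.T_B3
import Pool.Agent.W910.WZ.T_B4
import Pool.Agent.W910.WZ.T_B5
import Pool.Agent.W910.WZ.T_B6
import Pool.Agent.W910.WZ.T_B7
import Pool.Agent.W910.WZ.T_B89
import Pool.Agent.W910.WZ.T_C1
import Pool.Agent.W910.WZ.T_C23
import Pool.Agent.W910.WZ.T_C4
import Pool.Agent.W910.WZ.T_C5
import Pool.Agent.W910.WZ.T_C67
import Pool.Agent.W910.WZ.T_C8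
import Pool.Agent.W910.WZ.T_C9
import Pool.Agent.W910.WZ.T_C10
import Pool.Agent.W910.WZ.T_D1

set_option autoImplicit false

open Set Cardinal

namespace Pool.Agent.W910.WZ.Final

open Pool.Agent.Helper647.FU (PFA MA1)

/-- PFA implies the open colouring axiom of Abraham, Rubin and Shelah -/
theorem oca_of_PFA : PFA → OCA :=
  T_B89.main9 T_B4.main
    (T_B7.main T_B5.main (T_B6.main (T_B3.main T_B12.main1 T_B12.main2) T_B4.main T_B5.main))
    (T_B89.main8 (T_B3.main T_B12.main1 T_B12.main2) T_B4.main)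

/-- PFA implies that the continuum is at most `aleph_2` -/
theorem c_le_of_PFA : PFA → #ℝ ≤ ℵ_ 2 :=
  T_C10.main
    (T_C67.main6 T_C4.main (T_C5.main T_C1.main T_C1.main' T_C23.main2 T_C23.main3 T_C4.main))
    T_C67.main7 T_C8.main T_C9.main

/-- PFA implies that the continuum is `aleph_2` -/
theorem c_eq_of_PFA (h : PFA) : #ℝ = ℵ_ 2 :=
  le_antisymm (c_le_of_PFA h) (T_D1.main (Pool.Agent.Helper647.FU.J8.MA1_of_PFA h))

/-- few values at `aleph_1` points -/
theorem few_of_OCA : A.S_A2 := T_A2.main T_A1.main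

/-- no Wetzel family under OCA and `c = aleph_2` -/
theorem no_wetzel_of_OCA : A.S_A3 := T_A3.main few_of_OCA

end Pool.Agent.W910.WZ.Final
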