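import Pool.Agent.W910.WZ.ADefs

set_option autoImplicit false

open Set Cardinal Topology Filter TopologicalSpace

namespace Pool.Agent.W910.WZ.T_A1

open Pool.Agent.W910.WZ

/-- indices: two centres and a radius -/
abbrev E : Type := (Bool → ℕ) × ℕ

noncomputable def rad (e : E) : ℝ := 1 / ((e.2 : ℝ) + 1)

noncomputable def cen (e : E) (i : Bool) : ℂ := denseSeq ℂ (e.1 i)

theorem rad_pos (e : E) : 0 < rad e := by unfold rad; positivity

noncomputable def K (e : E) (i : Bool) : Set ℂ := Metric.closedBall (cen e i) (rad e)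

def Dj (e : E) : Prop := Disjoint (K e false) (K e true)

theorem exists_e {u v : ℂ} (h : u ≠ v) :
    ∃ e : E, Dj e ∧ u ∈ Metric.ball (cen e false) (rad e) ∧ v ∈ Metric.ball (cen e true) (rad e) := by
  have hd : 0 < dist u v := dist_pos.2 h
  obtain ⟨k, hk⟩ := exists_nat_one_div_lt (show 0 < dist u v / 4 by positivity)
  have hρ : (0 : ℝ) < 1 / ((k : ℝ) + 1) := by positivity
  obtain ⟨m0, h0⟩ := (Metric.denseRange_iff.1 (denseRange_denseSeq ℂ)) u _ hρ
  obtain ⟨m1, h1⟩ := (Metric.denseRange_iff.1 (denseRange_denseSeq ℂ)) v _ hρ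
  refine ⟨(fun i => if i = true then m1 else m0, k), ?_, ?_, ?_⟩
  · rw [Dj, Set.disjoint_left]
    intro w hw0 hw1
    have a0 : dist w (denseSeq ℂ m0) ≤ 1 / ((k : ℝ) + 1) := by
      simpa [K, cen, rad] using hw0
    have a1 : dist w (denseSeq ℂ m1) ≤ 1 / ((k : ℝ) + 1) := by
      simpa [K, cen, rad] using hw1
    have t1 := dist_triangle u (denseSeq ℂ m0) v
    have t2 := dist_triangle (denseSeq ℂ m0) w v
    have t3 := dist_triangle w (denseSeq ℂ m1) v
    rw [dist_comm] at a0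
    rw [dist_comm] at h1
    linarith
  · simpa [cen, rad] using h0
  · simpa [cen, rad] using h1

/-- the two open relations -/
def Bf (X : Set (ℂ × ℂ)) (e : E) (i : Bool) : Set (X × X) :=
  {p | ∀ s ∈ K e i, p.1.1.2 - p.2.1.2 ≠ s * (p.1.1.1 - p.2.1.1)}

theorem Bf_open (X : Set (ℂ × ℂ)) (e : E) (i : Bool) : IsOpen (Bf X e i) := by
  rw [isOpen_iff_mem_nhds]
  intro p hp
  have hK : IsCompact (K e i) := isCompact_closedBall _ _
  have := hK.eventually_forall_of_forall_eventually (x₀ := p)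
    (P := fun (p : X × X) (s : ℂ) => p.1.1.2 - p.2.1.2 ≠ s * (p.1.1.1 - p.2.1.1)) (by
      intro s hs
      have ho : IsOpen {z : (X × X) × ℂ | z.1.1.1.2 - z.1.2.1.2 ≠ z.2 * (z.1.1.1.1 - z.1.2.1.1)} := by
        apply isOpen_ne_fun
        · fun_prop
        · fun_prop
      exact ho.mem_nhds (hp s hs))
  exact this

theorem Bf_symm (X : Set (ℂ × ℂ)) (e : E) (i : Bool) (x y : X) (h : (x, y) ∈ Bf X e i) :
    (y, x) ∈ Bf X e i := by
  intro s hs heq
  apply h s hs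
  have heq' : y.1.2 - x.1.2 = s * (y.1.1 - x.1.1) := heq
  change x.1.2 - y.1.2 = s * (x.1.1 - y.1.1)
  linear_combination -heq'

theorem Bf_cover (X : Set (ℂ × ℂ)) (e : E) (he : Dj e) (x y : X) (h : x ≠ y) :
    ∃ i, (x, y) ∈ Bf X e i := by
  by_contra hcon
  push Not at hcon
  have h0 := hcon false
  have h1 := hcon true
  simp only [Bf, Set.mem_ofPred_eq, not_forall, not_not] at h0 h1
  obtain ⟨s0, hs0, e0⟩ := h0
  obtain ⟨s1, hs1, e1⟩ := h1
  have hne : s0 ≠ s1 := fun hh => (Set.disjoint_left.1 he) hs0 (hh ▸ hs1)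
  have h2 : (s0 - s1) * (x.1.1 - y.1.1) = 0 := by linear_combination e1 - e0
  rcases mul_eq_zero.1 h2 with h3 | h3
  · exact hne (sub_eq_zero.1 h3)
  · apply h
    rw [h3, mul_zero] at e0
    exact Subtype.ext (Prod.ext (sub_eq_zero.1 h3) (sub_eq_zero.1 e0))

/-- isolated points of a set are countable -/
theorem iso_countable (Z : Set ℂ) : {z ∈ Z | ∀ᶠ w in 𝓝[≠] z, w ∉ Z}.Countable := by
  have hb := isBasis_countableBasis ℂ
  have hex : ∀ z ∈ {z ∈ Z | ∀ᶠ w in 𝓝[≠] z, w ∉ Z}, ∃ U ∈ countableBasis ℂ, U ∩ Z = {z} := by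
    rintro z ⟨hz, hev⟩
    rw [eventually_nhdsWithin_iff] at hev
    obtain ⟨V, hV, hVo, hzV⟩ := mem_nhds_iff.1 hev
    obtain ⟨U, hU, hzU, hUV⟩ := hb.exists_subset_of_mem_open hzV hVo
    refine ⟨U, hU, ?_⟩
    ext w
    constructor
    · rintro ⟨hw, hwZ⟩
      by_contra hne
      exact hV (hUV hw) hne hwZ
    · rintro rfl
      exact ⟨hzU, hz⟩
  choose! U hU hUZ using hex
  refine Set.MapsTo.countable_of_injOn (f := U) (t := countableBasis ℂ) (fun z hz => hU z hz) ?_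
    (countable_countableBasis ℂ)
  intro z hz z' hz' he
  have h1 := hUZ z hz
  have h2 := hUZ z' hz'
  have h3 : ({z} : Set ℂ) = {z'} := by
    rw [← h1, ← h2]
    rw [he]
  exact Set.singleton_eq_singleton_iff.1 h3

theorem main : A.S_A1 := by
  intro hoca X hX
  have hex : ∀ e : E, Dj e → ∃ (n : X → ℕ) (i : ℕ → Bool), ∀ x y, x ≠ y → n x = n y →
      (x, y) ∈ Bf X e (i (n x)) := fun e he =>
    hoca X hX (Bf X e) (Bf_open X e) (Bf_symm X e) (Bf_cover X e he)
  choose! n i hni using hex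
  set Pr : X → ℂ → Prop := fun x u => ∀ e, Dj e → u ∉ Metric.ball (cen e (i e (n e x))) (rad e)
    with hPr
  have huniq : ∀ x u v, Pr x u → Pr x v → u = v := by
    intro x u v hu hv
    by_contra hne
    obtain ⟨e, he, h0, h1⟩ := exists_e hne
    rcases hb : i e (n e x) with _ | _
    · have := hu e he
      rw [hb] at this
      exact this h0
    · have := hv e he
      rw [hb] at this
      exact this h1
  classical
  refine ⟨fun p => if h : ∃ (hp : p ∈ X) (u : ℂ), Pr ⟨p, hp⟩ u then h.choose_spec.choose else 0, ?_⟩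
  intro g hg
  set Z : E → ℕ → Set ℂ := fun e m => {z | ∃ h : (z, g z) ∈ X, n e ⟨(z, g z), h⟩ = m} with hZ
  have hcount : (⋃ e : E, ⋃ m : ℕ, {z ∈ Z e m | ∀ᶠ w in 𝓝[≠] z, w ∉ Z e m}).Countable :=
    Set.countable_iUnion fun e => Set.countable_iUnion fun m => iso_countable _
  refine hcount.mono ?_
  rintro z ⟨hzX, hne⟩
  by_contra hbad
  apply hne
  have hfreq : ∀ e : E, ∃ᶠ w in 𝓝[≠] z, w ∈ Z e (n e ⟨(z, g z), hzX⟩) := by
    intro e
    by_contra hnf
    rw [Filter.not_frequently] at hnf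
    apply hbad
    exact Set.mem_iUnion.2 ⟨e, Set.mem_iUnion.2 ⟨n e ⟨(z, g z), hzX⟩, ⟨⟨hzX, rfl⟩, hnf⟩⟩⟩
  have hgood : Pr ⟨(z, g z), hzX⟩ (deriv g z) := by
    intro e he hball
    have hder : Tendsto (slope g z) (𝓝[≠] z) (𝓝 (deriv g z)) :=
      hasDerivAt_iff_tendsto_slope.1 (hg z).hasDerivAt
    have hev := hder.eventually (Metric.isOpen_ball.mem_nhds hball)
    have hev2 : ∀ᶠ w in 𝓝[≠] z, w ≠ z := eventually_mem_nhdsWithin
    obtain ⟨w, ⟨hwX, hwn⟩, hws, hwz⟩ := ((hfreq e).and_eventually (hev.and hev2)).exists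
    have hne' : (⟨(w, g w), hwX⟩ : X) ≠ ⟨(z, g z), hzX⟩ := by
      intro h
      exact hwz (congrArg (fun p : X => p.1.1) h)
    have hB := hni e he _ _ hne' hwn
    rw [hwn] at hB
    refine hB (slope g z w) (Metric.ball_subset_closedBall hws) ?_
    change g w - g z = slope g z w * (w - z)
    rw [slope_def_field, div_mul_cancel₀ _ (sub_ne_zero.2 hwz)]
  have hh : ∃ (hp : (z, g z) ∈ X) (u : ℂ), Pr ⟨(z, g z), hp⟩ u := ⟨hzX, deriv g z, hgood⟩
  change deriv g z = if h : ∃ (hp : (z, g z) ∈ X) (u : ℂ), Pr ⟨(z, g z), hp⟩ u then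
    h.choose_spec.choose else 0
  rw [dif_pos hh]
  exact huniq ⟨(z, g z), hzX⟩ _ _ hgood hh.choose_spec.choose_spec

end Pool.Agent.W910.WZ.T_A1
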