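import Pool.Agent.W910.WZ.CDefs

set_option autoImplicit false

open Set Cardinal

namespace Pool.Agent.W910.WZ.T_C8

open Pool.Agent.W910.WZ.C

section

variable {I W : Type} [LinearOrder I] [LinearOrder W] {e : W → I → W}
  {l1 : Set (I ⊕ W) → ℕ → I} {l2 : Set (I ⊕ W) → ℕ → W} {bit bit' : Set (I ⊕ W) → Bool}
  {X X' : Set (Set (I ⊕ W))}

theorem exists_sup (hI0 : Nonempty I) (hX : Filtr e l1 l2 bit X) (y : Set (I ⊕ W)) (hy : y.Countable)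
    (hyX : y ⊆ ⋃₀ X) : ∃ z ∈ X, y ⊆ z := by
  classical
  obtain ⟨i0⟩ := hI0
  obtain ⟨z0, hz0, _⟩ := hX.cof i0
  have h1 : ∀ t : y, ∃ z ∈ X, t.1 ∈ z := fun t => hyX t.2
  choose z hz htz using h1
  have : Countable y := hy.to_subtype
  refine ⟨⋃₀ (insert z0 (range z)), hX.cl _ ?_ ⟨z0, mem_insert _ _⟩
    ((countable_range z).insert _), ?_⟩
  · rintro w (rfl | ⟨t, rfl⟩)
    · exact hz0
    · exact hz t
  · intro t ht
    exact mem_sUnion.2 ⟨z ⟨t, ht⟩, Or.inr ⟨⟨t, ht⟩, rfl⟩, htz ⟨t, ht⟩⟩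

theorem exists_common (hI0 : Nonempty I) (hX : Filtr e l1 l2 bit X) (hX' : Filtr e l1 l2 bit' X')
    (hZ : ⋃₀ X = ⋃₀ X') (y : Set (I ⊕ W)) (hy : y.Countable) (hyX : y ⊆ ⋃₀ X) :
    ∃ z ∈ X, z ∈ X' ∧ y ⊆ z := by
  classical
  have h1 : ∀ y : Set (I ⊕ W), ∃ z, (y.Countable → y ⊆ ⋃₀ X → z ∈ X ∧ y ⊆ z) := by
    intro y
    by_cases h : y.Countable ∧ y ⊆ ⋃₀ X
    · obtain ⟨z, hz1, hz2⟩ := exists_sup hI0 hX y h.1 h.2
      exact ⟨z, fun _ _ => ⟨hz1, hz2⟩⟩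
    · exact ⟨∅, fun a b => absurd ⟨a, b⟩ h⟩
  have h2 : ∀ y : Set (I ⊕ W), ∃ z, (y.Countable → y ⊆ ⋃₀ X' → z ∈ X' ∧ y ⊆ z) := by
    intro y
    by_cases h : y.Countable ∧ y ⊆ ⋃₀ X'
    · obtain ⟨z, hz1, hz2⟩ := exists_sup hI0 hX' y h.1 h.2
      exact ⟨z, fun _ _ => ⟨hz1, hz2⟩⟩
    · exact ⟨∅, fun a b => absurd ⟨a, b⟩ h⟩
  choose u hu using h1
  choose u' hu' using h2
  let s : ℕ → Set (I ⊕ W) := fun n => Nat.rec (u y) (fun _ z => u (u' z)) n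
  have hs0 : s 0 = u y := rfl
  have hss : ∀ n, s (n + 1) = u (u' (s n)) := fun n => rfl
  have hsX : ∀ n, s n ∈ X := by
    intro n
    induction n with
    | zero => exact (hu y hy hyX).1
    | succ n ih =>
      have h3 := (hu' (s n) (hX.nice _ ih).1 (hZ ▸ subset_sUnion_of_mem ih))
      exact (hu _ (hX'.nice _ h3.1).1 (hZ ▸ subset_sUnion_of_mem h3.1)).1
  have h3 : ∀ n, u' (s n) ∈ X' ∧ s n ⊆ u' (s n) := fun n =>
    hu' (s n) (hX.nice _ (hsX n)).1 (hZ ▸ subset_sUnion_of_mem (hsX n))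
  have h4 : ∀ n, u' (s n) ⊆ s (n + 1) := fun n =>
    (hu _ (hX'.nice _ (h3 n).1).1 (hZ ▸ subset_sUnion_of_mem (h3 n).1)).2
  have heq : ⋃₀ (range s) = ⋃₀ (range fun n => u' (s n)) := by
    apply Subset.antisymm
    · rintro t ⟨_, ⟨n, rfl⟩, ht⟩
      exact ⟨_, ⟨n, rfl⟩, (h3 n).2 ht⟩
    · rintro t ⟨_, ⟨n, rfl⟩, ht⟩
      exact ⟨_, ⟨n + 1, rfl⟩, h4 n ht⟩
  refine ⟨⋃₀ (range s), hX.cl _ ?_ ⟨_, ⟨0, rfl⟩⟩ (countable_range _), ?_, ?_⟩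
  · rintro _ ⟨n, rfl⟩
    exact hsX n
  · rw [heq]
    refine hX'.cl _ ?_ ⟨_, ⟨0, rfl⟩⟩ (countable_range _)
    rintro _ ⟨n, rfl⟩
    exact (h3 n).1
  · exact ((hu y hy hyX).2).trans (subset_sUnion_of_mem ⟨0, rfl⟩)

end

theorem main : S_C8 := by
  classical
  intro I W _ _ hI e l1 l2 bit bit' X X' hX hX' hZ
  have hI0 : Nonempty I := by
    rw [← mk_ne_zero_iff, hI.kI]
    exact (aleph_pos 1).ne'
  have h1 : ∀ i : I, ∃ z ∈ X, z ∈ X' ∧ Sum.inl i ∈ z := by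
    intro i
    obtain ⟨x, hx, hix⟩ := hX.cof i
    obtain ⟨z, hz, hz', hsub⟩ := exists_common hI0 hX hX' hZ {Sum.inl i} (countable_singleton _)
      (by rintro _ rfl; exact ⟨x, hx, hix⟩)
    exact ⟨z, hz, hz', hsub rfl⟩
  choose z hzX hzX' hiz using h1
  have h2 : ∀ i : I, ∃ b, ∀ j, Sum.inl j ∈ z i → j < b := by
    intro i
    obtain ⟨b, hb⟩ := hI.bI {j | Sum.inl j ∈ z i} (((hX.nice _ (hzX i)).1).preimage_of_injOn
      Sum.inl_injective.injOn)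
    exact ⟨b, fun j hj => hb j hj⟩
  choose g hg using h2
  obtain ⟨a⟩ := hI0
  refine ⟨g, a, fun c hac hc => ?_⟩
  set x : Set (I ⊕ W) := ⋃₀ (z '' Iio c) with hx
  have hne : (z '' Iio c).Nonempty := ⟨z a, a, hac, rfl⟩
  have hcc : (z '' Iio c).Countable := (hI.cI c).image _
  have hxX : x ∈ X := hX.cl _ (by rintro _ ⟨i, _, rfl⟩; exact hzX i) hne hcc
  have hxX' : x ∈ X' := hX'.cl _ (by rintro _ ⟨i, _, rfl⟩; exact hzX' i) hne hcc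
  have hx1 : ∀ i, Sum.inl i ∈ x ↔ i < c := by
    intro i
    constructor
    · rintro ⟨_, ⟨j, hj, rfl⟩, hi⟩
      exact (hg j i hi).trans (hc j hj)
    · intro hi
      exact ⟨z i, ⟨i, hi, rfl⟩, hiz i⟩
  have hzx : ∀ i, i < c → z i ⊂ x := by
    intro i hi
    refine ⟨subset_sUnion_of_mem ⟨i, hi, rfl⟩, fun h => ?_⟩
    have h3 := h ((hx1 (g i)).2 (hc i hi))
    exact lt_irrefl _ (hg i _ h3)
  refine ⟨x, hx1, ?_⟩
  -- limits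
  have hlim : ∀ (b : Set (I ⊕ W) → Bool) (V : Set (Set (I ⊕ W))), Filtr e l1 l2 b V →
      x ∈ V → (∀ i, z i ∈ V) → ∃ m, m < c ∧ ∀ y ∈ V, z m ⊆ y → y ⊂ x → Sig l1 l2 (b x) x y := by
    intro b V hV hxV hzV
    rcases hV.lim x hxV with h | ⟨y0, hy0, hy0x, h⟩
    · exact absurd (h (z a) (hzV a)) (hzx a hac).2
    · obtain ⟨t, htx, hty⟩ := not_subset.1 hy0x.2
      obtain ⟨_, ⟨i, hi, rfl⟩, hti⟩ := htx
      refine ⟨i, hi, fun y hy hiy hyx => h y hy ?_ hyx⟩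
      rcases hV.chain (z i) (hzV i) y0 hy0 with h5 | h5
      · exact absurd (h5 hti) hty
      · exact ⟨h5.trans hiy, fun h6 => hty (h6 (hiy hti))⟩
  obtain ⟨m, hmc, hm⟩ := hlim bit X hX hxX hzX
  obtain ⟨m', hmc', hm'⟩ := hlim bit' X' hX' hxX' hzX'
  obtain ⟨k, hkc, hk1, hk2⟩ : ∃ k, k < c ∧ z m ⊆ z k ∧ z m' ⊆ z k := by
    rcases hX.chain (z m) (hzX m) (z m') (hzX m') with h | h
    · exact ⟨m', hmc', h, Subset.rfl⟩
    · exact ⟨m, hmc, Subset.rfl, h⟩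
  have h5 := (hm (z k) (hzX k) hk1 (hzx k hkc)).2.2
  have h6 := (hm' (z k) (hzX' k) hk2 (hzx k hkc)).2.2
  rw [Bool.eq_iff_iff]
  exact h5.symm.trans h6

end Pool.Agent.W910.WZ.T_C8
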